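import Pool.Agent.Work.MP_51da30_lc.Uf

/-!
# MP_51da30_lc, file Alg : the complete Boolean algebra `B`

`star T = {s : T - s ∈ 𝒲}` is an idempotent Boolean endomorphism of `Set Gm`, and `BB` is its
image. `s ∈ b` (for `b : BB`) is written `s ∈ b.1`.
-/

namespace BC
open Filter

/-- `T* = {s : T - s ∈ 𝒲}` -/
def star (T : Set Gm) : Set Gm := {s | ∀ᶠ w in (W : Filter Gm), s + w ∈ T}

theorem mem_star {T : Set Gm} {s : Gm} : s ∈ star T ↔ ∀ᶠ w in (W : Filter Gm), s + w ∈ T :=
  Iff.rfl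

theorem star_inter (S T : Set Gm) : star (S ∩ T) = star S ∩ star T := by
  ext s
  simp only [mem_star, Set.mem_inter_iff]
  exact eventually_and

theorem star_compl (T : Set Gm) : star Tᶜ = (star T)ᶜ := by
  ext s
  simp only [mem_star, Set.mem_compl_iff]
  exact Ultrafilter.eventually_not

theorem star_union (S T : Set Gm) : star (S ∪ T) = star S ∪ star T := by
  ext s
  simp only [mem_star, Set.mem_union]
  exact Ultrafilter.eventually_or

theorem star_mono {S T : Set Gm} (h : S ⊆ T) : star S ⊆ star T := by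
  intro s hs
  exact Filter.Eventually.mono hs (fun _ hw => h hw)

theorem star_empty : star ∅ = ∅ := by
  ext s
  simpa [mem_star] using W.neBot.ne

theorem star_univ : star Set.univ = Set.univ := by
  ext s
  simp [mem_star]

theorem star_star (T : Set Gm) : star (star T) = star T := by
  ext s
  have h := W_idem {w | s + w ∈ T}
  simp only [mem_star]
  simp only [Set.mem_ofPred_eq, ← add_assoc] at h
  exact h

/-- The complete Boolean algebra of all sets `T` with `T* = T`. -/
def BB : Type := {T : Set Gm // star T = T}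

namespace BB

instance : PartialOrder BB := Subtype.partialOrder _

theorem le_def {a b : BB} : a ≤ b ↔ a.1 ⊆ b.1 := Iff.rfl

/-- the element `T*` of `BB` -/
def st (T : Set Gm) : BB := ⟨star T, star_star T⟩

theorem st_val (T : Set Gm) : (st T).1 = star T := rfl

theorem st_self (b : BB) : st b.1 = b := Subtype.ext b.2

noncomputable instance : Lattice BB :=
  { (inferInstance : PartialOrder BB) with
    inf := fun a b => ⟨a.1 ∩ b.1, by rw [star_inter, a.2, b.2]⟩
    sup := fun a b => ⟨a.1 ∪ b.1, by rw [star_union, a.2, b.2]⟩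
    inf_le_left := fun a b => Set.inter_subset_left (s := a.1) (t := b.1)
    inf_le_right := fun a b => Set.inter_subset_right (s := a.1) (t := b.1)
    le_inf := fun a b c h1 h2 => Set.subset_inter (h1 : a.1 ⊆ b.1) (h2 : a.1 ⊆ c.1)
    le_sup_left := fun a b => Set.subset_union_left (s := a.1) (t := b.1)
    le_sup_right := fun a b => Set.subset_union_right (s := a.1) (t := b.1)
    sup_le := fun a b c h1 h2 => Set.union_subset (h1 : a.1 ⊆ c.1) (h2 : b.1 ⊆ c.1) }

noncomputable instance instCBA : CompleteBooleanAlgebra BB :=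
  { (inferInstance : Lattice BB) with
    sSup := fun S => st (⋃ b ∈ S, b.1)
    sInf := fun S => st (⋂ b ∈ S, b.1)
    isLUB_sSup := by
      intro S
      constructor
      · intro b hb
        have h1 : b.1 ⊆ ⋃ b ∈ S, b.1 := Set.subset_biUnion_of_mem (u := fun b : BB => b.1) hb
        have h2 := star_mono h1
        rw [b.2] at h2
        exact h2
      · intro c hc
        have h1 : (⋃ b ∈ S, b.1) ⊆ c.1 := Set.iUnion₂_subset fun b hb => hc hb
        have h2 := star_mono h1
        rw [c.2] at h2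
        exact h2
    isGLB_sInf := by
      intro S
      constructor
      · intro b hb
        have h1 : (⋂ b ∈ S, b.1) ⊆ b.1 := Set.biInter_subset_of_mem (t := fun b : BB => b.1) hb
        have h2 := star_mono h1
        rw [b.2] at h2
        exact h2
      · intro c hc
        have h1 : c.1 ⊆ (⋂ b ∈ S, b.1) := Set.subset_iInter₂ fun b hb => hc hb
        have h2 := star_mono h1
        rw [c.2] at h2
        exact h2
    top := ⟨Set.univ, star_univ⟩
    bot := ⟨∅, star_empty⟩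
    le_top := fun a => Set.subset_univ a.1
    bot_le := fun a => Set.empty_subset a.1
    compl := fun a => ⟨a.1ᶜ, by rw [star_compl, a.2]⟩
    le_sup_inf := fun a b c => by
      change (a.1 ∪ b.1) ∩ (a.1 ∪ c.1) ⊆ a.1 ∪ (b.1 ∩ c.1)
      rw [Set.union_inter_distrib_left]
    inf_compl_le_bot := fun a => by
      change a.1 ∩ a.1ᶜ ⊆ ∅
      simp
    top_le_sup_compl := fun a => by
      change Set.univ ⊆ a.1 ∪ a.1ᶜ
      simp }

theorem coe_inf (a b : BB) : (a ⊓ b).1 = a.1 ∩ b.1 := rfl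

theorem coe_sup (a b : BB) : (a ⊔ b).1 = a.1 ∪ b.1 := rfl

theorem coe_compl (a : BB) : (aᶜ).1 = (a.1)ᶜ := rfl

theorem coe_top : (⊤ : BB).1 = Set.univ := rfl

theorem coe_bot : (⊥ : BB).1 = ∅ := rfl

theorem mem_inf {a b : BB} {s : Gm} : s ∈ (a ⊓ b).1 ↔ s ∈ a.1 ∧ s ∈ b.1 := Iff.rfl

theorem mem_sup {a b : BB} {s : Gm} : s ∈ (a ⊔ b).1 ↔ s ∈ a.1 ∨ s ∈ b.1 := Iff.rfl

theorem mem_compl {a : BB} {s : Gm} : s ∈ (aᶜ).1 ↔ s ∉ a.1 := Iff.rfl

theorem mem_himp {a b : BB} {s : Gm} : s ∈ (a ⇨ b).1 ↔ (s ∈ a.1 → s ∈ b.1) := by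
  rw [himp_eq, mem_sup, mem_compl]
  tauto

theorem ne_bot_iff {a : BB} : a ≠ ⊥ ↔ ∃ s, s ∈ a.1 := by
  rw [← not_iff_not]
  push Not
  constructor
  · rintro rfl s
    exact fun h => h
  · intro h
    apply Subtype.ext
    ext s
    exact ⟨fun hs => h s hs, fun hs => hs.elim⟩

theorem coe_sSup (S : Set BB) : (sSup S).1 = star (⋃ b ∈ S, b.1) := rfl

theorem coe_iSup {ι : Sort*} (f : ι → BB) : (⨆ i, f i).1 = star (⋃ i, (f i).1) := by
  have : (⨆ i, f i) = sSup (Set.range f) := rfl
  rw [this, coe_sSup]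
  congr 1
  ext s
  simp

instance : Nontrivial BB := ⟨⊥, ⊤, by
  intro h
  have h1 : (0 : Gm) ∈ (⊤ : BB).1 := Set.mem_univ _
  rw [← h] at h1
  exact h1⟩

/-- `B` satisfies the countable chain condition (in the form needed). -/
theorem ccc (S : Set BB) : ∃ T ⊆ S, T.Countable ∧ sSup T = sSup S := by
  classical
  have h : ∀ s : Gm, ∃ T : Set BB, T ⊆ S ∧ T.Countable ∧ ((∃ b ∈ S, s ∈ b.1) → ∃ b ∈ T, s ∈ b.1) := by
    intro s
    by_cases hs : ∃ b ∈ S, s ∈ b.1
    · obtain ⟨b, hb, hsb⟩ := hs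
      exact ⟨{b}, by simpa using hb, Set.countable_singleton b, fun _ => ⟨b, rfl, hsb⟩⟩
    · exact ⟨∅, Set.empty_subset _, Set.countable_empty, fun h => absurd h hs⟩
  choose T hTS hTc hT using h
  refine ⟨⋃ s, T s, Set.iUnion_subset hTS, Set.countable_iUnion hTc, ?_⟩
  apply le_antisymm
  · exact sSup_le_sSup (Set.iUnion_subset hTS)
  · have h1 : (⋃ b ∈ S, b.1) ⊆ ⋃ b ∈ (⋃ s, T s), b.1 := by
      intro s hs
      simp only [Set.mem_iUnion] at hs
      obtain ⟨b, hb, hsb⟩ := hs
      obtain ⟨b', hb', hsb'⟩ := hT s ⟨b, hb, hsb⟩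
      simp only [Set.mem_iUnion]
      exact ⟨b', ⟨s, hb'⟩, hsb'⟩
    exact star_mono h1

end BB

/-! ## The action of `Gm` on `BB` -/

/-- translation by `g` -/
def trS (g : Gm) (T : Set Gm) : Set Gm := {s | s + g ∈ T}

theorem star_trS (g : Gm) (T : Set Gm) : star (trS g T) = trS g (star T) := by
  ext s
  simp only [mem_star, trS, Set.mem_ofPred_eq]
  have : ∀ w : Gm, s + w + g = s + g + w := fun w => add_right_comm s w g
  simp only [this]

theorem Gm.add_self (g : Gm) : g + g = 0 := by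
  ext x
  simp only [Finsupp.add_apply, Finsupp.coe_zero, Pi.zero_apply]
  exact CharTwo.add_self_eq_zero _

theorem trS_trS (g : Gm) (T : Set Gm) : trS g (trS g T) = T := by
  ext s
  simp only [trS, Set.mem_ofPred_eq, add_assoc, Gm.add_self, add_zero]

/-- The automorphism of `BB` given by translation by `g`. -/
def tr (g : Gm) : BB ≃o BB where
  toFun b := ⟨trS g b.1, by rw [star_trS, b.2]⟩
  invFun b := ⟨trS g b.1, by rw [star_trS, b.2]⟩
  left_inv b := Subtype.ext (trS_trS g b.1)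
  right_inv b := Subtype.ext (trS_trS g b.1)
  map_rel_iff' := by
    intro a b
    constructor
    · intro h s hs
      have h1 : s + g + g ∈ a.1 := by rw [add_assoc, Gm.add_self, add_zero]; exact hs
      have h2 : s + g + g ∈ b.1 := h h1
      rw [add_assoc, Gm.add_self, add_zero] at h2
      exact h2
    · intro h s hs
      exact h hs

theorem mem_tr {g : Gm} {b : BB} {s : Gm} : s ∈ (tr g b).1 ↔ s + g ∈ b.1 := Iff.rfl

theorem tr_zero (b : BB) : tr 0 b = b := by
  apply Subtype.ext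
  ext s
  rw [mem_tr, add_zero]

theorem tr_tr (g h : Gm) (b : BB) : tr g (tr h b) = tr (g + h) b := by
  apply Subtype.ext
  ext s
  simp only [mem_tr, add_assoc]

theorem tr_self (g : Gm) (b : BB) : tr g (tr g b) = b := by
  rw [tr_tr, Gm.add_self, tr_zero]

theorem tr_st (g : Gm) (T : Set Gm) : tr g (BB.st T) = BB.st (trS g T) :=
  Subtype.ext (star_trS g T).symm

/-- The subgroup `Γ_{≥ m}` of all elements whose support lies in `{(i, j) : i ≥ m}`. -/
def Fi (m : ℕ) : Set Gm := {g | ∀ i j, i < m → g (i, j) = 0}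

theorem Fi_zero (m : ℕ) : (0 : Gm) ∈ Fi m := fun _ _ _ => rfl

theorem Fi_add {m : ℕ} {g h : Gm} (hg : g ∈ Fi m) (hh : h ∈ Fi m) : g + h ∈ Fi m := by
  intro i j hi
  rw [Finsupp.add_apply, hg i j hi, hh i j hi, add_zero]

theorem Fi_anti {m n : ℕ} (h : m ≤ n) : Fi n ⊆ Fi m := fun _ hg i j hi =>
  hg i j (lt_of_lt_of_le hi h)

/-- The key property: a nonzero element of `B` and its translate by some element of `Γ_{≥ m}`
which moves the real number `x_m` are compatible. -/
theorem key (m : ℕ) (b : BB) (hb : b ≠ ⊥) :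
    ∃ g ∈ Fi m, (∃ j, g (m, j) ≠ 0) ∧ b ⊓ tr g b ≠ ⊥ := by
  obtain ⟨s, hs⟩ := BB.ne_bot_iff.1 hb
  have h1 : s ∈ star b.1 := by rw [b.2]; exact hs
  rw [mem_star] at h1
  obtain ⟨w, hw, w', hw', hlt, j, hj⟩ := W_split m {w | s + w ∈ b.1} h1
  refine ⟨w + w', ?_, ⟨j, ?_⟩, ?_⟩
  · intro i k hi
    rw [Finsupp.add_apply, hlt i k hi]
    exact CharTwo.add_self_eq_zero _
  · intro h0
    apply hj
    rw [Finsupp.add_apply] at h0
    exact CharTwo.add_eq_zero.1 h0
  · rw [BB.ne_bot_iff]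
    refine ⟨s + w, hw, ?_⟩
    rw [mem_tr]
    have : s + w + (w + w') = s + w' := by
      rw [add_assoc, ← add_assoc w w w', Gm.add_self, zero_add]
    rw [this]
    exact hw'

/-- `β_{n,j} = {s : (n, j) ∈ s}`, the truth value of `j ∈ x_n`. -/
def bet (n j : ℕ) : BB := ⟨{s | s (n, j) = 1}, by
  ext s
  rw [mem_star]
  have h := W_small n j
  constructor
  · intro h1
    obtain ⟨w, hw1, hw2⟩ := (h1.and h).exists
    simp only [Set.mem_ofPred_eq, Finsupp.add_apply] at hw1 hw2
    rw [hw2, add_zero] at hw1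
    exact hw1
  · intro h1
    filter_upwards [h] with w hw
    simp only [Set.mem_ofPred_eq, Finsupp.add_apply] at *
    rw [hw, add_zero, h1]⟩

theorem mem_bet {n j : ℕ} {s : Gm} : s ∈ (bet n j).1 ↔ s (n, j) = 1 := Iff.rfl

theorem tr_bet_of_zero {g : Gm} {n j : ℕ} (h : g (n, j) = 0) : tr g (bet n j) = bet n j := by
  apply Subtype.ext
  ext s
  rw [mem_tr, mem_bet, mem_bet, Finsupp.add_apply, h, add_zero]

theorem tr_bet_of_ne_zero {g : Gm} {n j : ℕ} (h : g (n, j) ≠ 0) :
    tr g (bet n j) = (bet n j)ᶜ := by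
  have h1 : g (n, j) = 1 := by
    have : ∀ x : ZMod 2, x ≠ 0 → x = 1 := by decide
    exact this _ h
  apply Subtype.ext
  ext s
  rw [mem_tr, mem_bet, BB.mem_compl, mem_bet, Finsupp.add_apply, h1]
  have : ∀ x : ZMod 2, x + 1 = 1 ↔ ¬ x = 1 := by decide
  exact this _

end BC
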