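import Pool.Agent.Work.MP_51da30_lc.HS

/-!
# MP_51da30_lc, module Ax1 (pair, union, power) : the axioms of ZF in the class of hereditarily symmetric names

Proofs. Use `HS.exists_mk` (a name with prescribed membership function, the symmetry being the
equivariance of this function under some `Fi m`), `HS.exists_inv`, `val_inv`, `val_cons_ext`.

`ax_pair`: index type `Bool`.
`ax_union`: index type `Σ i : a.Ix, (a.el i).Ix`, elements `(a.el i).el j`, values `a.bv i ⊓ (a.el i).bv j`;
`f z = ⨆ y : HS, y.memv a ⊓ z.memv y` (`HS.iSup_memv`; the functional `y ↦ memv z y` is extensional), which is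
equivariant when `a` is.
`ax_power`: `a` given, invariant under `Fi m`. Index type: all functions `t : a.Ix → BB` such that the name with
elements `a.el i` and values `t i` is symmetric (`∃ k, Inv k _`); elements: these names; values: the truth
value of its being a subset of `a`. `f z = ⨅ y : HS, y.memv z ⇨ y.memv a`. For `z : HS`, the function
`t i = (a.el i).memv z ⊓ (a.el i).memv a` is such an index (the name has membership function
`y ↦ y.memv z ⊓ y.memv a`, by `HS.iSup_memv`-like computations; equivariant), and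
`f z ≤ eqv z (that name)` by `HS.extv`.
`ax_sep`: index type `a.Ix`, elements `a.el i`, values `a.bv i ⊓ val φ (cons (a.el i) v)`; `HS.iSup_memv`, `val_inv`.
`ax_coll`: for every `i : a.Ix` and `β : BB` choose `y i β : HS` with `val φ (cons (a.el i) (cons (y i β) v)) = β`
if there is such a name, and any name otherwise. `c` = the name with index type `a.Ix × BB × Gm`, elements
`(y i β).map g` and values `⊤`; it is invariant under all of `Gm` (reindex). Then
`⨆ y, val φ (cons (a.el i) (cons y v)) ≤ ⨆ y, memv y c ⊓ val φ (cons (a.el i) (cons y v))` for every `i`; for a general `x`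
use `x.memv a = ⨆ i, a.bv i ⊓ x.eqv (a.el i)` and `val_cons_ext`.
`ax_found`: by induction on names: for every `x : Nm` with `IsHS x`,
`memv x a ≤ ⨆ z, z.memv a ⊓ ⨅ y, (y.memv z ⇨ (y.memv a)ᶜ) =: u`. Induct on `x`: it suffices that
`memv x a ⊓ uᶜ = ⊥`; `uᶜ ⊓ memv x a ≤ (⨅ y, y.memv x ⇨ (y.memv a)ᶜ)ᶜ = ⨆ y, y.memv x ⊓ y.memv a
= ⨆ i, x.bv i ⊓ memv (x.el i) a ≤ u` by the induction hypothesis.
-/

namespace BC
namespace HS

theorem iSup_map (g : Gm) (F : HS → BB) : (⨆ y : HS, F (y.map g)) = ⨆ y : HS, F y := by
  apply le_antisymm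
  · exact iSup_le fun y => le_iSup F (y.map g)
  · refine iSup_le fun y => le_iSup_of_le (y.map g) ?_
    rw [map_self]

theorem iInf_map (g : Gm) (F : HS → BB) : (⨅ y : HS, F (y.map g)) = ⨅ y : HS, F y := by
  apply le_antisymm
  · refine le_iInf fun y => iInf_le_of_le (y.map g) ?_
    rw [map_self]
  · exact le_iInf fun y => iInf_le F (y.map g)

theorem eqv_map_right {g : Gm} {a : HS} (h : eqv (a.map g) a = ⊤) (z : HS) :
    eqv (z.map g) a = tr g (eqv z a) := by
  rw [← eqv_map, eqv_symm _ a, eqv_symm _ (a.map g)]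
  exact (eqv_of_eqv_top_left h _).symm

theorem memv_map_right {g : Gm} {a : HS} (h : eqv (a.map g) a = ⊤) (z : HS) :
    memv (z.map g) a = tr g (memv z a) := by
  rw [← memv_map]
  exact (memv_of_eqv_top_right h _).symm

theorem ax_pair (a b : HS) : ∃ c : HS, ∀ x, memv x c = eqv x a ⊔ eqv x b := by
  obtain ⟨m, hm⟩ := a.exists_inv
  obtain ⟨k, hk⟩ := b.exists_inv
  refine exists_mk Bool (fun i => cond i b a) (fun _ => ⊤) (fun x => eqv x a ⊔ eqv x b) ?_
    ⟨max m k, ?_⟩
  · intro z
    rw [iSup_bool_eq]
    simp only [cond_true, cond_false, top_inf_eq]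
    exact sup_comm _ _
  · intro g hg z
    change eqv (z.map g) a ⊔ eqv (z.map g) b = tr g (eqv z a ⊔ eqv z b)
    rw [eqv_map_right (hm g (Fi_anti (le_max_left _ _) hg)),
      eqv_map_right (hk g (Fi_anti (le_max_right _ _) hg)), tr_sup]

theorem ax_union (a : HS) : ∃ c : HS, ∀ x, memv x c = ⨆ y : HS, memv y a ⊓ memv x y := by
  obtain ⟨m, hm⟩ := a.exists_inv
  refine exists_mk (Σ i : a.Ix, (a.el i).Ix) (fun p => (a.el p.1).el p.2)
    (fun p => a.bv p.1 ⊓ (a.el p.1).bv p.2) (fun x => ⨆ y : HS, memv y a ⊓ memv x y) ?_ ⟨m, ?_⟩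
  · intro z
    have hE : Ext fun y => memv z y := fun x y => memv_congr_right z x y
    change _ = ⨆ y : HS, memv y a ⊓ memv z y
    rw [iSup_memv (fun y => memv z y) hE a, iSup_sigma]
    refine iSup_congr fun i => ?_
    rw [memv_def, inf_iSup_eq]
    exact iSup_congr fun j => inf_assoc _ _ _
  · intro g hg z
    change (⨆ y : HS, memv y a ⊓ memv (z.map g) y) = tr g (⨆ y : HS, memv y a ⊓ memv z y)
    rw [tr_iSup, ← iSup_map g]
    refine iSup_congr fun y => ?_
    rw [tr_inf, memv_map, memv_map_right (hm g hg)]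

theorem ax_power (a : HS) : ∃ c : HS, ∀ x, memv x c = ⨅ y : HS, memv y x ⇨ memv y a := by
  obtain ⟨m, hm⟩ := a.exists_inv
  let I : Type := {t : a.Ix → BB // ∃ k, Inv k (.mk a.Ix (fun i => (a.el i).1) t)}
  let N : I → HS := fun t => mk a.Ix a.el t.1 t.2
  refine exists_mk I N (fun t => ⨅ y : HS, memv y (N t) ⇨ memv y a)
    (fun x => ⨅ y : HS, memv y x ⇨ memv y a) ?_ ⟨m, ?_⟩
  · intro z
    apply le_antisymm
    · refine iSup_le fun t => le_iInf fun y => ?_
      rw [le_himp_iff]
      calc (⨅ y : HS, memv y (N t) ⇨ memv y a) ⊓ eqv z (N t) ⊓ memv y z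
          ≤ (memv y (N t) ⇨ memv y a) ⊓ (eqv z (N t) ⊓ memv y z) := by
            rw [inf_assoc]
            exact inf_le_inf_right _ (iInf_le _ y)
        _ ≤ (memv y (N t) ⇨ memv y a) ⊓ memv y (N t) :=
            inf_le_inf_left _ (memv_congr_right _ _ _)
        _ ≤ memv y a := himp_inf_le
    · obtain ⟨k, hk⟩ := z.exists_inv
      have hmem : ∀ y : HS, (⨆ i, (memv (a.el i) z ⊓ memv (a.el i) a) ⊓ eqv y (a.el i)) =
          memv y z ⊓ memv y a := by
        intro y
        apply le_antisymm
        · refine iSup_le fun i => le_inf ?_ ?_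
          · calc memv (a.el i) z ⊓ memv (a.el i) a ⊓ eqv y (a.el i)
                ≤ eqv (a.el i) y ⊓ memv (a.el i) z := by
                  rw [eqv_symm y]
                  exact le_inf inf_le_right (le_trans inf_le_left inf_le_left)
              _ ≤ memv y z := memv_congr_left _ _ _
          · calc memv (a.el i) z ⊓ memv (a.el i) a ⊓ eqv y (a.el i)
                ≤ eqv (a.el i) y ⊓ memv (a.el i) a := by
                  rw [eqv_symm y]
                  exact le_inf inf_le_right (le_trans inf_le_left inf_le_right)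
              _ ≤ memv y a := memv_congr_left _ _ _
        · rw [memv_def y a, inf_iSup_eq]
          refine iSup_mono fun i => ?_
          refine le_inf (le_inf ?_ ?_) (le_trans inf_le_right inf_le_right)
          · calc memv y z ⊓ (a.bv i ⊓ eqv y (a.el i)) ≤ eqv y (a.el i) ⊓ memv y z :=
                  le_inf (le_trans inf_le_right inf_le_right) inf_le_left
              _ ≤ memv (a.el i) z := memv_congr_left _ _ _
          · exact le_trans inf_le_right (le_trans inf_le_left (bv_le_memv a i))
      have hinv : Inv (max m k) (.mk a.Ix (fun i => (a.el i).1)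
          (fun i => memv (a.el i) z ⊓ memv (a.el i) a)) := by
        refine inv_of_memv a.Ix a.el _ _ ?_
        intro g hg y
        rw [hmem, hmem, tr_inf, memv_map_right (hm g (Fi_anti (le_max_left _ _) hg)),
          memv_map_right (hk g (Fi_anti (le_max_right _ _) hg))]
      let t0 : I := ⟨fun i => memv (a.el i) z ⊓ memv (a.el i) a, max m k, hinv⟩
      have hN : ∀ y, memv y (N t0) = memv y z ⊓ memv y a := hmem
      refine le_iSup_of_le t0 (le_inf ?_ ?_)
      · refine le_iInf fun y => ?_
        rw [hN, himp_eq_top_iff.2 inf_le_right]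
        exact le_top
      · refine le_trans (le_iInf fun y => ?_) (extv z (N t0))
        rw [hN]
        refine le_inf ?_ ?_
        · refine le_trans (iInf_le _ y) ?_
          rw [le_himp_iff]
          exact le_inf inf_le_right himp_inf_le
        · rw [himp_eq_top_iff.2 inf_le_left]
          exact le_top
  · intro g hg z
    change (⨅ y : HS, memv y (z.map g) ⇨ memv y a) = tr g (⨅ y : HS, memv y z ⇨ memv y a)
    rw [tr_iInf, ← iInf_map g]
    refine iInf_congr fun y => ?_
    rw [tr_himp, memv_map, memv_map_right (hm g hg)]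

end HS
end BC
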