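import Pool.Agent.Work.MP_51da30_lc.HS

/-!
# MP_51da30_lc, module Ax2 (separation, collection, foundation) : the axioms of ZF in the class of hereditarily symmetric names

Proofs. Use `HS.exists_mk` (a name with prescribed membership function, the symmetry being the
equivariance of this function under some `Fi m`), `HS.exists_inv`, `val_inv`, `val_cons_ext`.

`ax_pair`: index type `Bool`.
`ax_union`: index type `Σ i : a.Ix, (a.el i).Ix`, elements `(a.el i).el j`, values `a.bv i ⊓ (a.el i).bv j`;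
`f z = ⨆ y : HS, y.memv a ⊓ z.memv y` (`HS.iSup_memv`; the functional `y ↦ memv z y` is extensional), which is
equivariant when `a` is.
`ax_power`: `a` given, invariant under `Fi m`. Index type: all functions `t : a.Ix → BB` such that the name with
elements `a.el i` and values `t i` is symmetric (`∃ k, Inv k _`); elements: these names; values: the truth
value of its being a subset of `a`. `f z = ⨅ y : HS, y.memv z ⇨ y.memv a`. For `z : HS`, the function
`t i = (a.el i).memv z ⊓ (a.el i).memv a` is such an index (the name has membership function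
`y ↦ y.memv z ⊓ y.memv a`, by `HS.iSup_memv`-like computations; equivariant), and
`f z ≤ eqv z (that name)` by `HS.extv`.
`ax_sep`: index type `a.Ix`, elements `a.el i`, values `a.bv i ⊓ val φ (cons (a.el i) v)`; `HS.iSup_memv`, `val_inv`.
`ax_coll`: for every `i : a.Ix` and `β : BB` choose `y i β : HS` with `val φ (cons (a.el i) (cons (y i β) v)) = β`
if there is such a name, and any name otherwise. `c` = the name with index type `a.Ix × BB × Gm`, elements
`(y i β).map g` and values `⊤`; it is invariant under all of `Gm` (reindex). Then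
`⨆ y, val φ (cons (a.el i) (cons y v)) ≤ ⨆ y, memv y c ⊓ val φ (cons (a.el i) (cons y v))` for every `i`; for a general `x`
use `x.memv a = ⨆ i, a.bv i ⊓ x.eqv (a.el i)` and `val_cons_ext`.
`ax_found`: by induction on names: for every `x : Nm` with `IsHS x`,
`memv x a ≤ ⨆ z, z.memv a ⊓ ⨅ y, (y.memv z ⇨ (y.memv a)ᶜ) =: u`. Induct on `x`: it suffices that
`memv x a ⊓ uᶜ = ⊥`; `uᶜ ⊓ memv x a ≤ (⨅ y, y.memv x ⇨ (y.memv a)ᶜ)ᶜ = ⨆ y, y.memv x ⊓ y.memv a
= ⨆ i, x.bv i ⊓ memv (x.el i) a ≤ u` by the induction hypothesis.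
-/

namespace BC
namespace HS

theorem val_cons2_ext (φ : Fml) (v : ℕ → HS) (y : HS) :
    Ext fun x => val φ (cons x (cons y v)) := val_cons_ext φ (cons y v)

theorem ax_sep (φ : Fml) (v : ℕ → HS) (a : HS) :
    ∃ c : HS, ∀ x, memv x c = memv x a ⊓ val φ (cons x v) := by
  obtain ⟨m, hm⟩ := val_inv φ v
  obtain ⟨k, hk⟩ := a.exists_inv
  refine exists_mk a.Ix a.el (fun i => a.bv i ⊓ val φ (cons (a.el i) v))
    (fun x => memv x a ⊓ val φ (cons x v)) ?_ ⟨max m k, ?_⟩
  · intro z
    have hE : Ext fun x => eqv z x ⊓ val φ (cons z v) := by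
      intro x y
      have := eqv_trans z x y
      calc eqv x y ⊓ (eqv z x ⊓ val φ (cons z v))
          = (eqv z x ⊓ eqv x y) ⊓ val φ (cons z v) := by ac_rfl
        _ ≤ eqv z y ⊓ val φ (cons z v) := inf_le_inf_right _ this
    rw [memv_def, iSup_inf_eq]
    apply le_antisymm
    · refine iSup_mono fun i => ?_
      refine le_inf (le_inf (le_trans inf_le_left inf_le_left) inf_le_right) ?_
      calc a.bv i ⊓ val φ (cons (a.el i) v) ⊓ eqv z (a.el i)
          ≤ eqv (a.el i) z ⊓ val φ (cons (a.el i) v) := by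
            rw [eqv_symm z]
            exact le_inf inf_le_right (le_trans inf_le_left inf_le_right)
        _ ≤ val φ (cons z v) := val_cons_ext φ v _ _
    · refine iSup_mono fun i => ?_
      refine le_inf (le_inf (le_trans inf_le_left inf_le_left) ?_) (le_trans inf_le_left inf_le_right)
      calc a.bv i ⊓ eqv z (a.el i) ⊓ val φ (cons z v)
          ≤ eqv z (a.el i) ⊓ val φ (cons z v) :=
            inf_le_inf_right _ inf_le_right
        _ ≤ val φ (cons (a.el i) v) := val_cons_ext φ v _ _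
  · intro g hg z
    have h1 := hm g (Fi_anti (le_max_left _ _) hg) z
    have h2 := hk g (Fi_anti (le_max_right _ _) hg)
    change memv (z.map g) a ⊓ val φ (cons (z.map g) v) = tr g (memv z a ⊓ val φ (cons z v))
    rw [h1, tr_inf, ← memv_map, memv_of_eqv_top_right h2]

theorem ax_coll (φ : Fml) (v : ℕ → HS) (a : HS) :
    ∃ c : HS, ∀ x, memv x a ⊓ (⨆ y : HS, val φ (cons x (cons y v))) ≤
      ⨆ y : HS, memv y c ⊓ val φ (cons x (cons y v)) := by
  classical
  have hch : ∀ (i : a.Ix) (β : BB), ∃ y : HS, (∃ y' : HS, val φ (cons (a.el i) (cons y' v)) = β) →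
      val φ (cons (a.el i) (cons y v)) = β := by
    intro i β
    by_cases h : ∃ y' : HS, val φ (cons (a.el i) (cons y' v)) = β
    · obtain ⟨y', hy'⟩ := h
      exact ⟨y', fun _ => hy'⟩
    · exact ⟨Classical.arbitrary HS, fun h' => absurd h' h⟩
  choose Y hY using hch
  obtain ⟨c, hc⟩ := exists_mk (a.Ix × BB × Gm) (fun t => (Y t.1 t.2.1).map t.2.2) (fun _ => ⊤)
    (fun z => ⨆ t : a.Ix × BB × Gm, ⊤ ⊓ eqv z ((Y t.1 t.2.1).map t.2.2)) (fun z => rfl)
    ⟨0, by
      intro g _ z
      change (⨆ t : a.Ix × BB × Gm, ⊤ ⊓ eqv (z.map g) ((Y t.1 t.2.1).map t.2.2)) =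
        tr g (⨆ t : a.Ix × BB × Gm, ⊤ ⊓ eqv z ((Y t.1 t.2.1).map t.2.2))
      rw [tr_iSup]
      simp only [top_inf_eq, ← eqv_map]
      apply le_antisymm
      · refine iSup_le fun t => le_iSup_of_le (t.1, t.2.1, g + t.2.2) ?_
        change _ ≤ eqv (z.map g) (((Y t.1 t.2.1).map (g + t.2.2)).map g)
        rw [map_map, ← add_assoc, Gm.add_self, zero_add]
      · refine iSup_le fun t => le_iSup_of_le (t.1, t.2.1, g + t.2.2) ?_
        change eqv (z.map g) (((Y t.1 t.2.1).map t.2.2).map g) ≤ _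
        rw [map_map]⟩
  refine ⟨c, fun x => ?_⟩
  have hbase : ∀ i : a.Ix, (⨆ y : HS, val φ (cons (a.el i) (cons y v))) ≤
      ⨆ y : HS, memv y c ⊓ val φ (cons (a.el i) (cons y v)) := by
    intro i
    refine iSup_le fun y => ?_
    refine le_iSup_of_le (Y i (val φ (cons (a.el i) (cons y v)))) ?_
    rw [hY i _ ⟨y, rfl⟩, hc]
    refine le_inf (le_iSup_of_le (i, val φ (cons (a.el i) (cons y v)), 0) ?_) le_rfl
    rw [map_zero, eqv_refl, inf_top_eq]
    exact le_top
  rw [memv_def, iSup_inf_eq]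
  refine iSup_le fun i => ?_
  have h1 : eqv x (a.el i) ⊓ (⨆ y : HS, val φ (cons x (cons y v))) ≤
      ⨆ y : HS, val φ (cons (a.el i) (cons y v)) := by
    rw [inf_iSup_eq]
    exact iSup_mono fun y => val_cons2_ext φ v y x (a.el i)
  have h2 : eqv x (a.el i) ⊓ (⨆ y : HS, memv y c ⊓ val φ (cons (a.el i) (cons y v))) ≤
      ⨆ y : HS, memv y c ⊓ val φ (cons x (cons y v)) := by
    rw [inf_iSup_eq]
    refine iSup_mono fun y => ?_
    calc eqv x (a.el i) ⊓ (memv y c ⊓ val φ (cons (a.el i) (cons y v)))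
        = memv y c ⊓ (eqv (a.el i) x ⊓ val φ (cons (a.el i) (cons y v))) := by
          rw [eqv_symm x]; ac_rfl
      _ ≤ memv y c ⊓ val φ (cons x (cons y v)) :=
          inf_le_inf_left _ (val_cons2_ext φ v y (a.el i) x)
  calc a.bv i ⊓ eqv x (a.el i) ⊓ (⨆ y : HS, val φ (cons x (cons y v)))
      ≤ eqv x (a.el i) ⊓ (eqv x (a.el i) ⊓ (⨆ y : HS, val φ (cons x (cons y v)))) :=
        le_inf (le_trans inf_le_left inf_le_right)
          (le_inf (le_trans inf_le_left inf_le_right) inf_le_right)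
    _ ≤ eqv x (a.el i) ⊓ ⨆ y : HS, val φ (cons (a.el i) (cons y v)) := inf_le_inf_left _ h1
    _ ≤ eqv x (a.el i) ⊓ ⨆ y : HS, memv y c ⊓ val φ (cons (a.el i) (cons y v)) :=
        inf_le_inf_left _ (hbase i)
    _ ≤ _ := h2

theorem ax_found (a : HS) :
    (⨆ x : HS, memv x a) ≤ ⨆ x : HS, memv x a ⊓ ⨅ y : HS, memv y x ⇨ (memv y a)ᶜ := by
  set u : BB := ⨆ x : HS, memv x a ⊓ ⨅ y : HS, memv y x ⇨ (memv y a)ᶜ with hu
  have key : ∀ (x : Nm) (hx : IsHS x), memv (⟨x, hx⟩ : HS) a ≤ u := by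
    intro x
    induction x with
    | mk ι A b ih =>
      intro hx
      set X : HS := ⟨.mk ι A b, hx⟩ with hX
      have h1 : memv X a ⊓ (⨅ y : HS, memv y X ⇨ (memv y a)ᶜ) ≤ u :=
        le_iSup (fun x : HS => memv x a ⊓ ⨅ y : HS, memv y x ⇨ (memv y a)ᶜ) X
      have h2 : (⨅ y : HS, memv y X ⇨ (memv y a)ᶜ)ᶜ ≤ u := by
        rw [compl_iInf]
        refine iSup_le fun y => ?_
        have h3 : (memv y X ⇨ (memv y a)ᶜ)ᶜ = memv y a ⊓ memv y X := by
          rw [himp_eq, ← compl_inf, compl_compl]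
        rw [h3, memv_def y X, inf_iSup_eq]
        refine iSup_le fun i => ?_
        calc memv y a ⊓ (X.bv i ⊓ eqv y (X.el i))
            ≤ eqv y (X.el i) ⊓ memv y a :=
              le_inf (le_trans inf_le_right inf_le_right) inf_le_left
          _ ≤ memv (X.el i) a := memv_congr_left _ _ _
          _ ≤ u := ih i _
      calc memv X a = memv X a ⊓ ((⨅ y : HS, memv y X ⇨ (memv y a)ᶜ) ⊔
            (⨅ y : HS, memv y X ⇨ (memv y a)ᶜ)ᶜ) := by rw [sup_compl_eq_top, inf_top_eq]
        _ = (memv X a ⊓ (⨅ y : HS, memv y X ⇨ (memv y a)ᶜ)) ⊔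
            (memv X a ⊓ (⨅ y : HS, memv y X ⇨ (memv y a)ᶜ)ᶜ) := inf_sup_left _ _ _
        _ ≤ u := sup_le h1 (le_trans inf_le_right h2)
  exact iSup_le fun x => key x.1 x.2

end HS
end BC
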