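import Pool.Agent.Work.MP_51da30_lc.Defs

/-!
# MP_51da30_lc, module BAuf : external ultrafilters on internal Boolean algebras

Proof. On `X = {x : M // E x a}` put the order `x ≤ y := App E x y r` (a partial order by `refl`,
`antisymm`, `trans`). By choice from `inf`, `sup`, `bot`, `top` it is a bounded lattice (infima and
suprema are unique by antisymmetry), distributive by `distrib`, complemented by `compl`
(`IsCompl E a r x y` says that every infimum of `x, y` is least and every supremum is largest), and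
nontrivial: so it is a (nontrivial) Boolean algebra and has an ultrafilter. Either build the Mathlib
instance and use the prime ideal theorem of Mathlib (`DistribLattice.prime_ideal_of_disjoint_filter_ideal`
or similar), or argue directly with Zorn's lemma: take a maximal proper filter `U` (upward closed,
closed under infima, containing top, not containing bottom). If `x, y` are complements and `x ∉ U`,
then by maximality there is `f ∈ U` with `f ∧ x = 0`, hence `f = f ∧ (x ∨ y) = (f ∧ x) ∨ (f ∧ y)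
= f ∧ y ≤ y` and `y ∈ U`.
-/

namespace BC

/-- nonempty proper filters of the internal Boolean algebra -/
private structure BufFilt {M : Type} (E : M → M → Prop) (a r : M) (U : Set M) : Prop where
  sub : ∀ x ∈ U, E x a
  up : ∀ x ∈ U, ∀ y, E y a → App E x y r → y ∈ U
  inf : ∀ x ∈ U, ∀ y ∈ U, ∀ z, E z a → IsInf E a r z x y → z ∈ U
  bot : ∀ x ∈ U, ¬ IsBot E a r x
  ne : ∃ x, x ∈ U

private theorem buf_top {M : Type} {E : M → M → Prop} {a r : M} (h : IsBA E a r) :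
    ∃ U, BufFilt E a r U := by
  obtain ⟨t, hta, ht⟩ := h.top
  refine ⟨{t}, ?_, ?_, ?_, ?_, ⟨t, rfl⟩⟩
  · rintro x rfl
    exact hta
  · rintro x rfl y hy hxy
    exact h.antisymm y hy x hta (ht y hy) hxy
  · rintro x rfl y rfl z hz hi
    exact h.antisymm z hz y hta hi.1.1 (hi.2 y hta (h.refl y hta) (h.refl y hta))
  · rintro x rfl hb
    obtain ⟨y, z, hy, hz, hyz⟩ := h.nontrivial
    apply hyz
    rw [h.antisymm y hy x hta (ht y hy) (hb y hy), h.antisymm z hz x hta (ht z hz) (hb z hz)]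

private theorem buf_max {M : Type} {E : M → M → Prop} {a r : M} (h : IsBA E a r) :
    ∃ U, BufFilt E a r U ∧ ∀ V, BufFilt E a r V → U ⊆ V → V ⊆ U := by
  obtain ⟨U0, hU0⟩ := buf_top h
  obtain ⟨U, _, hU⟩ := zorn_subset_nonempty {U | BufFilt E a r U} (by
    intro c hc hchain hne
    refine ⟨⋃₀ c, ⟨?_, ?_, ?_, ?_, ?_⟩, fun s hs => Set.subset_sUnion_of_mem hs⟩
    · rintro x ⟨V, hV, hx⟩
      exact (hc hV).sub x hx
    · rintro x ⟨V, hV, hx⟩ y hy hxy
      exact ⟨V, hV, (hc hV).up x hx y hy hxy⟩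
    · rintro x ⟨V, hV, hx⟩ y ⟨V', hV', hy⟩ z hz hi
      rcases hchain.total hV hV' with hle | hle
      · exact ⟨V', hV', (hc hV').inf x (hle hx) y hy z hz hi⟩
      · exact ⟨V, hV, (hc hV).inf x hx y (hle hy) z hz hi⟩
    · rintro x ⟨V, hV, hx⟩
      exact (hc hV).bot x hx
    · obtain ⟨V, hV⟩ := hne
      obtain ⟨x, hx⟩ := (hc hV).ne
      exact ⟨x, V, hV, hx⟩) U0 hU0
  exact ⟨U, hU.prop, fun V hV hUV => hU.le_of_ge hV hUV⟩

/-- the filter generated by `U` and `x` -/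
private def bufAdd {M : Type} (E : M → M → Prop) (a r : M) (U : Set M) (x : M) : Set M :=
  {z | E z a ∧ ∃ f ∈ U, ∃ m, E m a ∧ IsInf E a r m f x ∧ App E m z r}

private theorem buf_add {M : Type} {E : M → M → Prop} {a r : M} (h : IsBA E a r) {U : Set M}
    (hU : BufFilt E a r U) {x : M} (hx : E x a)
    (hn : ∀ f ∈ U, ∀ m, E m a → IsInf E a r m f x → ¬ IsBot E a r m) :
    BufFilt E a r (bufAdd E a r U x) := by
  refine ⟨fun z hz => hz.1, ?_, ?_, ?_, ?_⟩
  · rintro z ⟨hz, f, hf, m, hm, hmi, hmz⟩ y hy hzy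
    exact ⟨hy, f, hf, m, hm, hmi, h.trans m hm z hz y hy hmz hzy⟩
  · rintro z1 ⟨hz1, f1, hf1, m1, hm1, hmi1, hmz1⟩ z2 ⟨hz2, f2, hf2, m2, hm2, hmi2, hmz2⟩ w hw hi
    have hf1a := hU.sub f1 hf1
    have hf2a := hU.sub f2 hf2
    obtain ⟨f, hfa, hfi⟩ := h.inf f1 hf1a f2 hf2a
    obtain ⟨m, hma, hmi⟩ := h.inf f hfa x hx
    refine ⟨hw, f, hU.inf f1 hf1 f2 hf2 f hfa hfi, m, hma, hmi, ?_⟩
    have e1 : App E m m1 r := hmi1.2 m hma (h.trans m hma f hfa f1 hf1a hmi.1.1 hfi.1.1) hmi.1.2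
    have e2 : App E m m2 r := hmi2.2 m hma (h.trans m hma f hfa f2 hf2a hmi.1.1 hfi.1.2) hmi.1.2
    exact hi.2 m hma (h.trans m hma m1 hm1 z1 hz1 e1 hmz1) (h.trans m hma m2 hm2 z2 hz2 e2 hmz2)
  · rintro z ⟨hz, f, hf, m, hm, hmi, hmz⟩ hb
    exact hn f hf m hm hmi fun t ht => h.trans m hm z hz t ht hmz (hb t ht)
  · obtain ⟨f, hf⟩ := hU.ne
    obtain ⟨m, hma, hmi⟩ := h.inf f (hU.sub f hf) x hx
    exact ⟨x, hx, f, hf, m, hma, hmi, hmi.1.2⟩

theorem exists_ext_uf {M : Type} (E : M → M → Prop) (a r : M) (h : IsBA E a r) :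
    ∃ U : Set M, (∀ x ∈ U, E x a) ∧ (∀ x ∈ U, ∀ y, E y a → App E x y r → y ∈ U) ∧
      (∀ x ∈ U, ∀ y ∈ U, ∀ z, E z a → IsInf E a r z x y → z ∈ U) ∧
      (∀ x ∈ U, ¬ IsBot E a r x) ∧
      ∀ x, E x a → ∀ y, E y a → IsCompl E a r x y → x ∈ U ∨ y ∈ U := by
  obtain ⟨U, hU, hmax⟩ := buf_max h
  refine ⟨U, hU.sub, hU.up, hU.inf, hU.bot, fun x hx y hy hc => ?_⟩
  by_contra hcon
  push Not at hcon
  obtain ⟨hxU, hyU⟩ := hcon
  -- some `f ∈ U` is disjoint from `x`
  have h1 : ∃ f ∈ U, ∃ m, E m a ∧ IsInf E a r m f x ∧ IsBot E a r m := by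
    by_contra hno
    have hF : BufFilt E a r (bufAdd E a r U x) := buf_add h hU hx fun f hf m hm hmi hb =>
      hno ⟨f, hf, m, hm, hmi, hb⟩
    have hsub : U ⊆ bufAdd E a r U x := by
      intro f hf
      obtain ⟨m, hma, hmi⟩ := h.inf f (hU.sub f hf) x hx
      exact ⟨hU.sub f hf, f, hf, m, hma, hmi, hmi.1.1⟩
    apply hxU
    apply hmax _ hF hsub
    obtain ⟨f, hf⟩ := hU.ne
    obtain ⟨m, hma, hmi⟩ := h.inf f (hU.sub f hf) x hx
    exact ⟨hx, f, hf, m, hma, hmi, hmi.1.2⟩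
  obtain ⟨f, hf, p, hpa, hpi, hpb⟩ := h1
  have hfa := hU.sub f hf
  obtain ⟨s, hsa, hss⟩ := h.sup x hx y hy
  have hst : IsTop E a r s := hc.2 s hsa hss
  obtain ⟨q, hqa, hqi⟩ := h.inf f hfa y hy
  have hfi : IsInf E a r f f s := ⟨⟨h.refl f hfa, hst f hfa⟩, fun t _ ht _ => ht⟩
  have hsup := h.distrib f hfa x hx y hy s hsa hss f hfa hfi p hpa hpi q hqa hqi
  have hfq : App E f q r := hsup.2 q hqa (hpb q hqa) (h.refl q hqa)
  exact hyU (hU.up f hf y hy (h.trans f hfa q hqa y hy hfq hqi.1.2))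

end BC
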