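import Pool.Agent.Work.MP_51da30_lc.HS

/-!
# MP_51da30_lc, module Clo : countable elementary classes of names

Proof. `Fml` is countable (e.g. an injection into `List ℕ` or a `Countable` instance obtained from
`Encodable`, or: `Fml = ⋃ n, {φ : depth ≤ n}` by induction).
For a formula `φ` and a list `ℓ` of names let `v_ℓ n = ℓ.getD n x₀` (`x₀` any name). By `BB.ccc`
applied to the set `{val φ (cons x v_ℓ) : x : HS}` there is a countable set `Wit φ ℓ` of names with
`⨆ x ∈ Wit φ ℓ, val φ (cons x v_ℓ) = ⨆ x : HS, val φ (cons x v_ℓ)`. Put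
`C 0 = P ∪ {x₀}`, `C (n+1) = C n ∪ ⋃ φ, ⋃ ℓ ∈ {lists of elements of C n}, Wit φ ℓ` and
`C = ⋃ n, C n`; it is countable (the set of lists over a countable set is countable:
`Set.countable_setOf_finite_subset`-style lemmas, or `Countable (List ↥(C n))`). Given `φ` and
`v : ℕ → HS` with values in `C`, let `ℓ = [v 0, …, v (φ.bd - 1)]`; all of them are in some `C n`, so
`Wit φ ℓ ⊆ C (n+1) ⊆ C`; and `val φ (cons x v) = val φ (cons x v_ℓ)` by `val_bd`.
-/

namespace BC

deriving instance Countable for Fml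

private theorem wit (f : HS → BB) : ∃ W : Set HS, W.Countable ∧ (⨆ x, f x) ≤ ⨆ x ∈ W, f x := by
  classical
  obtain ⟨T, hTS, hTc, hT⟩ := BB.ccc (Set.range f)
  have h : ∀ b : T, ∃ x, f x = b.1 := fun b => hTS b.2
  choose g hg using h
  have : Countable T := hTc.to_subtype
  refine ⟨Set.range g, Set.countable_range g, ?_⟩
  have h1 : (⨆ x, f x) = sSup T := by rw [hT]; rfl
  rw [h1]
  refine sSup_le fun b hb => ?_
  have h2 : f (g ⟨b, hb⟩) = b := hg ⟨b, hb⟩
  rw [← h2]
  exact le_iSup₂_of_le (g ⟨b, hb⟩) ⟨_, rfl⟩ le_rfl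

theorem exists_closed (P : Set HS) (hP : P.Countable) :
    ∃ C : Set HS, P ⊆ C ∧ C.Countable ∧ C.Nonempty ∧
      ∀ (φ : Fml) (v : ℕ → HS), (∀ n, v n ∈ C) →
        (⨆ x : HS, val φ (cons x v)) ≤ ⨆ x : C, val φ (cons x.1 v) := by
  classical
  obtain ⟨x₀⟩ := (inferInstance : Nonempty HS)
  have hw : ∀ (φ : Fml) (l : List HS), ∃ W : Set HS, W.Countable ∧
      (⨆ x, val φ (cons x fun n => l.getD n x₀)) ≤ ⨆ x ∈ W, val φ (cons x fun n => l.getD n x₀) :=
    fun φ l => wit fun x => val φ (cons x fun n => l.getD n x₀)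
  choose W hWc hW using hw
  let F : Set HS → Set HS := fun S => S ∪ ⋃ φ : Fml, ⋃ l : List S, W φ (l.map Subtype.val)
  let D : ℕ → Set HS := fun n => F^[n] (insert x₀ P)
  have hD : ∀ n, D (n + 1) = F (D n) := fun n => Function.iterate_succ_apply' F n _
  have hDc : ∀ n, (D n).Countable := by
    intro n
    induction n with
    | zero => exact hP.insert x₀
    | succ n ih =>
      rw [hD]
      have : Countable ↥(D n) := ih.to_subtype
      have h1 : (⋃ φ : Fml, ⋃ l : List ↥(D n), W φ (l.map Subtype.val)).Countable := by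
        apply Set.countable_iUnion
        intro φ
        apply Set.countable_iUnion
        intro l
        exact hWc _ _
      exact ih.union h1
  have hmono : Monotone D := monotone_nat_of_le_succ fun n => by
    rw [hD]; exact Set.subset_union_left
  refine ⟨⋃ n, D n, ?_, Set.countable_iUnion hDc, ⟨x₀, ?_⟩, ?_⟩
  · exact fun x hx => Set.mem_iUnion.2 ⟨0, Set.mem_insert_of_mem _ hx⟩
  · exact Set.mem_iUnion.2 ⟨0, Set.mem_insert _ _⟩
  · intro φ v hv
    have hN : ∀ k : ℕ, ∃ N, ∀ n < k, v n ∈ D N := by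
      intro k
      induction k with
      | zero => exact ⟨0, fun n hn => absurd hn (Nat.not_lt_zero n)⟩
      | succ k ih =>
        obtain ⟨N, hN⟩ := ih
        obtain ⟨K, hK⟩ := Set.mem_iUnion.1 (hv k)
        refine ⟨max N K, fun n hn => ?_⟩
        rcases Nat.lt_succ_iff_lt_or_eq.1 hn with h1 | h1
        · exact hmono (le_max_left _ _) (hN n h1)
        · subst h1
          exact hmono (le_max_right _ _) hK
    obtain ⟨N, hN⟩ := hN φ.bd
    let l : List ↥(D N) := List.ofFn fun i : Fin φ.bd => (⟨v i, hN i i.2⟩ : ↥(D N))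
    have hl : ∀ n < φ.bd, (l.map Subtype.val).getD n x₀ = v n := by
      intro n hn
      rw [List.getD_eq_getElem _ _ (by simpa [l] using hn)]
      simp [l]
    have hval : ∀ x, val φ (cons x fun n => (l.map Subtype.val).getD n x₀) = val φ (cons x v) :=
      fun x => val_bd φ _ _ (cons_agree hl)
    have h1 := hW φ (l.map Subtype.val)
    simp only [hval] at h1
    refine h1.trans (iSup₂_le fun x hx => ?_)
    have hx' : x ∈ ⋃ n, D n := by
      refine Set.mem_iUnion.2 ⟨N + 1, ?_⟩
      rw [hD]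
      exact Or.inr (Set.mem_iUnion.2 ⟨φ, Set.mem_iUnion.2 ⟨l, hx⟩⟩)
    exact le_iSup (fun y : (⋃ n, D n : Set HS) => val φ (cons y.1 v)) ⟨x, hx'⟩

end BC
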