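import Pool.Agent.Work.MP_51da30_lc.Reals

/-!
# MP_51da30_lc, module CtbA : every `A_n` is countable

Proof. Choose `cd : Gm → ℕ` with `cd g = cd h ↔ ∀ j, g (n, j) = h (n, j)` (the functions `j ↦ g (n, j)`,
`g : Gm`, form a countable set, being the image of the countable type `Gm`; e.g. quotient of `Gm`, or its range
as a subset of `ℕ → ZMod 2`). Let `f` be the name with elements `opr ((rl n).map g) (num (cd g))`, `g : Gm`, and
all truth values `⊤`. Symmetric under `Fi (n+1)`: for `h ∈ Fi (n+1)`, `cd (h + g) = cd g`; use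
`HS.inv_of_memv`, `map_opr`, `map_num`, `HS.map_map` and reindexing `g ↦ h + g`.
By `vApp_eq`, `eqv_opr`: `vApp x y f = ⨆ g, eqv x ((rl n).map g) ⊓ eqv y (num (cd g))`.
`vInj f (cls n) omega = ⊤`: (dom) for `x` with value `memv x (cls n) = ⨆ g, eqv x ((rl n).map g)` take
`y = num (cd g)`; (fn) the value of `vApp x y f ⊓ vApp x y' f` is the supremum over `g, g'` of
`eqv x ((rl n).map g) ⊓ eqv y (num (cd g)) ⊓ eqv x ((rl n).map g') ⊓ eqv y' (num (cd g'))`; it is `⊥` if
`g`, `g'` differ somewhere on the column `n` (`eqv_rl`), and otherwise `cd g = cd g'`, so it is `≤ eqv y y'`;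
(inj) the same with `eqv_num`: nonzero only if `cd g = cd g'`, hence `(rl n).map g = (rl n).map g'`
(`map_rl_congr`). Finally take `w = omega` in `vCountable` (`vOmega_omega`).
-/

namespace BC

private theorem ctb_cd (n : ℕ) :
    ∃ cd : Gm → ℕ, ∀ g h, cd g = cd h ↔ ∀ j, g (n, j) = h (n, j) := by
  have hc : (Set.range fun g : Gm => fun j : ℕ => g (n, j)).Countable := Set.countable_range _
  obtain ⟨f, hf⟩ := Set.countable_iff_exists_injOn.1 hc
  refine ⟨fun g => f fun j => g (n, j), fun g h => ⟨fun e j => ?_, fun e => ?_⟩⟩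
  · exact congrFun (hf ⟨g, rfl⟩ ⟨h, rfl⟩ e) j
  · exact congrArg f (funext e)

private theorem ctb_tr (x y z : HS) : x.eqv z ⊓ y.eqv z ≤ x.eqv y := by
  rw [HS.eqv_symm y z]
  exact HS.eqv_trans x z y

private theorem ctb_tr' (x y z : HS) : x.eqv y ⊓ x.eqv z ≤ y.eqv z := by
  rw [HS.eqv_symm x y]
  exact HS.eqv_trans y x z

theorem vCountable_cls (n : ℕ) : vCountable (HS.cls n) = ⊤ := by
  obtain ⟨cd, hcd⟩ := ctb_cd n
  obtain ⟨F, hF⟩ : ∃ F : HS, ∀ z : HS, HS.memv z F =
      ⨆ g : Gm, HS.eqv z (HS.opr ((HS.rl n).map g) (HS.num (cd g))) := by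
    have hinv : Inv (n + 1) (.mk Gm (fun g => (HS.opr ((HS.rl n).map g) (HS.num (cd g))).1)
        (fun _ => ⊤)) := by
      refine HS.inv_of_memv Gm _ _ (n + 1) ?_
      intro h hh z
      simp only [top_inf_eq]
      rw [tr_iSup]
      apply le_antisymm
      · refine iSup_le fun g => le_iSup_of_le (h + g) ?_
        have e1 : cd (h + g) = cd g := (hcd _ _).2 fun j => by
          rw [Finsupp.add_apply, hh n j (Nat.lt_succ_self n), zero_add]
        have e2 : HS.opr ((HS.rl n).map g) (HS.num (cd g)) =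
            (HS.opr ((HS.rl n).map (h + g)) (HS.num (cd (h + g)))).map h := by
          rw [HS.map_opr, HS.map_map, HS.map_num, e1, ← add_assoc, Gm.add_self, zero_add]
        rw [e2, HS.eqv_map]
      · refine iSup_le fun g => le_iSup_of_le (h + g) ?_
        have e1 : cd (h + g) = cd g := (hcd _ _).2 fun j => by
          rw [Finsupp.add_apply, hh n j (Nat.lt_succ_self n), zero_add]
        have e2 : HS.opr ((HS.rl n).map (h + g)) (HS.num (cd (h + g))) =
            (HS.opr ((HS.rl n).map g) (HS.num (cd g))).map h := by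
          rw [HS.map_opr, HS.map_map, HS.map_num, e1]
        rw [e2, HS.eqv_map]
    refine ⟨HS.mk Gm (fun g => HS.opr ((HS.rl n).map g) (HS.num (cd g))) (fun _ => ⊤)
      ⟨n + 1, hinv⟩, fun z => ?_⟩
    rw [HS.memv_mk]
    simp only [top_inf_eq]
  have hApp : ∀ x y : HS, vApp x y F =
      ⨆ g : Gm, x.eqv ((HS.rl n).map g) ⊓ y.eqv (HS.num (cd g)) := by
    intro x y
    rw [vApp_eq, hF]
    simp only [HS.eqv_opr]
  have hInj : vInj F (HS.cls n) HS.omega = ⊤ := by
    rw [eq_top_iff]
    unfold vInj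
    refine le_inf (le_iInf fun x => ?_) (le_inf ?_ ?_)
    · rw [le_himp_iff, top_inf_eq, HS.memv_cls]
      refine iSup_le fun g => le_iSup_of_le (HS.num (cd g)) (le_inf ?_ ?_)
      · rw [HS.memv_omega]
        refine le_iSup_of_le (cd g) ?_
        rw [HS.eqv_refl]
        exact le_top
      · rw [hApp]
        refine le_iSup_of_le g ?_
        rw [HS.eqv_refl, inf_top_eq]
    · refine le_iInf fun x => le_iInf fun y => le_iInf fun y' => ?_
      rw [le_himp_iff, le_himp_iff, top_inf_eq, hApp, hApp, iSup_inf_eq]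
      refine iSup_le fun g => ?_
      rw [inf_iSup_eq]
      refine iSup_le fun g' => ?_
      by_cases H : ∀ j, g (n, j) = g' (n, j)
      · rw [(hcd g g').2 H]
        exact le_trans (inf_le_inf inf_le_right inf_le_right) (ctb_tr y y' _)
      · push Not at H
        refine le_trans (le_trans (inf_le_inf inf_le_left inf_le_left) (ctb_tr' x _ _)) ?_
        rw [HS.eqv_rl H]
        exact bot_le
    · refine le_iInf fun x => le_iInf fun x' => le_iInf fun y => ?_
      rw [le_himp_iff, le_himp_iff, top_inf_eq, hApp, hApp, iSup_inf_eq]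
      refine iSup_le fun g => ?_
      rw [inf_iSup_eq]
      refine iSup_le fun g' => ?_
      by_cases H : cd g = cd g'
      · rw [HS.map_rl_congr ((hcd g g').1 H)]
        exact le_trans (inf_le_inf inf_le_left inf_le_left) (ctb_tr x x' _)
      · refine le_trans (le_trans (inf_le_inf inf_le_right inf_le_right) (ctb_tr' y _ _)) ?_
        rw [HS.eqv_num H]
        exact bot_le
  rw [eq_top_iff]
  unfold vCountable
  refine le_iSup_of_le HS.omega (le_iSup_of_le F ?_)
  rw [vOmega_omega, hInj, top_inf_eq]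

end BC
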