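import Mathlib

/-!
# MP_51da30_lc : definitions used in the statement

Formulas of the language of set theory, satisfaction in a structure `(M, E)`, models of ZF, and
the two choice principles BPI and CUC in a structure `(M, E)`.
-/

namespace BC

universe u

/-! ## Formulas and satisfaction -/

/-- Formulas of the language `{∈, =}` of set theory, with de Bruijn indices: in `all φ` and
`ex φ` the bound variable is the variable `0` of `φ`, and the variable `n + 1` of `φ` is the
variable `n` outside. -/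
inductive Fml : Type
  | mem (i j : ℕ) : Fml
  | eq (i j : ℕ) : Fml
  | neg (φ : Fml) : Fml
  | and (φ ψ : Fml) : Fml
  | or (φ ψ : Fml) : Fml
  | imp (φ ψ : Fml) : Fml
  | all (φ : Fml) : Fml
  | ex (φ : Fml) : Fml

/-- `cons x v` is the assignment `x, v 0, v 1, …`. -/
def cons {M : Type u} (x : M) (v : ℕ → M) : ℕ → M
  | 0 => x
  | n + 1 => v n

/-- Satisfaction of a formula in the structure `(M, E)` (`E x y` means `x ∈ y`). -/
def Sat {M : Type u} (E : M → M → Prop) : Fml → (ℕ → M) → Prop
  | .mem i j, v => E (v i) (v j)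
  | .eq i j, v => v i = v j
  | .neg φ, v => ¬ Sat E φ v
  | .and φ ψ, v => Sat E φ v ∧ Sat E ψ v
  | .or φ ψ, v => Sat E φ v ∨ Sat E ψ v
  | .imp φ ψ, v => Sat E φ v → Sat E ψ v
  | .all φ, v => ∀ x, Sat E φ (cons x v)
  | .ex φ, v => ∃ x, Sat E φ (cons x v)

/-- `(M, E)` is a model of ZF. -/
structure IsZF {M : Type u} (E : M → M → Prop) : Prop where
  nonempty : Nonempty M
  ext : ∀ a b : M, (∀ x, E x a ↔ E x b) → a = b
  found : ∀ a : M, (∃ x, E x a) → ∃ x, E x a ∧ ∀ y, E y x → ¬ E y a
  pair : ∀ a b : M, ∃ c, ∀ x, E x c ↔ (x = a ∨ x = b)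
  union : ∀ a : M, ∃ c, ∀ x, E x c ↔ ∃ y, E y a ∧ E x y
  power : ∀ a : M, ∃ c, ∀ x, E x c ↔ ∀ y, E y x → E y a
  infinity : ∃ c : M, (∃ x, E x c ∧ ∀ y, ¬ E y x) ∧
    ∀ x, E x c → ∃ y, E y c ∧ ∀ z, E z y ↔ (E z x ∨ z = x)
  sep : ∀ (φ : Fml) (v : ℕ → M) (a : M), ∃ c, ∀ x, E x c ↔ (E x a ∧ Sat E φ (cons x v))
  repl : ∀ (φ : Fml) (v : ℕ → M) (a : M),
    (∀ x, E x a → ∃! y, Sat E φ (cons x (cons y v))) →
      ∃ c, ∀ y, E y c ↔ ∃ x, E x a ∧ Sat E φ (cons x (cons y v))

section
variable {M : Type u} (E : M → M → Prop)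

/-- `z` is the ordered pair `{{a}, {a, b}}`. -/
def IsOPair (z a b : M) : Prop :=
  ∃ c d, (∀ x, E x c ↔ x = a) ∧ (∀ x, E x d ↔ (x = a ∨ x = b)) ∧ ∀ x, E x z ↔ (x = c ∨ x = d)

/-- The ordered pair of `a` and `b` belongs to `f`. -/
def App (a b f : M) : Prop := ∃ z, IsOPair E z a b ∧ E z f

/-! ## Boolean algebras

A Boolean algebra is coded by its underlying set `a` and its order, a set `r` of ordered pairs. -/

/-- `z` is the meet of `x` and `y`. -/
def IsInf (a r z x y : M) : Prop :=
  (App E z x r ∧ App E z y r) ∧ ∀ t, E t a → App E t x r → App E t y r → App E t z r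

/-- `z` is the join of `x` and `y`. -/
def IsSup (a r z x y : M) : Prop :=
  (App E x z r ∧ App E y z r) ∧ ∀ t, E t a → App E x t r → App E y t r → App E z t r

/-- `x` is the least element. -/
def IsBot (a r x : M) : Prop := ∀ t, E t a → App E x t r

/-- `x` is the largest element. -/
def IsTop (a r x : M) : Prop := ∀ t, E t a → App E t x r

/-- `x` and `y` are complements of each other: `x ∧ y = 0` and `x ∨ y = 1`. -/
def IsCompl (a r x y : M) : Prop :=
  (∀ z, E z a → IsInf E a r z x y → IsBot E a r z) ∧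
    ∀ z, E z a → IsSup E a r z x y → IsTop E a r z

/-- The set `a`, with the order given by the set of pairs `r`, is a Boolean algebra with
`0 ≠ 1`: a bounded complemented distributive lattice with at least two elements. -/
structure IsBA (a r : M) : Prop where
  refl : ∀ x, E x a → App E x x r
  antisymm : ∀ x, E x a → ∀ y, E y a → App E x y r → App E y x r → x = y
  trans : ∀ x, E x a → ∀ y, E y a → ∀ z, E z a → App E x y r → App E y z r → App E x z r
  inf : ∀ x, E x a → ∀ y, E y a → ∃ z, E z a ∧ IsInf E a r z x y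
  sup : ∀ x, E x a → ∀ y, E y a → ∃ z, E z a ∧ IsSup E a r z x y
  bot : ∃ x, E x a ∧ IsBot E a r x
  top : ∃ x, E x a ∧ IsTop E a r x
  compl : ∀ x, E x a → ∃ y, E y a ∧ IsCompl E a r x y
  distrib : ∀ x, E x a → ∀ y, E y a → ∀ z, E z a →
    ∀ s, E s a → IsSup E a r s y z → ∀ m, E m a → IsInf E a r m x s →
      ∀ p, E p a → IsInf E a r p x y → ∀ q, E q a → IsInf E a r q x z →
        IsSup E a r m p q
  nontrivial : ∃ x y, E x a ∧ E y a ∧ x ≠ y

/-- `u` is an ultrafilter on the Boolean algebra `(a, r)`: a set of elements of `a`, closed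
upwards and under meets, not containing `0`, and containing at least one of `x`, `y` whenever
these are complements of each other. -/
structure IsUF (a r u : M) : Prop where
  sub : ∀ x, E x u → E x a
  up : ∀ x, E x u → ∀ y, E y a → App E x y r → E y u
  inf : ∀ x, E x u → ∀ y, E y u → ∀ z, E z a → IsInf E a r z x y → E z u
  bot : ∀ x, E x u → ¬ IsBot E a r x
  ultra : ∀ x, E x a → ∀ y, E y a → IsCompl E a r x y → E x u ∨ E y u

/-- The Boolean prime ideal theorem: every Boolean algebra with `0 ≠ 1` has an ultrafilter. -/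
def BPI : Prop := ∀ a r, IsBA E a r → ∃ u, IsUF E a r u

/-! ## Countable unions of countable sets -/

/-- `y = x ∪ {x}` -/
def IsSucc (y x : M) : Prop := ∀ z, E z y ↔ (E z x ∨ z = x)

/-- `u` contains the empty set and is closed under `x ↦ x ∪ {x}`. -/
def IsInductive (u : M) : Prop :=
  (∀ x, (∀ y, ¬ E y x) → E x u) ∧ ∀ x, E x u → ∀ y, IsSucc E y x → E y u

/-- `w` is `ω`, the least inductive set. -/
def IsOmega (w : M) : Prop := IsInductive E w ∧ ∀ u, IsInductive E u → ∀ x, E x w → E x u

/-- The pairs `(x, y)` in `f` form a one-to-one mapping, defined on a set containing `a`,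
which maps `a` into `b`. -/
structure IsInj (f a b : M) : Prop where
  dom : ∀ x, E x a → ∃ y, E y b ∧ App E x y f
  fn : ∀ x y y', App E x y f → App E x y' f → y = y'
  inj : ∀ x x' y, App E x y f → App E x' y f → x = x'

/-- `a` is countable: there is a one-to-one mapping of `a` into `ω`. -/
def IsCountable (a : M) : Prop := ∃ w f, IsOmega E w ∧ IsInj E f a w

/-- The countable union condition: if `g` is a function on `ω` (`g = (A_n : n ∈ ω)`, a set
of pairs), all values of which are countable, then the union `u` of all its values is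
countable. -/
def CUC : Prop := ∀ w g u, IsOmega E w →
  (∀ n, E n w → ∃! A, App E n A g) → (∀ n, E n w → ∀ A, App E n A g → IsCountable E A) →
    (∀ x, E x u ↔ ∃ n A, E n w ∧ App E n A g ∧ E x A) → IsCountable E u

end

end BC
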