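import Pool.Agent.Work.MP_51da30_lc.PointUF

/-!
# MP_51da30_lc, module EquivUF : an equivariant family of ultrafilters at points

Proof. Say that `s ~ t` if `s + t ∈ Fi m` (equivalently `t = s + g` for some `g ∈ Fi m`): an
equivalence relation on `Gm` by `Fi_zero`, `Fi_add`, `Gm.add_self`. `(vBA a r).1` is a union of
classes: `vBA_map'` and `mem_tr`. Let `rep s` be a representative of the class of `s`
(`Quotient.out`), and `g s = s + rep s ∈ Fi m`, so that `rep s + g s = s`. For every representative `t`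
with `t ∈ (vBA a r).1` choose `e₀ t` with `PtUF a r X t (e₀ t)` (`exists_ptUF`), and for
`s ∈ (vBA a r).1` put `e s = {k | act (g s) k ∈ e₀ (rep s)}`, and `e s = ∅` for `s ∉ (vBA a r).1`.
Since `X (act g k) = (X k).map g`, for `g ∈ Fi m`:
`s ∈ ((X k).memv a).1 ↔ s + g ∈ ((X (act g k)).memv a).1`, because `((X k).map g).memv a` has the value
`((X k).map g).memv (a.map g) = tr g ((X k).memv a)` (`ha`, `HS.memv_of_eqv_top_right`,
`HS.memv_map`), and `s + g ∈ (tr g b).1 ↔ s + g + g ∈ b.1 ↔ s ∈ b.1`; similarly for the other relations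
(`HS.eqv_map`, `vApp_map'`, `vInf_map'`, `vBot_map'`, `vCompl_map'`). Hence `PtUF a r X s (e s)`
follows from `PtUF a r X (rep s) (e₀ (rep s))`: for the universally quantified index `l`, apply the
property at `rep s` to `act (g s) l`. Equivariance: `rep (s + h) = rep s` for `h ∈ Fi m`,
`g (s + h) = g s + h`, `act (g s + h) (act h k) = act (g s) k`.
-/

namespace BC

private theorem eu_add (s g : Gm) (b : BB) : s + g ∈ (tr g b).1 ↔ s ∈ b.1 := by
  rw [mem_tr, add_assoc, Gm.add_self, add_zero]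

/-- transport of an ultrafilter at `s + g` to `s` -/
private theorem eu_transport (a r : HS) {K : Type} (X : K → HS) (act : Gm → K → K)
    (hX : ∀ g k, X (act g k) = (X k).map g) (g s : Gm)
    (ha : HS.eqv (a.map g) a = ⊤) (hr : HS.eqv (r.map g) r = ⊤) {e : Set K}
    (he : PtUF a r X (s + g) e) : PtUF a r X s {k | act g k ∈ e} := by
  have tmem : ∀ k, s + g ∈ (HS.memv (X (act g k)) a).1 ↔ s ∈ (HS.memv (X k) a).1 := by
    intro k
    rw [hX, ← HS.memv_of_eqv_top_right ha, HS.memv_map]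
    exact eu_add s g _
  refine ⟨fun k hk => ?_, fun k hk l hl => ?_, fun k hk l hl hkl => ?_,
    fun k hk l hl j hj hjkl => ?_, fun k hk hb => ?_, fun k l hk hl hkl => ?_⟩
  · exact (tmem k).1 (he.sub _ hk)
  · refine he.eq _ hk _ ?_
    rw [hX, hX, HS.eqv_map]
    exact (eu_add s g _).2 hl
  · refine he.up _ hk _ ((tmem l).2 hl) ?_
    rw [hX, hX, vApp_map' hr]
    exact (eu_add s g _).2 hkl
  · refine he.inf _ hk _ hl _ ((tmem j).2 hj) ?_
    rw [hX, hX, hX, vInf_map' ha hr]
    exact (eu_add s g _).2 hjkl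
  · refine he.bot _ hk ?_
    rw [hX, vBot_map' ha hr]
    exact (eu_add s g _).2 hb
  · refine he.ultra _ _ ((tmem k).2 hk) ((tmem l).2 hl) ?_
    rw [hX, hX, vCompl_map' ha hr]
    exact (eu_add s g _).2 hkl

/-- the equivalence relation `s + t ∈ Fi m` -/
private def euSet (m : ℕ) : Setoid Gm where
  r s t := s + t ∈ Fi m
  iseqv := by
    refine ⟨fun s => ?_, fun {s t} h => ?_, fun {s t u} h h' => ?_⟩
    · rw [Gm.add_self]
      exact Fi_zero m
    · rw [add_comm]
      exact h
    · have h1 : s + u = (s + t) + (t + u) := by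
        rw [add_assoc, ← add_assoc t t u, Gm.add_self, zero_add]
      rw [h1]
      exact Fi_add h h'

theorem exists_equivUF (a r : HS) {K : Type} (X : K → HS) (act : Gm → K → K)
    (hX : ∀ g k, X (act g k) = (X k).map g) (hact : ∀ g h k, act g (act h k) = act (g + h) k)
    (hact0 : ∀ k, act 0 k = k) (m : ℕ)
    (ha : ∀ g ∈ Fi m, HS.eqv (a.map g) a = ⊤) (hr : ∀ g ∈ Fi m, HS.eqv (r.map g) r = ⊤) :
    ∃ e : Gm → Set K, (∀ s, s ∈ (vBA a r).1 → PtUF a r X s (e s)) ∧
      (∀ s, s ∉ (vBA a r).1 → e s = ∅) ∧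
      ∀ g ∈ Fi m, ∀ s k, act g k ∈ e (s + g) ↔ k ∈ e s := by
  classical
  -- representatives
  obtain ⟨rep, hrep, hrep2⟩ : ∃ rep : Gm → Gm, (∀ s, s + rep s ∈ Fi m) ∧
      ∀ s, ∀ g ∈ Fi m, rep (s + g) = rep s := by
    refine ⟨fun s => (Quotient.mk (euSet m) s).out, fun s => ?_, fun s g hg => ?_⟩
    · exact (euSet m).symm (Quotient.mk_out (s := euSet m) s)
    · have h1 : Quotient.mk (euSet m) (s + g) = Quotient.mk (euSet m) s := by
        apply Quotient.sound
        show s + g + s ∈ Fi m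
        have h2 : s + g + s = g := by
          rw [add_comm s g, add_assoc, Gm.add_self, add_zero]
        rw [h2]
        exact hg
      show (Quotient.mk (euSet m) (s + g)).out = (Quotient.mk (euSet m) s).out
      rw [h1]
  have hback : ∀ s, s + (s + rep s) = rep s := fun s => by
    rw [← add_assoc, Gm.add_self, zero_add]
  have hBA : ∀ g ∈ Fi m, ∀ s, s + g ∈ (vBA a r).1 ↔ s ∈ (vBA a r).1 := by
    intro g hg s
    have h1 := eu_add s g (vBA a r)
    rwa [vBA_map' (ha g hg) (hr g hg)] at h1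
  -- ultrafilters at the representatives
  obtain ⟨e0, he0⟩ : ∃ e0 : Gm → Set K, ∀ t, t ∈ (vBA a r).1 → PtUF a r X t (e0 t) := by
    refine ⟨fun t => if h : t ∈ (vBA a r).1 then (exists_ptUF a r X t h).choose else ∅,
      fun t ht => ?_⟩
    show PtUF a r X t (if h : t ∈ (vBA a r).1 then (exists_ptUF a r X t h).choose else ∅)
    rw [dif_pos ht]
    exact (exists_ptUF a r X t ht).choose_spec
  refine ⟨fun s => if s ∈ (vBA a r).1 then {k | act (s + rep s) k ∈ e0 (rep s)} else ∅,
    fun s hs => ?_, fun s hs => ?_, fun g hg s k => ?_⟩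
  · show PtUF a r X s (if s ∈ (vBA a r).1 then {k | act (s + rep s) k ∈ e0 (rep s)} else ∅)
    rw [if_pos hs]
    refine eu_transport a r X act hX (s + rep s) s (ha _ (hrep s)) (hr _ (hrep s)) ?_
    rw [hback]
    refine he0 _ ?_
    rw [← hback s, hBA _ (hrep s)]
    exact hs
  · show (if s ∈ (vBA a r).1 then {k | act (s + rep s) k ∈ e0 (rep s)} else ∅) = ∅
    rw [if_neg hs]
  · show act g k ∈ (if s + g ∈ (vBA a r).1 then
        {k | act (s + g + rep (s + g)) k ∈ e0 (rep (s + g))} else ∅) ↔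
      k ∈ (if s ∈ (vBA a r).1 then {k | act (s + rep s) k ∈ e0 (rep s)} else ∅)
    by_cases hs : s ∈ (vBA a r).1
    · rw [if_pos hs, if_pos ((hBA g hg s).2 hs)]
      show act (s + g + rep (s + g)) (act g k) ∈ e0 (rep (s + g)) ↔
        act (s + rep s) k ∈ e0 (rep s)
      have h1 : s + g + rep s + g = s + rep s := by
        rw [add_right_comm s g, add_assoc, Gm.add_self, add_zero]
      rw [hact, hrep2 s g hg, h1]
    · rw [if_neg hs, if_neg (fun h => hs ((hBA g hg s).1 h))]
      exact Iff.rfl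

end BC
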