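import Pool.Agent.Work.MP_51da30_lc.Names

/-!
# MP_51da30_lc, file Eqv : basic properties of `eqv` and `memv`
-/

namespace BC

theorem eqv_mk {ι κ : Type} (A : ι → Nm) (b : ι → BB) (C : κ → Nm) (d : κ → BB) :
    eqv (.mk ι A b) (.mk κ C d) =
      (⨅ i, b i ⇨ ⨆ j, d j ⊓ eqv (A i) (C j)) ⊓ (⨅ j, d j ⇨ ⨆ i, b i ⊓ eqv (A i) (C j)) := by
  rw [eqv]

theorem memv_mk {κ : Type} (x : Nm) (C : κ → Nm) (d : κ → BB) :
    memv x (.mk κ C d) = ⨆ j, d j ⊓ eqv x (C j) := rfl

theorem eqv_symm (x y : Nm) : eqv x y = eqv y x := by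
  induction x generalizing y with
  | mk ι A b ih =>
    cases y with
    | mk κ C d =>
      rw [eqv_mk, eqv_mk, inf_comm]
      simp only [ih]

theorem eqv_refl (x : Nm) : eqv x x = ⊤ := by
  induction x with
  | mk ι A b ih =>
    rw [eqv_mk, eq_top_iff]
    refine le_inf (le_iInf fun i => ?_) (le_iInf fun i => ?_)
    · rw [le_himp_iff, top_inf_eq]
      refine le_iSup_of_le i ?_
      rw [ih, inf_top_eq]
    · rw [le_himp_iff, top_inf_eq]
      refine le_iSup_of_le i ?_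
      rw [ih, inf_top_eq]

/-- `x = y` in terms of membership. -/
theorem eqv_def (x y : Nm) : eqv x y =
    (⨅ i : x.Ix, x.bv i ⇨ memv (x.el i) y) ⊓ (⨅ j : y.Ix, y.bv j ⇨ memv (y.el j) x) := by
  cases x with
  | mk ι A b =>
    cases y with
    | mk κ C d =>
      rw [eqv_mk]
      simp only [Nm.bv, Nm.el, memv_mk, Nm.Ix]
      congr 1
      simp only [eqv_symm (C _) (A _)]

theorem bv_le_memv (y : Nm) (j : y.Ix) : y.bv j ≤ memv (y.el j) y := by
  refine le_iSup_of_le j ?_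
  rw [eqv_refl, inf_top_eq]

theorem eqv_inf_bv_le {x y : Nm} (i : x.Ix) : eqv x y ⊓ x.bv i ≤ memv (x.el i) y := by
  rw [eqv_def, ← le_himp_iff]
  exact le_trans inf_le_left (iInf_le _ i)

theorem eqv_trans (x y z : Nm) : eqv x y ⊓ eqv y z ≤ eqv x z := by
  induction x generalizing y z with
  | mk ι A b ih =>
    cases y with
    | mk κ C d =>
      cases z with
      | mk μ D e =>
        rw [eqv_mk A b D e]
        refine le_inf (le_iInf fun i => ?_) (le_iInf fun k => ?_)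
        · rw [le_himp_iff]
          have h1 : eqv (.mk ι A b) (.mk κ C d) ⊓ b i ≤ ⨆ j, d j ⊓ eqv (A i) (C j) := by
            rw [eqv_mk, ← le_himp_iff]
            exact le_trans inf_le_left (iInf_le _ i)
          have h2 : ∀ j, eqv (.mk κ C d) (.mk μ D e) ⊓ d j ≤ ⨆ k, e k ⊓ eqv (C j) (D k) := by
            intro j
            rw [eqv_mk, ← le_himp_iff]
            exact le_trans inf_le_left (iInf_le _ j)
          calc (eqv (.mk ι A b) (.mk κ C d) ⊓ eqv (.mk κ C d) (.mk μ D e)) ⊓ b i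
              = (eqv (.mk ι A b) (.mk κ C d) ⊓ b i) ⊓ eqv (.mk κ C d) (.mk μ D e) := by
                ac_rfl
            _ ≤ (⨆ j, d j ⊓ eqv (A i) (C j)) ⊓ eqv (.mk κ C d) (.mk μ D e) :=
                inf_le_inf_right _ h1
            _ = ⨆ j, (d j ⊓ eqv (A i) (C j)) ⊓ eqv (.mk κ C d) (.mk μ D e) := iSup_inf_eq _ _
            _ ≤ ⨆ k, e k ⊓ eqv (A i) (D k) := by
                refine iSup_le fun j => ?_
                calc (d j ⊓ eqv (A i) (C j)) ⊓ eqv (.mk κ C d) (.mk μ D e)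
                    = eqv (A i) (C j) ⊓ (eqv (.mk κ C d) (.mk μ D e) ⊓ d j) := by ac_rfl
                  _ ≤ eqv (A i) (C j) ⊓ ⨆ k, e k ⊓ eqv (C j) (D k) := inf_le_inf_left _ (h2 j)
                  _ = ⨆ k, eqv (A i) (C j) ⊓ (e k ⊓ eqv (C j) (D k)) := inf_iSup_eq _ _
                  _ ≤ ⨆ k, e k ⊓ eqv (A i) (D k) := by
                      refine iSup_mono fun k => ?_
                      calc eqv (A i) (C j) ⊓ (e k ⊓ eqv (C j) (D k))
                          = e k ⊓ (eqv (A i) (C j) ⊓ eqv (C j) (D k)) := by ac_rfl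
                        _ ≤ e k ⊓ eqv (A i) (D k) := inf_le_inf_left _ (ih i _ _)
        · rw [le_himp_iff]
          have h1 : eqv (.mk κ C d) (.mk μ D e) ⊓ e k ≤ ⨆ j, d j ⊓ eqv (C j) (D k) := by
            rw [eqv_mk, ← le_himp_iff]
            exact le_trans inf_le_right (iInf_le _ k)
          have h2 : ∀ j, eqv (.mk ι A b) (.mk κ C d) ⊓ d j ≤ ⨆ i, b i ⊓ eqv (A i) (C j) := by
            intro j
            rw [eqv_mk, ← le_himp_iff]
            exact le_trans inf_le_right (iInf_le _ j)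
          calc (eqv (.mk ι A b) (.mk κ C d) ⊓ eqv (.mk κ C d) (.mk μ D e)) ⊓ e k
              = (eqv (.mk κ C d) (.mk μ D e) ⊓ e k) ⊓ eqv (.mk ι A b) (.mk κ C d) := by
                ac_rfl
            _ ≤ (⨆ j, d j ⊓ eqv (C j) (D k)) ⊓ eqv (.mk ι A b) (.mk κ C d) :=
                inf_le_inf_right _ h1
            _ = ⨆ j, (d j ⊓ eqv (C j) (D k)) ⊓ eqv (.mk ι A b) (.mk κ C d) := iSup_inf_eq _ _
            _ ≤ ⨆ i, b i ⊓ eqv (A i) (D k) := by
                refine iSup_le fun j => ?_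
                calc (d j ⊓ eqv (C j) (D k)) ⊓ eqv (.mk ι A b) (.mk κ C d)
                    = eqv (C j) (D k) ⊓ (eqv (.mk ι A b) (.mk κ C d) ⊓ d j) := by ac_rfl
                  _ ≤ eqv (C j) (D k) ⊓ ⨆ i, b i ⊓ eqv (A i) (C j) := inf_le_inf_left _ (h2 j)
                  _ = ⨆ i, eqv (C j) (D k) ⊓ (b i ⊓ eqv (A i) (C j)) := inf_iSup_eq _ _
                  _ ≤ ⨆ i, b i ⊓ eqv (A i) (D k) := by
                      refine iSup_mono fun i => ?_
                      calc eqv (C j) (D k) ⊓ (b i ⊓ eqv (A i) (C j))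
                          = b i ⊓ (eqv (A i) (C j) ⊓ eqv (C j) (D k)) := by ac_rfl
                        _ ≤ b i ⊓ eqv (A i) (D k) := inf_le_inf_left _ (ih i _ _)

/-- congruence of membership on the left -/
theorem memv_congr_left (x x' y : Nm) : eqv x x' ⊓ memv x y ≤ memv x' y := by
  rw [memv, memv, inf_iSup_eq]
  refine iSup_mono fun j => ?_
  calc eqv x x' ⊓ (y.bv j ⊓ eqv x (y.el j))
      = y.bv j ⊓ (eqv x' x ⊓ eqv x (y.el j)) := by rw [eqv_symm x x']; ac_rfl
    _ ≤ y.bv j ⊓ eqv x' (y.el j) := inf_le_inf_left _ (eqv_trans _ _ _)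

/-- congruence of membership on the right -/
theorem memv_congr_right (x y y' : Nm) : eqv y y' ⊓ memv x y ≤ memv x y' := by
  rw [memv, inf_iSup_eq]
  refine iSup_le fun j => ?_
  calc eqv y y' ⊓ (y.bv j ⊓ eqv x (y.el j))
      = eqv (y.el j) x ⊓ (eqv y y' ⊓ y.bv j) := by rw [eqv_symm x]; ac_rfl
    _ ≤ eqv (y.el j) x ⊓ memv (y.el j) y' := inf_le_inf_left _ (eqv_inf_bv_le j)
    _ ≤ memv x y' := memv_congr_left _ _ _

/-! ## The action -/

theorem map_zero (x : Nm) : x.map 0 = x := by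
  induction x with
  | mk ι A b ih => simp only [Nm.map, ih, tr_zero]

theorem map_map (g h : Gm) (x : Nm) : (x.map h).map g = x.map (g + h) := by
  induction x with
  | mk ι A b ih => simp only [Nm.map, ih, tr_tr]

theorem tr_iSup {ι : Sort*} (g : Gm) (f : ι → BB) : tr g (⨆ i, f i) = ⨆ i, tr g (f i) :=
  OrderIso.map_iSup _ _

theorem tr_iInf {ι : Sort*} (g : Gm) (f : ι → BB) : tr g (⨅ i, f i) = ⨅ i, tr g (f i) :=
  OrderIso.map_iInf _ _

theorem tr_inf (g : Gm) (a b : BB) : tr g (a ⊓ b) = tr g a ⊓ tr g b := rfl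

theorem tr_sup (g : Gm) (a b : BB) : tr g (a ⊔ b) = tr g a ⊔ tr g b := rfl

theorem tr_compl (g : Gm) (a : BB) : tr g (aᶜ) = (tr g a)ᶜ := rfl

theorem tr_himp (g : Gm) (a b : BB) : tr g (a ⇨ b) = (tr g a ⇨ tr g b) := by
  rw [himp_eq, himp_eq, tr_sup, tr_compl]

theorem tr_top (g : Gm) : tr g ⊤ = ⊤ := rfl

theorem tr_bot (g : Gm) : tr g ⊥ = ⊥ := rfl

theorem tr_le_tr {g : Gm} {a b : BB} : tr g a ≤ tr g b ↔ a ≤ b := (tr g).le_iff_le

theorem tr_inj {g : Gm} {a b : BB} : tr g a = tr g b ↔ a = b := (tr g).injective.eq_iff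

theorem eqv_map (g : Gm) (x y : Nm) : eqv (x.map g) (y.map g) = tr g (eqv x y) := by
  induction x generalizing y with
  | mk ι A b ih =>
    cases y with
    | mk κ C d =>
      simp only [Nm.map, eqv_mk, ih, tr_inf, tr_iInf, tr_iSup, tr_himp]

theorem Ix_map (g : Gm) (x : Nm) : (x.map g).Ix = x.Ix := by
  cases x; rfl

theorem memv_map (g : Gm) (x y : Nm) : memv (x.map g) (y.map g) = tr g (memv x y) := by
  cases y with
  | mk κ C d =>
    simp only [Nm.map, memv_mk, tr_iSup, tr_inf, eqv_map]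

end BC
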