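import Pool.Agent.Work.MP_51da30_lc.CtbA

/-!
# MP_51da30_lc, module Fam : the family `(A_n : n ∈ ω)` and its union

Proofs. By `vApp_eq`, `memv_fam`, `eqv_opr`: `vApp x y fam = ⨆ n, eqv x (num n) ⊓ eqv y (cls n)`.
`vFun`: reduce to `x = num n` (`memv_omega`), take `A = cls n`; uniqueness: `vApp (num n) B fam = eqv B (cls n)`
by `eqv_num`. `vCtb`: `vApp x A fam ≤ ⨆ n, eqv A (cls n) ≤ vCountable A` (`vCountable_congr`, `vCountable_cls`).
`vUn`: `memv x uni = ⨆ n, memv x (cls n)` by `memv_uni`, `memv_cls`, and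
`⨆ k A, memv k omega ⊓ (vApp k A fam ⊓ memv x A) = ⨆ n, memv x (cls n)`: `≥` by `k = num n`, `A = cls n`;
`≤` by `eqv A (cls n) ⊓ memv x A ≤ memv x (cls n)`.
-/

namespace BC

private theorem app_fam (x y : HS) :
    vApp x y HS.fam = ⨆ n : ℕ, x.eqv (HS.num n) ⊓ y.eqv (HS.cls n) := by
  rw [vApp_eq, HS.memv_fam]
  simp only [HS.eqv_opr]

private theorem app_fam_le (x : HS) (n : ℕ) : x.eqv (HS.num n) ≤ vApp x (HS.cls n) HS.fam := by
  rw [app_fam]
  refine le_iSup_of_le n ?_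
  rw [HS.eqv_refl, inf_top_eq]

theorem vFun_fam : vFun HS.omega HS.fam = ⊤ := by
  rw [eq_top_iff]
  refine le_iInf fun x => ?_
  rw [le_himp_iff, top_inf_eq, HS.memv_omega]
  refine iSup_le fun n => ?_
  refine le_iSup_of_le (HS.cls n) (le_inf (app_fam_le x n) (le_iInf fun B => ?_))
  rw [le_himp_iff, app_fam, inf_iSup_eq]
  refine iSup_le fun k => ?_
  by_cases hk : k = n
  · subst hk
    exact le_trans inf_le_right inf_le_right
  · have h1 : x.eqv (HS.num n) ⊓ x.eqv (HS.num k) ≤ (HS.num n).eqv (HS.num k) := by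
      have h2 := HS.eqv_trans (HS.num n) x (HS.num k)
      rwa [HS.eqv_symm (HS.num n) x] at h2
    rw [HS.eqv_num (Ne.symm hk)] at h1
    calc x.eqv (HS.num n) ⊓ (x.eqv (HS.num k) ⊓ B.eqv (HS.cls k))
        ≤ x.eqv (HS.num n) ⊓ x.eqv (HS.num k) := inf_le_inf_left _ inf_le_left
      _ ≤ ⊥ := h1
      _ ≤ _ := bot_le

theorem vCtb_fam : vCtb HS.omega HS.fam = ⊤ := by
  rw [eq_top_iff]
  refine le_iInf fun x => ?_
  rw [le_himp_iff]
  refine le_iInf fun A => ?_
  rw [le_himp_iff, app_fam]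
  refine le_trans inf_le_right (iSup_le fun n => le_trans inf_le_right ?_)
  have h := vCountable_congr (HS.cls n) A
  rwa [vCountable_cls, inf_top_eq, HS.eqv_symm] at h

theorem vUn_fam : vUn HS.omega HS.fam HS.uni = ⊤ := by
  rw [eq_top_iff]
  refine le_iInf fun x => ?_
  have h1 : x.memv HS.uni = ⨆ n : ℕ, x.memv (HS.cls n) := by
    rw [HS.memv_uni]
    simp only [HS.memv_cls]
  have h2 : (⨆ n : HS, ⨆ A : HS, n.memv HS.omega ⊓ (vApp n A HS.fam ⊓ x.memv A)) =
      ⨆ n : ℕ, x.memv (HS.cls n) := by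
    apply le_antisymm
    · refine iSup_le fun k => iSup_le fun A => le_trans inf_le_right ?_
      rw [app_fam, iSup_inf_eq]
      refine iSup_mono fun n => ?_
      exact le_trans (inf_le_inf_right _ inf_le_right) (HS.memv_congr_right x A (HS.cls n))
    · refine iSup_le fun n => ?_
      refine le_iSup_of_le (HS.num n) (le_iSup_of_le (HS.cls n) ?_)
      have h3 : (HS.num n).memv HS.omega = ⊤ := by
        rw [eq_top_iff, HS.memv_omega]
        refine le_iSup_of_le n ?_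
        rw [HS.eqv_refl]
      have h4 : vApp (HS.num n) (HS.cls n) HS.fam = ⊤ := by
        rw [eq_top_iff]
        have h5 := app_fam_le (HS.num n) n
        rwa [HS.eqv_refl] at h5
      rw [h3, h4, top_inf_eq, top_inf_eq]
  rw [h1, h2]
  unfold vIff
  rw [himp_self, inf_top_eq]

end BC
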