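import Pool.Agent.Work.MP_51da30_lc.EquivUF

/-!
# MP_51da30_lc, module NameUF : the ultrafilter in the symmetric model

Proof. Let `m` be such that `a`, `r` are invariant under `Fi m` (`HS.exists_inv`, `Fi_anti`). Let
`K = a.Ix × Gm`, `X (i, h) = (a.el i).map h`, `act g (i, h) = (i, g + h)` (`HS.map_map`). Let `e` be as in
`exists_equivUF`, `T k = {s | k ∈ e s} : Set Gm`, and `t k = BB.st (T k) : BB` (so `(t k).1 = star (T k)`).
`u` is the name with elements `X k` and truth values `t k`, `k : K`.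

(1) It is symmetric: by `HS.inv_of_memv` (or `exists_mk`) it is enough that for `g ∈ Fi m`
`⨆ k, t k ⊓ (z.map g).eqv (X k) = tr g (⨆ k, t k ⊓ z.eqv (X k))`; by `tr_iSup`, `tr_inf`, `HS.eqv_map` the
right side is `⨆ k, tr g (t k) ⊓ (z.map g).eqv (X (act g k))`, and `tr g (t k) = t (act g k)` since
`trS g (T k) = T (act g k)`: `s ∈ trS g (T k) ↔ k ∈ e (s + g) ↔ act g k ∈ e (s + g + g) = e s`
(`tr_st`). Reindex by the bijection `act g` of `K`.

(2) Locality: `t k ⊓ (X k).eqv (X l) ≤ t l`, since `T k ∩ ((X k).eqv (X l)).1 ⊆ T l` by `PtUF.eq`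
(`e s = ∅` if `s ∉ (vBA a r).1`), and `star (T ∩ b.1) = star T ∩ b.1` for `b : BB` (`star_inter`, `b.2`),
`star_mono`. Hence `(X k).memv u = t k`: `≥` is `HS.bv_le_memv`, `≤` is locality.
In the same way every property in `PtUF` is an inclusion of sets `T k₁ ∩ T k₂ ∩ b.1 ⊆ T k₃` etc., and
gives the corresponding inequality of elements of `BB`:
`t k ≤ (X k).memv a`; `t k ⊓ (X l).memv a ⊓ vApp (X k) (X l) r ≤ t l`;
`t k ⊓ t l ⊓ (X j).memv a ⊓ vInf a r (X j) (X k) (X l) ≤ t j`; `t k ⊓ vBot a r (X k) = ⊥`;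
`vBA a r ⊓ (X k).memv a ⊓ (X l).memv a ⊓ vCompl a r (X k) (X l) ≤ t k ⊔ t l` (`star_union`).

(3) `vBA a r ≤ vUF a r u` : each of the five conjuncts is `⨅ x, x.memv u ⇨ …`; use `HS.iInf_memv`
(the functionals are extensional: `vApp_congr`, …; or unfold `x.memv u = ⨆ k, t k ⊓ x.eqv (X k)` and use
the congruence lemmas directly) to reduce to `x = X k`. For the elements `x` of `a` (in the second,
third and fifth conjunct): `x.memv a = ⨆ i, a.bv i ⊓ x.eqv (a.el i) ≤ ⨆ k, (X k).memv a ⊓ x.eqv (X k)`,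
with `k = (i, 0)` (`HS.map_zero`).
-/

namespace BC

private theorem st_inf_le {T T' : Set Gm} {b : BB} (h : ∀ s ∈ T, s ∈ b.1 → s ∈ T') :
    BB.st T ⊓ b ≤ BB.st T' := by
  have h1 : (BB.st T ⊓ b).1 = star (T ∩ b.1) := by
    rw [BB.coe_inf, star_inter, b.2]
    rfl
  rw [BB.le_def, h1]
  exact star_mono fun s hs => h s hs.1 hs.2

private theorem st_le {T : Set Gm} {b : BB} (h : ∀ s ∈ T, s ∈ b.1) : BB.st T ≤ b := by
  have h1 : BB.st T ≤ BB.st b.1 := star_mono h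
  rwa [BB.st_self] at h1

private theorem le_st_sup {T T' : Set Gm} {b : BB} (h : ∀ s ∈ b.1, s ∈ T ∨ s ∈ T') :
    b ≤ BB.st T ⊔ BB.st T' := by
  have h1 : BB.st b.1 ≤ BB.st (T ∪ T') := star_mono h
  rw [BB.st_self] at h1
  refine le_trans h1 (le_of_eq ?_)
  apply Subtype.ext
  rw [BB.coe_sup, BB.st_val, star_union]
  rfl

private theorem st_inf_st (T T' : Set Gm) : BB.st T ⊓ BB.st T' = BB.st (T ∩ T') := by
  apply Subtype.ext
  rw [BB.coe_inf, BB.st_val, BB.st_val, BB.st_val, star_inter]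

theorem exists_nameUF (a r : HS) : ∃ u : HS, vBA a r ≤ vUF a r u := by
  obtain ⟨m₁, h₁⟩ := a.exists_inv
  obtain ⟨m₂, h₂⟩ := r.exists_inv
  have ha : ∀ g ∈ Fi (max m₁ m₂), HS.eqv (a.map g) a = ⊤ := fun g hg =>
    h₁ g (Fi_anti (le_max_left _ _) hg)
  have hr : ∀ g ∈ Fi (max m₁ m₂), HS.eqv (r.map g) r = ⊤ := fun g hg =>
    h₂ g (Fi_anti (le_max_right _ _) hg)
  set m := max m₁ m₂ with hm
  let K : Type := a.Ix × Gm
  let X : K → HS := fun k => (a.el k.1).map k.2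
  let act : Gm → K → K := fun g k => (k.1, g + k.2)
  obtain ⟨e, he1, he2, he3⟩ := exists_equivUF a r X act
    (fun g k => (HS.map_map g k.2 (a.el k.1)).symm)
    (fun g h k => by
      change (k.1, g + (h + k.2)) = (k.1, g + h + k.2)
      rw [add_assoc])
    (fun k => by
      change (k.1, 0 + k.2) = k
      rw [zero_add]) m ha hr
  let T : K → Set Gm := fun k => {s | k ∈ e s}
  let t : K → BB := fun k => BB.st (T k)
  have hBA : ∀ (s : Gm) (k : K), k ∈ e s → PtUF a r X s (e s) := by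
    intro s k hk
    by_cases h : s ∈ (vBA a r).1
    · exact he1 s h
    · rw [he2 s h] at hk
      exact absurd hk (Set.notMem_empty k)
  have htr : ∀ g ∈ Fi m, ∀ k, tr g (t k) = t (act g k) := by
    intro g hg k
    change tr g (BB.st (T k)) = BB.st (T (act g k))
    rw [tr_st]
    congr 1
    ext s
    change k ∈ e (s + g) ↔ act g k ∈ e s
    rw [← he3 g hg (s + g) k, add_assoc, Gm.add_self, add_zero]
  obtain ⟨u, hu⟩ := HS.exists_mk K X t (fun z => ⨆ k, t k ⊓ z.eqv (X k)) (fun _ => rfl)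
    ⟨m, fun g hg z => by
      change (⨆ k, t k ⊓ (z.map g).eqv (X k)) = tr g (⨆ k, t k ⊓ z.eqv (X k))
      rw [tr_iSup]
      have h : ∀ k, tr g (t k ⊓ z.eqv (X k)) = t (act g k) ⊓ (z.map g).eqv (X (act g k)) := by
        intro k
        rw [tr_inf, htr g hg k, ← HS.eqv_map]
        congr 2
        exact HS.map_map g k.2 (a.el k.1)
      simp only [h]
      have hs : Function.Surjective (act g) := by
        intro k
        refine ⟨act g k, ?_⟩
        change (k.1, g + (g + k.2)) = k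
        rw [← add_assoc, Gm.add_self, zero_add]
      exact (hs.iSup_comp (fun k => t k ⊓ (z.map g).eqv (X k))).symm⟩
  refine ⟨u, ?_⟩
  -- pointwise facts
  have l1 : ∀ k, t k ≤ (X k).memv a := fun k => st_le fun s hs => (hBA s k hs).sub k hs
  have l2 : ∀ k l, t k ⊓ (X k).eqv (X l) ≤ t l := fun k l =>
    st_inf_le fun s hs h => (hBA s k hs).eq k hs l h
  have l3 : ∀ k l, t k ⊓ ((X l).memv a ⊓ vApp (X k) (X l) r) ≤ t l := fun k l =>
    st_inf_le fun s hs h => (hBA s k hs).up k hs l h.1 h.2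
  have l4 : ∀ k l j, t k ⊓ t l ⊓ ((X j).memv a ⊓ vInf a r (X j) (X k) (X l)) ≤ t j := by
    intro k l j
    change BB.st (T k) ⊓ BB.st (T l) ⊓ _ ≤ _
    rw [st_inf_st]
    exact st_inf_le fun s hs h => (hBA s k hs.1).inf k hs.1 l hs.2 j h.1 h.2
  have l5 : ∀ k, t k ⊓ vBot a r (X k) ≤ ⊥ := by
    intro k
    have h := st_inf_le (T := T k) (T' := ∅) (b := vBot a r (X k))
      (fun s hs h => ((hBA s k hs).bot k hs h).elim)
    have h0 : BB.st ∅ = ⊥ := Subtype.ext star_empty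
    rwa [h0] at h
  have l6 : ∀ k l, vBA a r ⊓ ((X k).memv a ⊓ ((X l).memv a ⊓ vCompl a r (X k) (X l))) ≤
      t k ⊔ t l := fun k l =>
    le_st_sup fun s hs => (he1 s hs.1).ultra k l hs.2.1 hs.2.2.1 hs.2.2.2
  have intro_u : ∀ (x : HS) (k : K), t k ⊓ x.eqv (X k) ≤ x.memv u := by
    intro x k
    rw [hu]
    exact le_iSup (fun k => t k ⊓ x.eqv (X k)) k
  have elim_u : ∀ (x : HS) (q c : BB), (∀ k, q ⊓ (t k ⊓ x.eqv (X k)) ≤ c) → q ⊓ x.memv u ≤ c := by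
    intro x q c h
    rw [hu, inf_iSup_eq]
    exact iSup_le h
  have elim_a : ∀ (x : HS) (q c : BB), (∀ k, q ⊓ ((X k).memv a ⊓ x.eqv (X k)) ≤ c) →
      q ⊓ x.memv a ≤ c := by
    intro x q c h
    rw [HS.memv_def, inf_iSup_eq]
    refine iSup_le fun i => le_trans ?_ (h (i, 0))
    have hX : X (i, 0) = a.el i := HS.map_zero _
    rw [hX]
    exact inf_le_inf_left _ (inf_le_inf_right _ (HS.bv_le_memv a i))
  -- congruence at points
  have cA : ∀ (x y : HS) (s : Gm), s ∈ (x.eqv y).1 → s ∈ (x.memv a).1 → s ∈ (y.memv a).1 :=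
    fun x y s h h' => HS.memv_congr_left x y a ⟨h, h'⟩
  have cS : ∀ (x y : HS) (s : Gm), s ∈ (x.eqv y).1 → s ∈ (y.eqv x).1 := by
    intro x y s h
    rwa [HS.eqv_symm]
  have cR : ∀ (x : HS) (s : Gm), s ∈ (x.eqv x).1 := by
    intro x s
    rw [HS.eqv_refl]
    exact Set.mem_univ s
  unfold vUF
  refine le_inf ?_ (le_inf ?_ (le_inf ?_ (le_inf ?_ ?_)))
  · refine le_iInf fun x => le_himp_iff.2 ?_
    refine elim_u x _ _ fun k => ?_
    intro s hs
    exact cA _ _ s (cS _ _ s hs.2.2) (l1 k hs.2.1)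
  · refine le_iInf fun x => le_himp_iff.2 (le_iInf fun y => le_himp_iff.2 (le_himp_iff.2 ?_))
    refine le_trans (b := (vApp x y r ⊓ y.memv a) ⊓ x.memv u) ?_ ?_
    · intro s hs
      exact ⟨⟨hs.2, hs.1.2⟩, hs.1.1.2⟩
    refine elim_u x _ _ fun k => ?_
    refine le_trans (b := (vApp x y r ⊓ (t k ⊓ x.eqv (X k))) ⊓ y.memv a) ?_ ?_
    · intro s hs
      exact ⟨⟨hs.1.1, hs.2⟩, hs.1.2⟩
    refine elim_a y _ _ fun l => ?_
    intro s hs
    obtain ⟨⟨h1, h2, h3⟩, h4, h5⟩ := hs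
    refine intro_u y l ⟨l3 k l ⟨h2, h4, ?_⟩, h5⟩
    exact vApp_congr x y r (X k) (X l) r ⟨⟨h3, h5, cR r s⟩, h1⟩
  · refine le_iInf fun x => le_himp_iff.2 (le_iInf fun y => le_himp_iff.2 (le_iInf fun z =>
      le_himp_iff.2 (le_himp_iff.2 ?_)))
    refine le_trans (b := ((vInf a r z x y ⊓ z.memv a) ⊓ x.memv u) ⊓ y.memv u) ?_ ?_
    · intro s hs
      exact ⟨⟨⟨hs.2, hs.1.2⟩, hs.1.1.1.2⟩, hs.1.1.2⟩
    refine elim_u y _ _ fun l => ?_
    refine le_trans (b := ((vInf a r z x y ⊓ z.memv a) ⊓ (t l ⊓ y.eqv (X l))) ⊓ x.memv u) ?_ ?_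
    · intro s hs
      exact ⟨⟨hs.1.1, hs.2⟩, hs.1.2⟩
    refine elim_u x _ _ fun k => ?_
    refine le_trans (b := (vInf a r z x y ⊓ (t l ⊓ y.eqv (X l)) ⊓ (t k ⊓ x.eqv (X k))) ⊓
      z.memv a) ?_ ?_
    · intro s hs
      exact ⟨⟨⟨hs.1.1.1, hs.1.2⟩, hs.2⟩, hs.1.1.2⟩
    refine elim_a z _ _ fun j => ?_
    intro s hs
    obtain ⟨⟨⟨h1, h2, h3⟩, h4, h5⟩, h6, h7⟩ := hs
    refine intro_u z j ⟨l4 k l j ⟨⟨h4, h2⟩, h6, ?_⟩, h7⟩
    exact vInf_congr a r z x y a r (X j) (X k) (X l) ⟨⟨cR a s, cR r s, h7, h5, h3⟩, h1⟩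
  · refine le_iInf fun x => le_himp_iff.2 ?_
    refine elim_u x _ _ fun k => ?_
    intro s hs
    obtain ⟨h1, h2, h3⟩ := hs
    rw [BB.mem_compl]
    intro h4
    exact (l5 k ⟨h2, vBot_congr a r x a r (X k) ⟨⟨cR a s, cR r s, h3⟩, h4⟩⟩ : s ∈ (⊥ : BB).1)
  · refine le_iInf fun x => le_himp_iff.2 (le_iInf fun y => le_himp_iff.2 (le_himp_iff.2 ?_))
    refine le_trans (b := ((vBA a r ⊓ vCompl a r x y) ⊓ x.memv a) ⊓ y.memv a) ?_ ?_
    · intro s hs
      exact ⟨⟨⟨hs.1.1.1, hs.2⟩, hs.1.1.2⟩, hs.1.2⟩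
    refine elim_a y _ _ fun l => ?_
    refine le_trans (b := ((vBA a r ⊓ vCompl a r x y) ⊓ ((X l).memv a ⊓ y.eqv (X l))) ⊓
      x.memv a) ?_ ?_
    · intro s hs
      exact ⟨⟨hs.1.1, hs.2⟩, hs.1.2⟩
    refine elim_a x _ _ fun k => ?_
    intro s hs
    obtain ⟨⟨⟨h0, h1⟩, h2, h3⟩, h4, h5⟩ := hs
    rcases l6 k l ⟨h0, h4, h2, vCompl_congr a r x y a r (X k) (X l)
      ⟨⟨cR a s, cR r s, h5, h3⟩, h1⟩⟩ with h | h
    · exact Or.inl (intro_u x k ⟨h, h5⟩)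
    · exact Or.inr (intro_u y l ⟨h, h3⟩)

end BC
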