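import Pool.Agent.Work.MP_51da30_lc.Reals

/-!
# MP_51da30_lc, module Uncount : the union is not countable

Proof. Suppose `vCountable uni ≠ ⊥`; then there are `w f` with `b = vOmega w ⊓ vInj f uni w ≠ ⊥`. Since
`vOmega w ≤ eqv w omega` (`vOmega_le`), by `vInj_congr` `b ≤ vInj f uni omega`; put
`c = vInj f uni omega ≠ ⊥`. Let `m` be such that `f` is invariant under `Fi m` (`HS.exists_inv`). By (dom)
for `x = rl m` (`memv (rl m) uni = ⊤` by `memv_uni`, `HS.map_zero`): `c ≤ ⨆ y, memv y omega ⊓ vApp (rl m) y f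
≤ ⨆ k, vApp (rl m) (num k) f` (`memv_omega`, `vApp_congr`). So `q = c ⊓ vApp (rl m) (num k) f ≠ ⊥` for some `k`.
By `key m q` there is `g ∈ Fi m` with `g (m, j) ≠ 0` for some `j` and `q ⊓ tr g q ≠ ⊥`. Now
`tr g q ≤ tr g (vApp (rl m) (num k) f) = vApp ((rl m).map g) (num k) f` (`vApp_map'`, `map_num`). So
`q ⊓ tr g q ≤ c ⊓ vApp (rl m) (num k) f ⊓ vApp ((rl m).map g) (num k) f ≤ eqv (rl m) ((rl m).map g)` by the (inj)
part of `vInj`, and this is `⊥` by `eqv_rl` (with `rl m = (rl m).map 0`, `HS.map_zero`). Contradiction.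
-/

namespace BC

private theorem unc_step (f : HS) : vInj f HS.uni HS.omega = ⊥ := by
  by_contra hc
  obtain ⟨m, hm⟩ := HS.exists_inv f
  -- (dom) at the real `x_m`
  have h1 : vInj f HS.uni HS.omega ≤ ⨆ k : ℕ, vApp (HS.rl m) (HS.num k) f := by
    have hu : HS.memv (HS.rl m) HS.uni = ⊤ := by
      rw [eq_top_iff, HS.memv_uni]
      refine le_iSup_of_le m (le_iSup_of_le 0 ?_)
      rw [HS.map_zero, HS.eqv_refl]
    have h2 : vInj f HS.uni HS.omega ≤
        ⨆ y : HS, HS.memv y HS.omega ⊓ vApp (HS.rl m) y f := by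
      have h3 : vInj f HS.uni HS.omega ≤ HS.memv (HS.rl m) HS.uni ⇨
          ⨆ y : HS, HS.memv y HS.omega ⊓ vApp (HS.rl m) y f :=
        le_trans inf_le_left (iInf_le _ (HS.rl m))
      rwa [hu, top_himp] at h3
    refine le_trans h2 (iSup_le fun y => ?_)
    rw [HS.memv_omega, iSup_inf_eq]
    refine iSup_mono fun k => ?_
    have h4 := vApp_congr (HS.rl m) y f (HS.rl m) (HS.num k) f
    rwa [HS.eqv_refl, HS.eqv_refl, inf_top_eq, top_inf_eq] at h4
  -- a value `k` of `f` at `x_m`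
  obtain ⟨k, hk⟩ : ∃ k : ℕ, vInj f HS.uni HS.omega ⊓ vApp (HS.rl m) (HS.num k) f ≠ ⊥ := by
    by_contra hno
    push Not at hno
    apply hc
    have h2 : vInj f HS.uni HS.omega =
        ⨆ k : ℕ, vInj f HS.uni HS.omega ⊓ vApp (HS.rl m) (HS.num k) f := by
      rw [← inf_iSup_eq]
      exact (inf_eq_left.2 h1).symm
    rw [h2]
    simp only [hno, iSup_bot]
  obtain ⟨g, hg, ⟨j, hj⟩, hne⟩ := key m _ hk
  apply hne
  rw [eq_bot_iff]
  have h5 : tr g (vInj f HS.uni HS.omega ⊓ vApp (HS.rl m) (HS.num k) f) ≤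
      vApp ((HS.rl m).map g) (HS.num k) f := by
    have h6 := vApp_map' (hm g hg) (HS.rl m) (HS.num k)
    rw [HS.map_num] at h6
    rw [h6, tr_le_tr]
    exact inf_le_right
  have h7 : vInj f HS.uni HS.omega ≤ vApp (HS.rl m) (HS.num k) f ⇨
      (vApp ((HS.rl m).map g) (HS.num k) f ⇨ HS.eqv (HS.rl m) ((HS.rl m).map g)) :=
    le_trans inf_le_right (le_trans inf_le_right
      (le_trans (iInf_le _ (HS.rl m)) (le_trans (iInf_le _ ((HS.rl m).map g)) (iInf_le _ _))))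
  have h8 : HS.eqv (HS.rl m) ((HS.rl m).map g) = ⊥ := by
    have h9 : HS.eqv ((HS.rl m).map 0) ((HS.rl m).map g) = ⊥ :=
      HS.eqv_rl ⟨j, fun h => hj h.symm⟩
    rwa [HS.map_zero] at h9
  rw [h8, le_himp_iff, le_himp_iff] at h7
  exact le_trans (inf_le_inf_left _ h5) h7

theorem vCountable_uni : vCountable HS.uni = ⊥ := by
  rw [eq_bot_iff]
  unfold vCountable
  refine iSup_le fun w => iSup_le fun f => ?_
  rw [← unc_step f]
  have h1 := vInj_congr f HS.uni w f HS.uni HS.omega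
  rw [HS.eqv_refl, HS.eqv_refl, top_inf_eq, top_inf_eq] at h1
  exact le_trans (inf_le_inf_right _ (vOmega_le w)) h1

end BC
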