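import Pool.Agent.Work.MP_51da30_lc.ZFM
import Pool.Agent.Work.MP_51da30_lc.NameUF
import Pool.Agent.Work.MP_51da30_lc.Uncount
import Pool.Agent.Work.MP_51da30_lc.Fam

/-!
# MP_51da30_lc, module Fin : BPI and the failure of CUC in the models, and the theorem
-/

namespace BC

theorem top_mem {M : Type} {E : M → M → Prop} {C : Set HS} {p : HS → M} {G : Set BB}
    (h : IsModel E C p G) : ⊤ ∈ G := by
  rcases h.ultra ⊤ with h1 | h1
  · exact h1
  · rw [compl_top] at h1
    exact absurd h1 h.bot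

theorem bpi_of_isModel {M : Type} {E : M → M → Prop} {C : Set HS} {p : HS → M} {G : Set BB}
    (h : IsModel E C p G) : BPI E := by
  intro a r hBA
  obtain ⟨a', ha', rfl⟩ := h.surj a
  obtain ⟨r', hr', rfl⟩ := h.surj r
  have h1 := h.los (fBA 0 1) (cons a' (fun _ => r')) (fun n => by
    cases n
    · exact ha'
    · exact hr')
  rw [Sat_fBA, val_fBA] at h1
  have h2 : vBA a' r' ∈ G := h1.1 hBA
  have h3 := h.los (.ex (fUF 1 2 0)) (cons a' (fun _ => r')) (fun n => by
    cases n
    · exact ha'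
    · exact hr')
  have h4 : vBA a' r' ≤ val (.ex (fUF 1 2 0)) (cons a' (fun _ => r')) := by
    obtain ⟨u, hu⟩ := exists_nameUF a' r'
    refine le_trans hu ?_
    simp only [val]
    refine le_iSup_of_le u ?_
    rw [val_fUF]
    exact le_rfl
  have h5 := h3.2 (h.up _ h2 _ h4)
  simp only [Sat] at h5
  obtain ⟨u, hu⟩ := h5
  rw [Sat_fUF] at hu
  exact ⟨u, hu⟩

theorem not_cuc_of_isModel {M : Type} {E : M → M → Prop} {C : Set HS} {p : HS → M} {G : Set BB}
    (h : IsModel E C p G) (h1 : HS.omega ∈ C) (h2 : HS.fam ∈ C) (h3 : HS.uni ∈ C) :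
    ¬ CUC E := by
  intro hC
  have hT := top_mem h
  have hv : ∀ n, (cons HS.omega (cons HS.fam (fun _ => HS.uni))) n ∈ C := by
    intro n
    match n with
    | 0 => exact h1
    | 1 => exact h2
    | n + 2 => exact h3
  have e1 : IsOmega E (p HS.omega) := by
    have := h.los (fOmega 0) _ hv
    rw [Sat_fOmega, val_fOmega] at this
    refine this.2 ?_
    change vOmega HS.omega ∈ G
    rw [vOmega_omega]; exact hT
  have e2 : ∀ n, E n (p HS.omega) → ∃! A, App E n A (p HS.fam) := by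
    have := h.los (fFun 0 1) _ hv
    rw [Sat_fFun, val_fFun] at this
    refine this.2 ?_
    change vFun HS.omega HS.fam ∈ G
    rw [vFun_fam]; exact hT
  have e3 : ∀ n, E n (p HS.omega) → ∀ A, App E n A (p HS.fam) → IsCountable E A := by
    have := h.los (fCtb 0 1) _ hv
    rw [Sat_fCtb, val_fCtb] at this
    refine this.2 ?_
    change vCtb HS.omega HS.fam ∈ G
    rw [vCtb_fam]; exact hT
  have e4 : ∀ x, E x (p HS.uni) ↔ ∃ n A, E n (p HS.omega) ∧ App E n A (p HS.fam) ∧ E x A := by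
    have := h.los (fUn 0 1 2) _ hv
    rw [Sat_fUn, val_fUn] at this
    refine this.2 ?_
    change vUn HS.omega HS.fam HS.uni ∈ G
    rw [vUn_fam]; exact hT
  have e5 := hC _ _ _ e1 e2 e3 e4
  have e6 := h.los (fCountable 2) _ hv
  rw [Sat_fCountable, val_fCountable] at e6
  have e7 : vCountable HS.uni ∈ G := e6.1 e5
  rw [vCountable_uni] at e7
  exact h.bot e7

theorem main : ∃ (M : Type) (E : M → M → Prop), IsZF E ∧ BPI E ∧ ¬ CUC E := by
  obtain ⟨M, E, C, p, G, h, hP, -⟩ := exists_model ⊤ top_ne_bot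
    {HS.omega, HS.fam, HS.uni} (by simp)
  refine ⟨M, E, isZF_of_isModel h, bpi_of_isModel h, not_cuc_of_isModel h ?_ ?_ ?_⟩
  · exact hP (by simp)
  · exact hP (by simp)
  · exact hP (by simp)

end BC
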