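import Pool.Agent.Work.MP_51da30_lc.Eqv

/-!
# MP_51da30_lc, file HS : hereditarily symmetric names and truth values of formulas
-/

namespace BC

/-- `x` is invariant (semantically) under the subgroup `Γ_{≥ m}`. -/
def Inv (m : ℕ) (x : Nm) : Prop := ∀ g ∈ Fi m, eqv (x.map g) x = ⊤

theorem Inv.mono {m n : ℕ} (h : m ≤ n) {x : Nm} (hx : Inv m x) : Inv n x :=
  fun g hg => hx g (Fi_anti h hg)

theorem Inv.map {m : ℕ} {x : Nm} (hx : Inv m x) (g : Gm) : Inv m (x.map g) := by
  intro h hh
  rw [map_map, add_comm, ← map_map, eqv_map, hx h hh, tr_top]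

/-- Hereditarily symmetric names. -/
def IsHS : Nm → Prop
  | .mk ι A b => (∃ m, Inv m (.mk ι A b)) ∧ ∀ i, IsHS (A i)

theorem IsHS.inv {x : Nm} (h : IsHS x) : ∃ m, Inv m x := by
  cases x with
  | mk ι A b => rw [IsHS] at h; exact h.1

theorem IsHS.el {x : Nm} (h : IsHS x) (i : x.Ix) : IsHS (x.el i) := by
  cases x with
  | mk ι A b => rw [IsHS] at h; exact h.2 i

theorem IsHS.map {x : Nm} (h : IsHS x) (g : Gm) : IsHS (x.map g) := by
  induction x with
  | mk ι A b ih =>
    obtain ⟨m, hm⟩ := h.inv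
    rw [Nm.map, IsHS]
    refine ⟨⟨m, hm.map g⟩, fun i => ih i (h.el i)⟩

/-- The class of hereditarily symmetric names. -/
def HS : Type 1 := {x : Nm // IsHS x}

namespace HS

/-- index type -/
def Ix (x : HS) : Type := x.1.Ix

/-- elements -/
def el (x : HS) (i : x.Ix) : HS := ⟨x.1.el i, x.2.el i⟩

/-- truth values -/
def bv (x : HS) (i : x.Ix) : BB := x.1.bv i

/-- truth value of `x = y` -/
noncomputable def eqv (x y : HS) : BB := BC.eqv x.1 y.1

/-- truth value of `x ∈ y` -/
noncomputable def memv (x y : HS) : BB := BC.memv x.1 y.1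

/-- the action -/
def map (g : Gm) (x : HS) : HS := ⟨x.1.map g, x.2.map g⟩

/-- the name with given elements and truth values -/
def mk (ι : Type) (A : ι → HS) (b : ι → BB) (h : ∃ m, Inv m (.mk ι (fun i => (A i).1) b)) : HS :=
  ⟨.mk ι (fun i => (A i).1) b, by rw [IsHS]; exact ⟨h, fun i => (A i).2⟩⟩

theorem eqv_refl (x : HS) : eqv x x = ⊤ := BC.eqv_refl _

theorem eqv_symm (x y : HS) : eqv x y = eqv y x := BC.eqv_symm _ _

theorem eqv_trans (x y z : HS) : eqv x y ⊓ eqv y z ≤ eqv x z := BC.eqv_trans _ _ _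

theorem memv_congr_left (x x' y : HS) : eqv x x' ⊓ memv x y ≤ memv x' y :=
  BC.memv_congr_left _ _ _

theorem memv_congr_right (x y y' : HS) : eqv y y' ⊓ memv x y ≤ memv x y' :=
  BC.memv_congr_right _ _ _

theorem memv_def (x y : HS) : memv x y = ⨆ j : y.Ix, y.bv j ⊓ eqv x (y.el j) := rfl

theorem eqv_def (x y : HS) : eqv x y =
    (⨅ i : x.Ix, x.bv i ⇨ memv (x.el i) y) ⊓ (⨅ j : y.Ix, y.bv j ⇨ memv (y.el j) x) :=
  BC.eqv_def _ _

theorem bv_le_memv (y : HS) (j : y.Ix) : y.bv j ≤ memv (y.el j) y := BC.bv_le_memv _ _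

theorem map_zero (x : HS) : x.map 0 = x := Subtype.ext (BC.map_zero _)

theorem map_map (g h : Gm) (x : HS) : (x.map h).map g = x.map (g + h) :=
  Subtype.ext (BC.map_map _ _ _)

theorem map_self (g : Gm) (x : HS) : (x.map g).map g = x := by
  rw [map_map, Gm.add_self, map_zero]

theorem eqv_map (g : Gm) (x y : HS) : eqv (x.map g) (y.map g) = tr g (eqv x y) :=
  BC.eqv_map _ _ _

theorem memv_map (g : Gm) (x y : HS) : memv (x.map g) (y.map g) = tr g (memv x y) :=
  BC.memv_map _ _ _

theorem exists_inv (x : HS) : ∃ m, ∀ g ∈ Fi m, eqv (x.map g) x = ⊤ := x.2.inv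

theorem memv_mk (x : HS) (ι : Type) (A : ι → HS) (b : ι → BB) (h) :
    memv x (mk ι A b h) = ⨆ i, b i ⊓ eqv x (A i) := rfl

theorem eqv_of_eqv_top_left {x x' : HS} (h : eqv x x' = ⊤) (y : HS) : eqv x y = eqv x' y := by
  apply le_antisymm
  · have := eqv_trans x' x y
    rwa [eqv_symm x' x, h, top_inf_eq] at this
  · have := eqv_trans x x' y
    rwa [h, top_inf_eq] at this

theorem memv_of_eqv_top_left {x x' : HS} (h : eqv x x' = ⊤) (y : HS) : memv x y = memv x' y := by
  apply le_antisymm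
  · have := memv_congr_left x x' y
    rwa [h, top_inf_eq] at this
  · have := memv_congr_left x' x y
    rwa [eqv_symm x' x, h, top_inf_eq] at this

theorem memv_of_eqv_top_right {y y' : HS} (h : eqv y y' = ⊤) (x : HS) :
    memv x y = memv x y' := by
  apply le_antisymm
  · have := memv_congr_right x y y'
    rwa [h, top_inf_eq] at this
  · have := memv_congr_right x y' y
    rwa [eqv_symm y' y, h, top_inf_eq] at this

/-- A functional `f : HS → BB` is extensional if it respects `eqv`. -/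
def Ext (f : HS → BB) : Prop := ∀ x y, eqv x y ⊓ f x ≤ f y

theorem iSup_memv (f : HS → BB) (hf : Ext f) (a : HS) :
    (⨆ x : HS, memv x a ⊓ f x) = ⨆ i : a.Ix, a.bv i ⊓ f (a.el i) := by
  apply le_antisymm
  · refine iSup_le fun x => ?_
    rw [memv_def, iSup_inf_eq]
    refine iSup_mono fun i => ?_
    calc a.bv i ⊓ eqv x (a.el i) ⊓ f x = a.bv i ⊓ (eqv x (a.el i) ⊓ f x) := inf_assoc _ _ _
      _ ≤ a.bv i ⊓ f (a.el i) := inf_le_inf_left _ (hf _ _)
  · refine iSup_le fun i => ?_
    exact le_iSup_of_le (a.el i) (inf_le_inf_right _ (bv_le_memv a i))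

theorem iInf_memv (f : HS → BB) (hf : Ext f) (a : HS) :
    (⨅ x : HS, memv x a ⇨ f x) = ⨅ i : a.Ix, a.bv i ⇨ f (a.el i) := by
  apply le_antisymm
  · refine le_iInf fun i => ?_
    exact le_trans (iInf_le _ (a.el i)) (himp_le_himp_right (bv_le_memv a i))
  · refine le_iInf fun x => ?_
    rw [le_himp_iff, memv_def, inf_iSup_eq]
    refine iSup_le fun i => ?_
    calc (⨅ i : a.Ix, a.bv i ⇨ f (a.el i)) ⊓ (a.bv i ⊓ eqv x (a.el i))
        ≤ (a.bv i ⇨ f (a.el i)) ⊓ (a.bv i ⊓ eqv x (a.el i)) :=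
          inf_le_inf_right _ (iInf_le _ i)
      _ = eqv (a.el i) x ⊓ ((a.bv i ⇨ f (a.el i)) ⊓ a.bv i) := by rw [eqv_symm x]; ac_rfl
      _ ≤ eqv (a.el i) x ⊓ f (a.el i) := inf_le_inf_left _ himp_inf_le
      _ ≤ f x := hf _ _

/-- The axiom of extensionality. -/
theorem extv (x y : HS) : (⨅ z : HS, (memv z x ⇨ memv z y) ⊓ (memv z y ⇨ memv z x)) ≤ eqv x y := by
  rw [eqv_def]
  refine le_inf (le_iInf fun i => ?_) (le_iInf fun j => ?_)
  · refine le_trans (iInf_le _ (x.el i)) (le_trans inf_le_left ?_)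
    exact himp_le_himp_right (bv_le_memv x i)
  · refine le_trans (iInf_le _ (y.el j)) (le_trans inf_le_right ?_)
    exact himp_le_himp_right (bv_le_memv y j)

theorem eqv_eq_top_of_memv {x y : HS} (h : ∀ z, memv z x = memv z y) : eqv x y = ⊤ := by
  rw [eq_top_iff]
  refine le_trans (le_iInf fun z => ?_) (extv x y)
  rw [h z, himp_self, inf_top_eq]

/-- A family of names and truth values defines a symmetric name as soon as the truth value of
membership is equivariant. -/
theorem inv_of_memv (ι : Type) (A : ι → HS) (b : ι → BB) (m : ℕ)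
    (h : ∀ g ∈ Fi m, ∀ z : HS, (⨆ i, b i ⊓ eqv (z.map g) (A i)) = tr g (⨆ i, b i ⊓ eqv z (A i))) :
    Inv m (.mk ι (fun i => (A i).1) b) := by
  intro g hg
  rw [BC.eqv_def, eq_top_iff]
  have key : ∀ z : HS, BC.memv z.1 (Nm.map g (.mk ι (fun i => (A i).1) b)) =
      BC.memv z.1 (.mk ι (fun i => (A i).1) b) := by
    intro z
    have h1 := BC.memv_map g (z.map g).1 (.mk ι (fun i => (A i).1) b)
    have h2 : (z.map g).1.map g = z.1 := congrArg Subtype.val (map_self g z)
    rw [h2] at h1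
    rw [h1]
    have h3 := h g hg z
    change tr g (⨆ i, b i ⊓ eqv (z.map g) (A i)) = ⨆ i, b i ⊓ eqv z (A i)
    rw [h3, tr_self]
  refine le_inf (le_iInf fun i => ?_) (le_iInf fun i => ?_)
  · rw [le_himp_iff, top_inf_eq]
    have h1 := BC.bv_le_memv (Nm.map g (.mk ι (fun i => (A i).1) b)) i
    have h2 := key ((A i).map g)
    exact le_trans h1 (le_of_eq h2)
  · rw [le_himp_iff, top_inf_eq]
    have h1 := BC.bv_le_memv (.mk ι (fun i => (A i).1) b) i
    have h2 := key (A i)
    exact le_trans h1 (le_of_eq h2.symm)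

/-- Construction of symmetric names, with the value of membership. -/
theorem exists_mk (ι : Type) (A : ι → HS) (b : ι → BB) (f : HS → BB)
    (hf : ∀ z, (⨆ i, b i ⊓ eqv z (A i)) = f z)
    (h : ∃ m, ∀ g ∈ Fi m, ∀ z : HS, f (z.map g) = tr g (f z)) :
    ∃ c : HS, ∀ z, memv z c = f z := by
  obtain ⟨m, hm⟩ := h
  refine ⟨mk ι A b ⟨m, inv_of_memv ι A b m ?_⟩, hf⟩
  intro g hg z
  rw [hf, hf, hm g hg z]

instance : Nonempty HS := ⟨mk Empty (fun i => i.elim) (fun i => i.elim)
  ⟨0, inv_of_memv _ _ _ 0 (by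
    intro g _ z
    have : ∀ f : Empty → BB, (⨆ i, f i) = ⊥ := fun f => iSup_of_empty f
    rw [this, this, tr_bot])⟩⟩

end HS

/-! ## Truth values of formulas -/

/-- The truth value of a formula in the class of hereditarily symmetric names. -/
noncomputable def val : Fml → (ℕ → HS) → BB
  | .mem i j, v => HS.memv (v i) (v j)
  | .eq i j, v => HS.eqv (v i) (v j)
  | .neg φ, v => (val φ v)ᶜ
  | .and φ ψ, v => val φ v ⊓ val ψ v
  | .or φ ψ, v => val φ v ⊔ val ψ v
  | .imp φ ψ, v => val φ v ⇨ val ψ v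
  | .all φ, v => ⨅ x : HS, val φ (cons x v)
  | .ex φ, v => ⨆ x : HS, val φ (cons x v)

/-- the distance of two assignments -/
noncomputable def agr (v w : ℕ → HS) : BB := ⨅ n, HS.eqv (v n) (w n)

theorem agr_cons (x : HS) (v w : ℕ → HS) : agr (cons x v) (cons x w) = agr v w := by
  apply le_antisymm
  · exact le_iInf fun n => iInf_le_of_le (n + 1) le_rfl
  · refine le_iInf fun n => ?_
    cases n with
    | zero =>
      change _ ≤ HS.eqv x x
      rw [HS.eqv_refl]; exact le_top
    | succ n => exact iInf_le _ n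

theorem agr_symm (v w : ℕ → HS) : agr v w = agr w v := by
  unfold agr
  simp only [HS.eqv_symm (v _) (w _)]

theorem val_agr (φ : Fml) (v w : ℕ → HS) : agr v w ⊓ val φ v ≤ val φ w := by
  induction φ generalizing v w with
  | mem i j =>
    simp only [val]
    calc agr v w ⊓ HS.memv (v i) (v j)
        ≤ (HS.eqv (v i) (w i) ⊓ HS.eqv (v j) (w j)) ⊓ HS.memv (v i) (v j) :=
          inf_le_inf_right _ (le_inf (iInf_le _ i) (iInf_le _ j))
      _ = HS.eqv (v j) (w j) ⊓ (HS.eqv (v i) (w i) ⊓ HS.memv (v i) (v j)) := by ac_rfl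
      _ ≤ HS.eqv (v j) (w j) ⊓ HS.memv (w i) (v j) :=
          inf_le_inf_left _ (HS.memv_congr_left _ _ _)
      _ ≤ HS.memv (w i) (w j) := HS.memv_congr_right _ _ _
  | eq i j =>
    simp only [val]
    calc agr v w ⊓ HS.eqv (v i) (v j)
        ≤ (HS.eqv (v i) (w i) ⊓ HS.eqv (v j) (w j)) ⊓ HS.eqv (v i) (v j) :=
          inf_le_inf_right _ (le_inf (iInf_le _ i) (iInf_le _ j))
      _ = HS.eqv (w i) (v i) ⊓ HS.eqv (v i) (v j) ⊓ HS.eqv (v j) (w j) := by
          rw [HS.eqv_symm (w i)]; ac_rfl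
      _ ≤ HS.eqv (w i) (v j) ⊓ HS.eqv (v j) (w j) := inf_le_inf_right _ (HS.eqv_trans _ _ _)
      _ ≤ HS.eqv (w i) (w j) := HS.eqv_trans _ _ _
  | neg φ ih =>
    simp only [val]
    have h := ih w v
    rw [agr_symm] at h
    rw [le_compl_iff_disjoint_right, disjoint_iff, ← le_bot_iff]
    calc agr v w ⊓ (val φ v)ᶜ ⊓ val φ w = (agr v w ⊓ val φ w) ⊓ (val φ v)ᶜ := by ac_rfl
      _ ≤ val φ v ⊓ (val φ v)ᶜ := inf_le_inf_right _ h
      _ = ⊥ := inf_compl_self _
  | and φ ψ ih1 ih2 =>
    simp only [val]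
    exact le_inf (le_trans (inf_le_inf_left _ inf_le_left) (ih1 v w))
      (le_trans (inf_le_inf_left _ inf_le_right) (ih2 v w))
  | or φ ψ ih1 ih2 =>
    simp only [val]
    rw [inf_sup_left]
    exact sup_le_sup (ih1 v w) (ih2 v w)
  | imp φ ψ ih1 ih2 =>
    simp only [val]
    rw [le_himp_iff]
    have h := ih1 w v
    rw [agr_symm] at h
    calc agr v w ⊓ (val φ v ⇨ val ψ v) ⊓ val φ w
        ≤ agr v w ⊓ ((val φ v ⇨ val ψ v) ⊓ (agr v w ⊓ val φ w)) :=
          le_inf (le_trans inf_le_left inf_le_left)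
            (le_inf (le_trans inf_le_left inf_le_right)
              (inf_le_inf_right _ inf_le_left))
      _ ≤ agr v w ⊓ ((val φ v ⇨ val ψ v) ⊓ val φ v) :=
          inf_le_inf_left _ (inf_le_inf_left _ h)
      _ ≤ agr v w ⊓ val ψ v := inf_le_inf_left _ himp_inf_le
      _ ≤ val ψ w := ih2 v w
  | all φ ih =>
    simp only [val]
    refine le_iInf fun x => ?_
    calc agr v w ⊓ ⨅ x, val φ (cons x v) ≤ agr (cons x v) (cons x w) ⊓ val φ (cons x v) := by
          rw [agr_cons]; exact inf_le_inf_left _ (iInf_le _ x)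
      _ ≤ val φ (cons x w) := ih _ _
  | ex φ ih =>
    simp only [val]
    rw [inf_iSup_eq]
    refine iSup_mono fun x => ?_
    have h := ih (cons x v) (cons x w)
    rwa [agr_cons] at h

theorem val_cons_ext (φ : Fml) (v : ℕ → HS) : HS.Ext fun x => val φ (cons x v) := by
  intro x y
  refine le_trans (inf_le_inf_right _ ?_) (val_agr φ (cons x v) (cons y v))
  refine le_iInf fun n => ?_
  cases n with
  | zero => exact le_rfl
  | succ n =>
    change _ ≤ HS.eqv (v n) (v n)
    rw [HS.eqv_refl]; exact le_top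

theorem map_cons (g : Gm) (x : HS) (v : ℕ → HS) :
    (fun n => (cons x v n).map g) = cons (x.map g) (fun n => (v n).map g) := by
  funext n
  cases n <;> rfl

/-- equivariance of truth values -/
theorem val_map (g : Gm) (φ : Fml) (v : ℕ → HS) :
    val φ (fun n => (v n).map g) = tr g (val φ v) := by
  induction φ generalizing v with
  | mem i j => simp only [val, HS.memv_map]
  | eq i j => simp only [val, HS.eqv_map]
  | neg φ ih => simp only [val, ih, tr_compl]
  | and φ ψ ih1 ih2 => simp only [val, ih1, ih2, tr_inf]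
  | or φ ψ ih1 ih2 => simp only [val, ih1, ih2, tr_sup]
  | imp φ ψ ih1 ih2 => simp only [val, ih1, ih2, tr_himp]
  | all φ ih =>
    simp only [val, tr_iInf]
    simp only [← ih, map_cons]
    apply le_antisymm
    · exact le_iInf fun x => iInf_le _ _
    · refine le_iInf fun x => ?_
      refine le_trans (iInf_le _ (x.map g)) ?_
      rw [HS.map_self]
  | ex φ ih =>
    simp only [val, tr_iSup]
    simp only [← ih, map_cons]
    apply le_antisymm
    · refine iSup_le fun x => ?_
      refine le_trans ?_ (le_iSup _ (x.map g))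
      rw [HS.map_self]
    · exact iSup_le fun x => le_iSup (fun y => val φ (cons y fun n => (v n).map g)) (x.map g)

/-! ## Renaming of variables, free variables -/

/-- extension of a renaming under a quantifier -/
def lft (f : ℕ → ℕ) : ℕ → ℕ
  | 0 => 0
  | n + 1 => f n + 1

/-- renaming of variables -/
def Fml.ren : (ℕ → ℕ) → Fml → Fml
  | f, .mem i j => .mem (f i) (f j)
  | f, .eq i j => .eq (f i) (f j)
  | f, .neg φ => .neg (φ.ren f)
  | f, .and φ ψ => .and (φ.ren f) (ψ.ren f)
  | f, .or φ ψ => .or (φ.ren f) (ψ.ren f)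
  | f, .imp φ ψ => .imp (φ.ren f) (ψ.ren f)
  | f, .all φ => .all (φ.ren (lft f))
  | f, .ex φ => .ex (φ.ren (lft f))

theorem cons_lft {M : Type*} (x : M) (v : ℕ → M) (f : ℕ → ℕ) :
    (fun n => cons x v (lft f n)) = cons x (fun n => v (f n)) := by
  funext n
  cases n <;> rfl

theorem val_ren (φ : Fml) (f : ℕ → ℕ) (v : ℕ → HS) :
    val (φ.ren f) v = val φ (fun n => v (f n)) := by
  induction φ generalizing v f with
  | mem i j => rfl
  | eq i j => rfl
  | neg φ ih => simp only [Fml.ren, val, ih]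
  | and φ ψ ih1 ih2 => simp only [Fml.ren, val, ih1, ih2]
  | or φ ψ ih1 ih2 => simp only [Fml.ren, val, ih1, ih2]
  | imp φ ψ ih1 ih2 => simp only [Fml.ren, val, ih1, ih2]
  | all φ ih => simp only [Fml.ren, val, ih, cons_lft]
  | ex φ ih => simp only [Fml.ren, val, ih, cons_lft]

theorem Sat_ren {M : Type*} (E : M → M → Prop) (φ : Fml) (f : ℕ → ℕ) (v : ℕ → M) :
    Sat E (φ.ren f) v ↔ Sat E φ (fun n => v (f n)) := by
  induction φ generalizing v f with
  | mem i j => exact Iff.rfl
  | eq i j => exact Iff.rfl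
  | neg φ ih => simp only [Fml.ren, Sat, ih]
  | and φ ψ ih1 ih2 => simp only [Fml.ren, Sat, ih1, ih2]
  | or φ ψ ih1 ih2 => simp only [Fml.ren, Sat, ih1, ih2]
  | imp φ ψ ih1 ih2 => simp only [Fml.ren, Sat, ih1, ih2]
  | all φ ih => simp only [Fml.ren, Sat, ih, cons_lft]
  | ex φ ih => simp only [Fml.ren, Sat, ih, cons_lft]

/-- all free variables of `φ` are less than `φ.bd` -/
def Fml.bd : Fml → ℕ
  | .mem i j => max (i + 1) (j + 1)
  | .eq i j => max (i + 1) (j + 1)
  | .neg φ => φ.bd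
  | .and φ ψ => max φ.bd ψ.bd
  | .or φ ψ => max φ.bd ψ.bd
  | .imp φ ψ => max φ.bd ψ.bd
  | .all φ => φ.bd
  | .ex φ => φ.bd

theorem cons_agree {M : Type*} {N : ℕ} {x : M} {v w : ℕ → M} (h : ∀ n < N, v n = w n) :
    ∀ n < N, cons x v n = cons x w n := by
  intro n hn
  cases n with
  | zero => rfl
  | succ n => exact h n (Nat.lt_of_succ_lt hn)

theorem val_bd (φ : Fml) (v w : ℕ → HS) (h : ∀ n < φ.bd, v n = w n) : val φ v = val φ w := by
  induction φ generalizing v w with
  | mem i j =>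
    simp only [Fml.bd] at h
    simp only [val]
    rw [h i (by omega), h j (by omega)]
  | eq i j =>
    simp only [Fml.bd] at h
    simp only [val]
    rw [h i (by omega), h j (by omega)]
  | neg φ ih => simp only [val, ih v w h]
  | and φ ψ ih1 ih2 =>
    simp only [Fml.bd] at h
    simp only [val, ih1 v w (fun n hn => h n (by omega)), ih2 v w (fun n hn => h n (by omega))]
  | or φ ψ ih1 ih2 =>
    simp only [Fml.bd] at h
    simp only [val, ih1 v w (fun n hn => h n (by omega)), ih2 v w (fun n hn => h n (by omega))]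
  | imp φ ψ ih1 ih2 =>
    simp only [Fml.bd] at h
    simp only [val, ih1 v w (fun n hn => h n (by omega)), ih2 v w (fun n hn => h n (by omega))]
  | all φ ih =>
    simp only [val]
    exact iInf_congr fun x => ih _ _ (cons_agree h)
  | ex φ ih =>
    simp only [val]
    exact iSup_congr fun x => ih _ _ (cons_agree h)

theorem val_eqv_top (φ : Fml) (v w : ℕ → HS) (h : ∀ n < φ.bd, HS.eqv (v n) (w n) = ⊤) :
    val φ v = val φ w := by
  classical
  set w' : ℕ → HS := fun n => if n < φ.bd then w n else v n with hw'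
  have h1 : val φ w' = val φ w := val_bd φ _ _ fun n hn => by simp [hw', hn]
  have h2 : agr v w' = ⊤ := by
    rw [eq_top_iff]
    refine le_iInf fun n => ?_
    by_cases hn : n < φ.bd
    · simp only [hw', hn, if_true, h n hn, le_refl]
    · simp only [hw', hn, if_false, HS.eqv_refl, le_refl]
  rw [← h1]
  apply le_antisymm
  · have := val_agr φ v w'
    rwa [h2, top_inf_eq] at this
  · have := val_agr φ w' v
    rwa [agr_symm, h2, top_inf_eq] at this

/-- For every formula with parameters there is `m` such that its truth value, as a functional of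
the variable `0`, is equivariant under `Γ_{≥ m}`. -/
theorem val_inv (φ : Fml) (v : ℕ → HS) :
    ∃ m, ∀ g ∈ Fi m, ∀ x : HS, val φ (cons (x.map g) v) = tr g (val φ (cons x v)) := by
  have h : ∀ N : ℕ, ∃ m, ∀ n < N, ∀ g ∈ Fi m, HS.eqv ((v n).map g) (v n) = ⊤ := by
    intro N
    induction N with
    | zero => exact ⟨0, fun n hn => absurd hn (Nat.not_lt_zero n)⟩
    | succ N ih =>
      obtain ⟨m, hm⟩ := ih
      obtain ⟨k, hk⟩ := (v N).exists_inv
      refine ⟨max m k, fun n hn g hg => ?_⟩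
      rcases Nat.lt_succ_iff_lt_or_eq.1 hn with h1 | h1
      · exact hm n h1 g (Fi_anti (le_max_left _ _) hg)
      · subst h1
        exact hk g (Fi_anti (le_max_right _ _) hg)
  obtain ⟨m, hm⟩ := h φ.bd
  refine ⟨m, fun g hg x => ?_⟩
  rw [← val_map, map_cons]
  apply val_eqv_top
  intro n hn
  cases n with
  | zero => exact HS.eqv_refl _
  | succ n =>
    rw [HS.eqv_symm]
    exact hm n (Nat.lt_of_succ_lt hn) g hg

end BC
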