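import Pool.Agent.Work.MP_51da30_lc.Alg

/-!
# MP_51da30_lc, module RS : Rasiowa-Sikorski lemma for `BB`

Proof. Build a decreasing sequence `d 0 = c`, `d k ≠ ⊥`, such that for each `k` either
`d (k+1) ≤ (sSup (S k))ᶜ` or there is `b ∈ S k` with `d (k+1) ≤ b`: if `d k ⊓ sSup (S k) = ⊥` put
`d (k+1) = d k`; otherwise `d k ⊓ sSup (S k) = ⨆ b ∈ S k, d k ⊓ b ≠ ⊥` (`inf_sSup_eq`), so some
`b ∈ S k` has `d k ⊓ b ≠ ⊥` and `d (k+1) = d k ⊓ b`. The sets `(d k).1 : Set Gm` are nonempty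
(`BB.ne_bot_iff`) and decreasing, so they generate a proper filter on `Gm`; let `U` be an
ultrafilter on `Gm` containing all of them (`Ultrafilter.of`), and `G = {b : BB | b.1 ∈ U}`.
The finite operations of `BB` are those of sets (`BB.coe_inf`, `BB.coe_compl`, `BB.le_def`).
-/

namespace BC

open Filter in
theorem exists_generic (c : BB) (hc : c ≠ ⊥) (S : ℕ → Set BB) :
    ∃ G : Set BB, c ∈ G ∧ (∀ a ∈ G, ∀ b, a ≤ b → b ∈ G) ∧ (∀ a ∈ G, ∀ b ∈ G, a ⊓ b ∈ G) ∧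
      ⊥ ∉ G ∧ (∀ a, a ∈ G ∨ aᶜ ∈ G) ∧ ∀ k, sSup (S k) ∈ G → ∃ b ∈ S k, b ∈ G := by
  classical
  have step : ∀ (k : ℕ) (d : {d : BB // d ≠ ⊥}), ∃ d' : {d : BB // d ≠ ⊥}, d'.1 ≤ d.1 ∧
      (d'.1 ≤ (sSup (S k))ᶜ ∨ ∃ b ∈ S k, d'.1 ≤ b) := by
    intro k d
    by_cases h : ∃ b ∈ S k, d.1 ⊓ b ≠ ⊥
    · obtain ⟨b, hb, hdb⟩ := h
      exact ⟨⟨d.1 ⊓ b, hdb⟩, inf_le_left, Or.inr ⟨b, hb, inf_le_right⟩⟩
    · push Not at h
      refine ⟨d, le_rfl, Or.inl ?_⟩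
      rw [le_compl_iff_disjoint_right, disjoint_iff, inf_sSup_eq]
      apply le_antisymm _ bot_le
      exact iSup₂_le fun b hb => (h b hb).le
  choose f hf1 hf2 using step
  let D : ℕ → {d : BB // d ≠ ⊥} := fun n => Nat.rec ⟨c, hc⟩ (fun k d => f k d) n
  have hD : ∀ k, D (k + 1) = f k (D k) := fun k => rfl
  have hanti : Antitone fun k => (D k).1 := antitone_nat_of_succ_le fun k => by
    rw [hD]; exact hf1 k (D k)
  let F : Filter Gm := ⨅ k, 𝓟 (D k).1.1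
  have hF : F.NeBot := by
    apply iInf_neBot_of_directed'
    · apply Antitone.directed_ge
      intro m n hmn
      exact principal_mono.2 (hanti hmn)
    · intro k
      rw [principal_neBot_iff]
      exact BB.ne_bot_iff.1 (D k).2
  let U : Ultrafilter Gm := @Ultrafilter.of Gm F hF
  have hU : ∀ k, (D k).1.1 ∈ U := by
    intro k
    have h1 : (D k).1.1 ∈ F := mem_iInf_of_mem k (mem_principal_self _)
    have h2 : (U : Filter Gm) ≤ F := @Ultrafilter.of_le Gm F hF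
    exact h2 h1
  refine ⟨{b : BB | b.1 ∈ U}, hU 0, ?_, ?_, ?_, ?_, ?_⟩
  · intro a ha b hab
    exact U.mem_of_superset ha hab
  · intro a ha b hb
    exact U.inter_mem ha hb
  · intro h
    exact U.empty_notMem h
  · intro a
    exact U.mem_or_compl_mem a.1
  · intro k hk
    rcases hf2 k (D k) with h | ⟨b, hb, h⟩
    · exfalso
      have h1 : ((sSup (S k))ᶜ : BB).1 ∈ U := U.mem_of_superset (hU (k + 1)) h
      have h2 : ((sSup (S k) : BB) ⊓ (sSup (S k))ᶜ).1 ∈ U := U.inter_mem hk h1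
      rw [inf_compl_self] at h2
      exact U.empty_notMem h2
    · exact ⟨b, hb, U.mem_of_superset (hU (k + 1)) h⟩

end BC
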