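import Pool.Agent.Work.MP_51da30_lc.Clo
import Pool.Agent.Work.MP_51da30_lc.RS

/-!
# MP_51da30_lc, module Model : two-valued models

Proof of `exists_model`. Let `C` be as in `exists_closed`, `e : ℕ → HS` a surjection onto `C`.
Enumerate all pairs `(φ, ℓ)`, `φ` a formula and `ℓ` a list of elements of `C` (a countable set);
for each pair take the set `S = {val φ (cons x v_ℓ) : x ∈ C}` where `v_ℓ n = ℓ.getD n x₀`, `x₀ ∈ C`,
and let `G` be as in `exists_generic` for this sequence of sets. Then for every `φ` and every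
`v : ℕ → HS` with values in `C`: `⨆ x : HS, val φ (cons x v) ∈ G` iff some `x ∈ C` has
`val φ (cons x v) ∈ G` (by `exists_closed`, and `val_bd` to replace `v` by `v_ℓ`,
`ℓ = [v 0, …, v (φ.bd - 1)]`).
`M` is the quotient of `ℕ` by the equivalence relation `HS.eqv (e m) (e n) ∈ G`
(`HS.eqv_refl`, `HS.eqv_symm`, `HS.eqv_trans`), `E ⟦m⟧ ⟦n⟧ := HS.memv (e m) (e n) ∈ G`
(well defined by `HS.memv_congr_left`, `HS.memv_congr_right`), `p x = ⟦m⟧` for some `m` with
`e m = x` if `x ∈ C`, and `p x = ⟦0⟧` otherwise. The statement `los` is proved by induction on `φ`: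
for `all φ` use that `⨅ x, val φ (cons x v) ∈ G` iff `⨆ x, val (neg φ) (cons x v) ∉ G`
(`compl_iInf`).
-/

namespace BC

/-- `(M, E)` is a two-valued quotient of the class of names `C`, by the ultrafilter `G`, for
which the truth lemma holds. -/
structure IsModel {M : Type} (E : M → M → Prop) (C : Set HS) (p : HS → M) (G : Set BB) :
    Prop where
  up : ∀ a ∈ G, ∀ b, a ≤ b → b ∈ G
  inf : ∀ a ∈ G, ∀ b ∈ G, a ⊓ b ∈ G
  bot : ⊥ ∉ G
  ultra : ∀ a, a ∈ G ∨ aᶜ ∈ G
  surj : ∀ m, ∃ x ∈ C, p x = m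
  los : ∀ (φ : Fml) (v : ℕ → HS), (∀ n, v n ∈ C) →
    (Sat E φ (fun n => p (v n)) ↔ val φ v ∈ G)

theorem exists_model (c : BB) (hc : c ≠ ⊥) (P : Set HS) (hP : P.Countable) :
    ∃ (M : Type) (E : M → M → Prop) (C : Set HS) (p : HS → M) (G : Set BB),
      IsModel E C p G ∧ P ⊆ C ∧ c ∈ G := by
  classical
  obtain ⟨C, hPC, hCc, hCne, hC⟩ := exists_closed P hP
  obtain ⟨e, he⟩ := hCc.exists_eq_range hCne
  have heC : ∀ m, e m ∈ C := fun m => by rw [he]; exact ⟨m, rfl⟩
  have hidx : ∀ x ∈ C, ∃ m, e m = x := fun x hx => by rw [he] at hx; exact hx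
  have : Nonempty (Fml × List ℕ) := ⟨(Fml.mem 0 0, [])⟩
  obtain ⟨en, hen⟩ := exists_surjective_nat (Fml × List ℕ)
  let vl : List ℕ → ℕ → HS := fun l n => e (l.getD n 0)
  let S : ℕ → Set BB := fun k => Set.range fun m => val (en k).1 (cons (e m) (vl (en k).2))
  obtain ⟨G, hcG, hup, hinf, hbot, hult, hgen⟩ := exists_generic c hc S
  have htop : (⊤ : BB) ∈ G := hup c hcG ⊤ le_top
  have hcompl : ∀ a, aᶜ ∈ G ↔ a ∉ G := by
    intro a
    constructor
    · intro h1 h2
      have := hinf a h2 _ h1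
      rw [inf_compl_self] at this
      exact hbot this
    · intro h1
      exact (hult a).resolve_left h1
  have hand : ∀ a b, a ⊓ b ∈ G ↔ a ∈ G ∧ b ∈ G := fun a b =>
    ⟨fun h => ⟨hup _ h _ inf_le_left, hup _ h _ inf_le_right⟩, fun h => hinf a h.1 b h.2⟩
  have hor : ∀ a b, a ⊔ b ∈ G ↔ a ∈ G ∨ b ∈ G := by
    intro a b
    rw [← not_iff_not, ← hcompl, compl_sup, hand, hcompl, hcompl, not_or]
  have himp' : ∀ a b : BB, (a ⇨ b) ∈ G ↔ (a ∈ G → b ∈ G) := by
    intro a b
    rw [himp_eq, hor, hcompl]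
    tauto
  -- witnesses
  have hwit : ∀ (φ : Fml) (v : ℕ → HS), (∀ n, v n ∈ C) →
      ((⨆ x : HS, val φ (cons x v)) ∈ G ↔ ∃ x ∈ C, val φ (cons x v) ∈ G) := by
    intro φ v hv
    constructor
    · intro h
      choose ix hix using fun n => hidx (v n) (hv n)
      obtain ⟨k, hk⟩ := hen (φ, (List.range φ.bd).map ix)
      have hvl : ∀ n < φ.bd, vl (en k).2 n = v n := by
        intro n hn
        have : (en k).2 = (List.range φ.bd).map ix := by rw [hk]
        simp only [vl, this]
        rw [List.getD_eq_getElem _ _ (by simpa using hn)]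
        simp [hix]
      have hval : ∀ x, val (en k).1 (cons x (vl (en k).2)) = val φ (cons x v) := by
        intro x
        have h1 : (en k).1 = φ := by rw [hk]
        rw [h1]
        exact val_bd φ _ _ (cons_agree hvl)
      have h2 : (⨆ x : C, val φ (cons x.1 v)) ≤ sSup (S k) := by
        refine iSup_le fun x => ?_
        obtain ⟨m, hm⟩ := hidx x.1 x.2
        apply le_sSup
        refine ⟨m, ?_⟩
        simp only
        rw [hval, hm]
      obtain ⟨b, ⟨m, hm⟩, hbG⟩ := hgen k (hup _ h _ ((hC φ v hv).trans h2))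
      refine ⟨e m, heC m, ?_⟩
      simp only at hm
      rw [hval] at hm
      rw [hm]
      exact hbG
    · rintro ⟨x, _, hx⟩
      exact hup _ hx _ (le_iSup (fun x : HS => val φ (cons x v)) x)
  -- the quotient
  let s : Setoid ℕ :=
    { r := fun m n => HS.eqv (e m) (e n) ∈ G
      iseqv :=
        { refl := fun m => by rw [HS.eqv_refl]; exact htop
          symm := fun {m n} h => by rw [HS.eqv_symm]; exact h
          trans := fun {m n k} h1 h2 => hup _ (hinf _ h1 _ h2) _ (HS.eqv_trans _ _ _) } }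
  let M : Type := Quotient s
  let E : M → M → Prop := Quotient.lift₂ (fun m n => HS.memv (e m) (e n) ∈ G) (by
    intro m n m' n' h1 h2
    have h1' : HS.eqv (e m) (e m') ∈ G := h1
    have h2' : HS.eqv (e n) (e n') ∈ G := h2
    apply propext
    constructor
    · intro h
      have h3 := hup _ (hinf _ h1' _ h) _ (HS.memv_congr_left _ _ _)
      exact hup _ (hinf _ h2' _ h3) _ (HS.memv_congr_right _ _ _)
    · intro h
      rw [HS.eqv_symm] at h1' h2'
      have h3 := hup _ (hinf _ h1' _ h) _ (HS.memv_congr_left _ _ _)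
      exact hup _ (hinf _ h2' _ h3) _ (HS.memv_congr_right _ _ _))
  let idx : HS → ℕ := fun x => if h : x ∈ C then (hidx x h).choose else 0
  have hidx' : ∀ x ∈ C, e (idx x) = x := by
    intro x hx
    simp only [idx, hx, dif_pos]
    exact (hidx x hx).choose_spec
  let p : HS → M := fun x => Quotient.mk s (idx x)
  have hEp : ∀ x ∈ C, ∀ y ∈ C, (E (p x) (p y) ↔ HS.memv x y ∈ G) := by
    intro x hx y hy
    change HS.memv (e (idx x)) (e (idx y)) ∈ G ↔ _
    rw [hidx' x hx, hidx' y hy]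
  have hpp : ∀ x ∈ C, ∀ y ∈ C, (p x = p y ↔ HS.eqv x y ∈ G) := by
    intro x hx y hy
    have h1 : p x = p y ↔ HS.eqv (e (idx x)) (e (idx y)) ∈ G :=
      ⟨fun h => Quotient.exact h, fun h => Quotient.sound h⟩
    rw [h1, hidx' x hx, hidx' y hy]
  have hsurj : ∀ m : M, ∃ x ∈ C, p x = m := by
    intro m
    obtain ⟨k, rfl⟩ := Quotient.exists_rep m
    refine ⟨e k, heC k, ?_⟩
    apply Quotient.sound
    change HS.eqv (e (idx (e k))) (e k) ∈ G
    rw [hidx' _ (heC k), HS.eqv_refl]
    exact htop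
  have hcons : ∀ (x : HS) (v : ℕ → HS), cons (p x) (fun n => p (v n)) = fun n => p (cons x v n) := by
    intro x v
    funext n
    cases n <;> rfl
  have hconsC : ∀ x ∈ C, ∀ v : ℕ → HS, (∀ n, v n ∈ C) → ∀ n, cons x v n ∈ C := by
    intro x hx v hv n
    cases n with
    | zero => exact hx
    | succ n => exact hv n
  refine ⟨M, E, C, p, G, ⟨hup, hinf, hbot, hult, hsurj, ?_⟩, hPC, hcG⟩
  intro φ
  induction φ with
  | mem i j =>
    intro v hv
    exact hEp _ (hv i) _ (hv j)
  | eq i j =>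
    intro v hv
    exact hpp _ (hv i) _ (hv j)
  | neg φ ih =>
    intro v hv
    simp only [Sat, val]
    rw [ih v hv, hcompl]
  | and φ ψ ih1 ih2 =>
    intro v hv
    simp only [Sat, val]
    rw [ih1 v hv, ih2 v hv, hand]
  | or φ ψ ih1 ih2 =>
    intro v hv
    simp only [Sat, val]
    rw [ih1 v hv, ih2 v hv, hor]
  | imp φ ψ ih1 ih2 =>
    intro v hv
    simp only [Sat, val]
    rw [ih1 v hv, ih2 v hv, himp']
  | all φ ih =>
    intro v hv
    simp only [Sat, val]
    rw [← not_iff_not, ← hcompl, compl_iInf]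
    have h1 := hwit (.neg φ) v hv
    simp only [val] at h1
    rw [h1]
    push Not
    constructor
    · rintro ⟨m, hm⟩
      obtain ⟨x, hx, rfl⟩ := hsurj m
      refine ⟨x, hx, ?_⟩
      rw [hcompl, ← ih _ (hconsC x hx v hv), ← hcons]
      exact hm
    · rintro ⟨x, hx, h⟩
      refine ⟨p x, ?_⟩
      rw [hcompl, ← ih _ (hconsC x hx v hv), ← hcons] at h
      exact h
  | ex φ ih =>
    intro v hv
    simp only [Sat, val]
    rw [hwit φ v hv]
    constructor
    · rintro ⟨m, hm⟩
      obtain ⟨x, hx, rfl⟩ := hsurj m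
      refine ⟨x, hx, ?_⟩
      rw [← ih _ (hconsC x hx v hv), ← hcons]
      exact hm
    · rintro ⟨x, hx, h⟩
      refine ⟨p x, ?_⟩
      rw [← ih _ (hconsC x hx v hv), ← hcons] at h
      exact h

end BC
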