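import Pool.Agent.Work.MP_51da30_lc.Alg

/-!
# MP_51da30_lc, file Names : `B`-valued names

Names with values in `BB`, the truth values `eqv x y` of `x = y` and `memv x y` of `x ∈ y`,
the action of `Gm` on names.
-/

namespace BC

/-- `B`-valued names: `mk ι A b` is the set which contains `A i` with truth value `b i`. -/
inductive Nm : Type 1
  | mk (ι : Type) (A : ι → Nm) (b : ι → BB) : Nm

namespace Nm

/-- the index type of a name -/
def Ix : Nm → Type
  | mk ι _ _ => ι

/-- the elements of a name -/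
def el : (x : Nm) → x.Ix → Nm
  | mk _ A _ => A

/-- the truth values in a name -/
def bv : (x : Nm) → x.Ix → BB
  | mk _ _ b => b

end Nm

/-- The truth value of `x = y`. -/
noncomputable def eqv : Nm → Nm → BB
  | .mk _ A b, .mk _ C d =>
    (⨅ i, b i ⇨ ⨆ j, d j ⊓ eqv (A i) (C j)) ⊓ (⨅ j, d j ⇨ ⨆ i, b i ⊓ eqv (A i) (C j))

/-- The truth value of `x ∈ y`. -/
noncomputable def memv (x y : Nm) : BB := ⨆ j : y.Ix, y.bv j ⊓ eqv x (y.el j)

/-- The action of `g` on names. -/
def Nm.map (g : Gm) : Nm → Nm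
  | .mk ι A b => .mk ι (fun i => (A i).map g) (fun i => tr g (b i))

end BC
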