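import Pool.Agent.Work.MP_51da30_lc.Preds2

/-!
# MP_51da30_lc, module Omega : numerals and `ω`

Proofs. `IsHS (suc x)`: it is invariant under `Fi m` if `x` is (use `HS.inv_of_memv`: the value of
`z ∈ x ∪ {x}` is `memv z x ⊔ eqv z x`, `iSup_option`). `map_suc`: `Subtype.ext`, `cases` on the name and
on the index. `map_num` by induction. `eqv_num`: for `n < k`: `memv (num n) (num k) = ⊤` by induction on `k`,
and `memv (num n) (num n) = ⊥`: show by induction on `k` that for every `n ≥ k`,
`memv (num n) (num k) = ⊥` and hence `eqv (num n) (num k) = ⊥` for `n > k` (if `eqv (num n) (num k) = b`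
then `b = b ⊓ memv (num k) (num n) ≤ memv (num n) (num n)`...; a convenient way: foundation,
`memv x x = ⊥` for every name `x`, by induction on `x`: `b i ⊓ eqv x (A i) ≤ memv (A i) (A i)` as `b i ≤ memv (A i) x`).
`memv_omega`: unfold. `vOmega_omega`: `omega` is inductive: for `x` with value `⨅ y, (y.memv x)ᶜ` of being
empty, `HS.extv` gives `⨅ y, (y.memv x)ᶜ ≤ eqv x (num 0)`; closed under successor: by
`HS.iInf_memv`-like reduction to `x = num n`, and `vSucc y (num n) ≤ eqv y (num (n+1))` by `HS.extv`.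
Least: for every `u`, `vInductive u ≤ memv (num n) u` by induction on `n`. `vOmega_le`: `vOmega w` is `≤`
`w ⊆ omega` (as `omega` is inductive with value `⊤`) and, since `vOmega w ≤ vInductive w ≤ memv (num n) w`,
`omega ⊆ w`; `HS.extv` (or `HS.eqv_def`).
-/

namespace BC

/-- `x ∪ {x}` -/
noncomputable def Nm.suc : Nm → Nm
  | .mk ι A b => .mk (Option ι) (fun o => o.elim (.mk ι A b) A) (fun o => o.elim ⊤ b)

namespace HS

theorem suc_isHS (x : HS) : IsHS x.1.suc := by
  obtain ⟨m, hm⟩ := x.exists_inv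
  have h1 : ∀ z : HS, (⨆ o : Option x.Ix, (o.elim ⊤ x.bv : BB) ⊓ eqv z (o.elim x x.el)) =
      eqv z x ⊔ memv z x := by
    intro z
    rw [iSup_option]
    simp only [Option.elim_none, Option.elim_some, top_inf_eq]
    rfl
  have h2 := inv_of_memv (Option x.Ix) (fun o => o.elim x x.el) (fun o => o.elim ⊤ x.bv) m (by
    intro g hg z
    rw [h1, h1, tr_sup, ← eqv_map, ← memv_map]
    have h3 := hm g hg
    rw [eqv_symm (z.map g) (x.map g), eqv_of_eqv_top_left h3, eqv_symm x (z.map g),
      memv_of_eqv_top_right h3])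
  obtain ⟨y, hy⟩ := x
  cases y with
  | mk ι A b =>
    rw [Nm.suc, IsHS]
    refine ⟨⟨m, ?_⟩, ?_⟩
    · have h3 : (fun o : Option ι => (o.elim (⟨Nm.mk ι A b, hy⟩ : HS)
          (el ⟨Nm.mk ι A b, hy⟩)).1) = fun o => o.elim (Nm.mk ι A b) A := by
        funext o
        cases o <;> rfl
      change Inv m (Nm.mk (Option ι) (fun o : Option ι => (o.elim (⟨Nm.mk ι A b, hy⟩ : HS)
          (el ⟨Nm.mk ι A b, hy⟩)).1) (fun o => o.elim ⊤ b)) at h2
      rw [h3] at h2
      exact h2
    · intro o
      cases o with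
      | none => exact hy
      | some i => exact hy.el i

/-- `x ∪ {x}` -/
noncomputable def suc (x : HS) : HS := ⟨x.1.suc, suc_isHS x⟩

theorem memv_suc (z x : HS) : memv z (suc x) = memv z x ⊔ eqv z x := by
  obtain ⟨y, hy⟩ := x
  cases y with
  | mk ι A b =>
    have h : memv z (suc ⟨.mk ι A b, hy⟩) = ⨆ o : Option ι, (o.elim ⊤ b : BB) ⊓
        BC.eqv z.1 (o.elim (.mk ι A b) A) := rfl
    rw [h, iSup_option]
    simp only [Option.elim_none, Option.elim_some, top_inf_eq]
    rw [sup_comm]
    rfl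

theorem map_suc (g : Gm) (x : HS) : (suc x).map g = suc (x.map g) := by
  apply Subtype.ext
  obtain ⟨y, hy⟩ := x
  cases y with
  | mk ι A b =>
    change Nm.map g (Nm.suc (.mk ι A b)) = Nm.suc (Nm.map g (.mk ι A b))
    simp only [Nm.suc, Nm.map]
    congr 1
    · funext o
      cases o <;> rfl
    · funext o
      cases o <;> rfl

theorem zero_isHS : IsHS (.mk Empty (fun i => i.elim) (fun i => i.elim)) := by
  rw [IsHS]
  refine ⟨⟨0, ?_⟩, fun i => i.elim⟩
  have h := inv_of_memv Empty (fun i => i.elim) (fun i => i.elim) 0 (by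
    intro g _ z
    have : ∀ f : Empty → BB, (⨆ i, f i) = ⊥ := fun f => iSup_of_empty f
    rw [this, this, tr_bot])
  have e : (fun i : Empty => (i.elim : Nm)) = fun i : Empty => ((i.elim : HS)).1 :=
    funext fun i => i.elim
  rw [e]
  exact h

/-- the numerals -/
noncomputable def num : ℕ → HS
  | 0 => ⟨.mk Empty (fun i => i.elim) (fun i => i.elim), zero_isHS⟩
  | n + 1 => suc (num n)

theorem memv_num_zero (z : HS) : memv z (num 0) = ⊥ := by
  have h : memv z (num 0) = ⨆ i : Empty, (i.elim : BB) ⊓ BC.eqv z.1 i.elim := rfl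
  rw [h]
  exact iSup_of_empty _

theorem map_num (g : Gm) (n : ℕ) : (num n).map g = num n := by
  induction n with
  | zero =>
    apply Subtype.ext
    change Nm.map g (.mk Empty (fun i => i.elim) (fun i => i.elim)) =
      .mk Empty (fun i => i.elim) (fun i => i.elim)
    simp only [Nm.map]
    congr 1
    · funext i
      exact i.elim
    · funext i
      exact i.elim
  | succ n ih =>
    rw [num, map_suc, ih]

private theorem nm_memv_self (x : Nm) : BC.memv x x = ⊥ := by
  induction x with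
  | mk ι A b ih =>
    apply le_antisymm _ bot_le
    refine iSup_le fun i => ?_
    calc (Nm.mk ι A b).bv i ⊓ BC.eqv (Nm.mk ι A b) ((Nm.mk ι A b).el i)
        ≤ BC.memv ((Nm.mk ι A b).el i) (Nm.mk ι A b) ⊓
            BC.eqv (Nm.mk ι A b) ((Nm.mk ι A b).el i) :=
          inf_le_inf_right _ (BC.bv_le_memv _ _)
      _ = BC.eqv (Nm.mk ι A b) ((Nm.mk ι A b).el i) ⊓
            BC.memv ((Nm.mk ι A b).el i) (Nm.mk ι A b) := inf_comm _ _
      _ ≤ BC.memv ((Nm.mk ι A b).el i) ((Nm.mk ι A b).el i) := BC.memv_congr_right _ _ _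
      _ ≤ ⊥ := (ih i).le

theorem memv_self (x : HS) : memv x x = ⊥ := nm_memv_self x.1

private theorem memv_num_lt {n k : ℕ} (h : n < k) : memv (num n) (num k) = ⊤ := by
  induction k with
  | zero => exact absurd h (Nat.not_lt_zero n)
  | succ k ih =>
    rw [num, memv_suc]
    rcases Nat.lt_succ_iff_lt_or_eq.1 h with h1 | h1
    · rw [ih h1, top_sup_eq]
    · rw [h1, eqv_refl, sup_top_eq]

private theorem eqv_num_lt {n k : ℕ} (h : n < k) : eqv (num n) (num k) = ⊥ := by
  apply le_antisymm _ bot_le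
  have h1 := memv_congr_right (num n) (num k) (num n)
  rw [memv_num_lt h, inf_top_eq, memv_self, eqv_symm] at h1
  exact h1

theorem eqv_num {n k : ℕ} (h : n ≠ k) : eqv (num n) (num k) = ⊥ := by
  rcases lt_or_gt_of_ne h with h1 | h1
  · exact eqv_num_lt h1
  · rw [eqv_symm]
    exact eqv_num_lt h1

/-- the name of `ω` -/
noncomputable def omega : HS :=
  mk ℕ num (fun _ => ⊤) ⟨0, fun g _ => by
    have h : Nm.map g (.mk ℕ (fun i => (num i).1) (fun _ => ⊤)) =
        .mk ℕ (fun i => (num i).1) (fun _ => ⊤) := by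
      simp only [Nm.map, tr_top]
      congr 1
      funext i
      exact congrArg Subtype.val (map_num g i)
    rw [h]
    exact BC.eqv_refl _⟩

theorem memv_omega (z : HS) : memv z omega = ⨆ n, eqv z (num n) := by
  rw [omega, memv_mk]
  simp only [top_inf_eq]

end HS

private theorem succ_aux (x x' y : HS) : x.eqv x' ⊓ vSucc y x ≤ y.eqv (HS.suc x') := by
  refine le_trans (le_iInf fun z => ?_) (HS.extv y (HS.suc x'))
  have h1 : vSucc y x ≤ vIff (z.memv y) (z.memv x ⊔ z.eqv x) := iInf_le _ z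
  have h2 := HS.memv_congr_right z x x'
  have h3 := HS.memv_congr_right z x' x
  have h4 := HS.eqv_trans z x x'
  have h5 := HS.eqv_trans z x' x
  rw [HS.eqv_symm x' x] at h3 h5
  rw [HS.memv_suc]
  intro s hs
  have h1' := @h1 s
  have h2' := @h2 s
  have h3' := @h3 s
  have h4' := @h4 s
  have h5' := @h5 s
  simp only [vIff, BB.mem_inf, BB.mem_sup, BB.mem_himp] at *
  tauto

private theorem succ_top (x : HS) : vSucc (HS.suc x) x = ⊤ := by
  rw [eq_top_iff]
  refine le_iInf fun z => ?_
  rw [HS.memv_suc, vIff, himp_self, inf_top_eq]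

theorem vInductive_omega : vInductive HS.omega = ⊤ := by
  rw [eq_top_iff]
  refine le_inf (le_iInf fun x => ?_) (le_iInf fun x => ?_)
  · rw [le_himp_iff, top_inf_eq]
    have h1 : (⨅ y : HS, (y.memv x)ᶜ) ≤ x.eqv (HS.num 0) := by
      refine le_trans (le_iInf fun z => ?_) (HS.extv x (HS.num 0))
      rw [HS.memv_num_zero, himp_bot, bot_himp, inf_top_eq]
      exact iInf_le _ z
    rw [HS.memv_omega]
    exact h1.trans (le_iSup (fun n => x.eqv (HS.num n)) 0)
  · rw [le_himp_iff, top_inf_eq]
    refine le_iInf fun y => ?_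
    rw [le_himp_iff, HS.memv_omega, HS.memv_omega, iSup_inf_eq]
    refine iSup_le fun n => ?_
    exact (succ_aux x (HS.num n) y).trans (le_iSup (fun n => y.eqv (HS.num n)) (n + 1))

theorem vInductive_le (u : HS) (n : ℕ) : vInductive u ≤ (HS.num n).memv u := by
  induction n with
  | zero =>
    have h1 : vInductive u ≤ (⨅ y : HS, (y.memv (HS.num 0))ᶜ) ⇨ (HS.num 0).memv u :=
      inf_le_left.trans (iInf_le _ (HS.num 0))
    have h2 : (⨅ y : HS, (y.memv (HS.num 0))ᶜ) = ⊤ := by
      rw [eq_top_iff]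
      refine le_iInf fun y => ?_
      rw [HS.memv_num_zero, compl_bot]
    rwa [h2, top_himp] at h1
  | succ n ih =>
    have h1 : vInductive u ≤ (HS.num n).memv u ⇨
        ⨅ y : HS, vSucc y (HS.num n) ⇨ y.memv u := inf_le_right.trans (iInf_le _ (HS.num n))
    have h2 : vInductive u ≤ ⨅ y : HS, vSucc y (HS.num n) ⇨ y.memv u :=
      (le_inf h1 ih).trans himp_inf_le
    have h3 := h2.trans (iInf_le _ (HS.suc (HS.num n)))
    rw [succ_top, top_himp] at h3
    exact h3

private theorem ind_aux (u x : HS) : vInductive u ⊓ x.memv HS.omega ≤ x.memv u := by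
  rw [HS.memv_omega, inf_iSup_eq]
  refine iSup_le fun n => ?_
  have h1 := HS.memv_congr_left (HS.num n) x u
  rw [HS.eqv_symm, inf_comm] at h1
  exact (inf_le_inf_right _ (vInductive_le u n)).trans h1

theorem vOmega_omega : vOmega HS.omega = ⊤ := by
  rw [eq_top_iff]
  refine le_inf vInductive_omega.ge (le_iInf fun u => ?_)
  rw [le_himp_iff, top_inf_eq]
  refine le_iInf fun x => ?_
  rw [le_himp_iff]
  exact ind_aux u x

theorem vOmega_le (w : HS) : vOmega w ≤ w.eqv HS.omega := by
  refine le_trans (le_iInf fun z => ?_) (HS.extv w HS.omega)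
  refine le_inf ?_ ?_
  · have h1 : vOmega w ≤ vInductive HS.omega ⇨ ⨅ x : HS, x.memv w ⇨ x.memv HS.omega :=
      inf_le_right.trans (iInf_le _ HS.omega)
    rw [vInductive_omega, top_himp] at h1
    exact h1.trans (iInf_le _ z)
  · rw [le_himp_iff]
    exact (inf_le_inf_right _ inf_le_left).trans (ind_aux w z)

end BC
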