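import Pool.Agent.Work.MP_51da30_lc.Preds2

/-!
# MP_51da30_lc, module Pair : names of unordered and ordered pairs

Proofs. `memv_upr`: unfold, `iSup_bool_eq`. `map_upr`: `Subtype.ext`, cases on the index. For the others
note that the *finite* operations of `BB` are pointwise (`BB.mem_inf`, `BB.mem_sup`): to prove an
equality of two finite Boolean expressions it is enough to show that they contain the same points
`s : Gm`, where the usual rules of equality hold: `s ∈ eqv x x`, symmetry, and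
`s ∈ eqv x y → s ∈ eqv y z → s ∈ eqv x z`.
`eqv_upr`: by `HS.eqv_def` and `memv_upr` (the index types are `Bool`), the value of
`{x, y} = {x', y'}` is a finite expression: `s` belongs to it iff
`(x = x' ∨ x = y') ∧ (y = x' ∨ y = y') ∧ (x' = x ∨ x' = y) ∧ (y' = x ∨ y' = y)` at `s`.
`eqv_opr` follows by a propositional argument at `s`.
`vOPair_eq`: `≤`: for all `c d`, the three infima in `vOPair` give, by `HS.extv`,
`c = {x}`, `d = {x, y}`, `z = {c, d}`, hence `z = opr x y` (write `vIff`, use `memv_upr`). `≥`: take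
`c = upr x x`, `d = upr x y`; the three infima are `≥ eqv z (opr x y)`.
`vApp_eq`: `⨆ z, eqv z (opr x y) ⊓ memv z f = memv (opr x y) f`.
-/

namespace BC
namespace HS

theorem eqv_map_right' {g : Gm} {a : HS} (h : eqv (a.map g) a = ⊤) (z : HS) :
    eqv (z.map g) a = tr g (eqv z a) := by
  rw [← eqv_map, eqv_symm _ a, eqv_symm _ (a.map g)]
  exact (eqv_of_eqv_top_left h _).symm

theorem upr_isHS (x y : HS) :
    IsHS (.mk Bool (fun b => cond b y.1 x.1) (fun _ => ⊤)) := by
  obtain ⟨m, hm⟩ := x.exists_inv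
  obtain ⟨k, hk⟩ := y.exists_inv
  have h1 : (fun b : Bool => cond b y.1 x.1) = fun b : Bool => (cond b y x).1 := by
    funext b
    cases b <;> rfl
  rw [h1, IsHS]
  refine ⟨⟨max m k, inv_of_memv Bool (fun b => cond b y x) (fun _ => ⊤) _ ?_⟩, fun b => ?_⟩
  · intro g hg z
    rw [iSup_bool_eq, iSup_bool_eq]
    simp only [cond_true, cond_false, top_inf_eq]
    rw [eqv_map_right' (hm g (Fi_anti (le_max_left _ _) hg)),
      eqv_map_right' (hk g (Fi_anti (le_max_right _ _) hg)), tr_sup]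
  · exact (cond b y x).2

/-- the unordered pair `{x, y}` -/
noncomputable def upr (x y : HS) : HS :=
  ⟨.mk Bool (fun b => cond b y.1 x.1) (fun _ => ⊤), upr_isHS x y⟩

theorem memv_upr (z x y : HS) : memv z (upr x y) = eqv z x ⊔ eqv z y := by
  change (⨆ b : Bool, (⊤ : BB) ⊓ BC.eqv z.1 (cond b y.1 x.1)) = _
  rw [iSup_bool_eq]
  simp only [cond_true, cond_false, top_inf_eq]
  exact sup_comm _ _

theorem map_upr (g : Gm) (x y : HS) : (upr x y).map g = upr (x.map g) (y.map g) := by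
  apply Subtype.ext
  simp only [HS.map, upr, Nm.map, tr_top]
  congr 1
  funext b
  cases b <;> rfl

/-- the ordered pair `(x, y)` -/
noncomputable def opr (x y : HS) : HS := upr (upr x x) (upr x y)

theorem map_opr (g : Gm) (x y : HS) : (opr x y).map g = opr (x.map g) (y.map g) := by
  rw [opr, opr, map_upr, map_upr, map_upr]

theorem eqv_upr (x y x' y' : HS) : eqv (upr x y) (upr x' y') =
    (memv y (upr x' y') ⊓ memv x (upr x' y')) ⊓ (memv y' (upr x y) ⊓ memv x' (upr x y)) := by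
  rw [eqv_def]
  change (⨅ i : Bool, (⊤ : BB) ⇨ memv ((upr x y).el i) (upr x' y')) ⊓
    (⨅ j : Bool, (⊤ : BB) ⇨ memv ((upr x' y').el j) (upr x y)) = _
  rw [iInf_bool_eq, iInf_bool_eq]
  simp only [top_himp]
  rfl

theorem eqv_upr_ge (x y x' y' : HS) : eqv x x' ⊓ eqv y y' ≤ eqv (upr x y) (upr x' y') := by
  rw [eqv_upr, memv_upr, memv_upr, memv_upr, memv_upr]
  refine le_inf (le_inf ?_ ?_) (le_inf ?_ ?_)
  · exact le_trans inf_le_right le_sup_right
  · exact le_trans inf_le_left le_sup_left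
  · rw [eqv_symm y' y]
    exact le_trans inf_le_right le_sup_right
  · rw [eqv_symm x' x]
    exact le_trans inf_le_left le_sup_left

theorem eqv_upr_le_left (x y z w : HS) : eqv (upr x y) (upr z w) ≤ eqv y z ⊔ eqv y w := by
  rw [eqv_upr, memv_upr]
  exact le_trans inf_le_left inf_le_left

theorem eqv_upr_le_right (x y z w : HS) : eqv (upr x y) (upr z w) ≤ eqv w x ⊔ eqv w y := by
  rw [eqv_upr, memv_upr, memv_upr, memv_upr]
  exact le_trans inf_le_right inf_le_left

theorem eqv_upr_le_right' (x y z w : HS) : eqv (upr x y) (upr z w) ≤ eqv z x ⊔ eqv z y := by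
  rw [eqv_upr, memv_upr, memv_upr, memv_upr, memv_upr]
  exact le_trans inf_le_right inf_le_right

theorem eqv_opr_le (x y x' y' : HS) : eqv (opr x y) (opr x' y') ≤ eqv x x' ⊓ eqv y y' := by
  intro s hs
  have hsym : ∀ {u v : HS}, s ∈ (eqv u v).1 → s ∈ (eqv v u).1 := fun {u v} h => by
    rw [eqv_symm]; exact h
  have htr : ∀ {u v w : HS}, s ∈ (eqv u v).1 → s ∈ (eqv v w).1 → s ∈ (eqv u w).1 :=
    fun {u v w} h1 h2 => eqv_trans u v w ⟨h1, h2⟩
  rw [opr, opr, eqv_upr] at hs
  have hB : s ∈ (eqv (upr x y) (upr x' x') ⊔ eqv (upr x y) (upr x' y')).1 := by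
    have := hs.1.1
    rwa [memv_upr] at this
  have hA : s ∈ (eqv (upr x x) (upr x' x') ⊔ eqv (upr x x) (upr x' y')).1 := by
    have := hs.1.2
    rwa [memv_upr] at this
  have hB' : s ∈ (eqv (upr x' y') (upr x x) ⊔ eqv (upr x' y') (upr x y)).1 := by
    have := hs.2.1
    rwa [memv_upr] at this
  have hx : s ∈ (eqv x x').1 := by
    rcases hA with h | h
    · have h1 := eqv_upr_le_left _ _ _ _ h
      rcases h1 with h1 | h1 <;> exact h1
    · have h1 := eqv_upr_le_right' _ _ _ _ h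
      rcases h1 with h1 | h1 <;> exact hsym h1
  refine ⟨hx, ?_⟩
  have hyx : s ∈ (eqv y x').1 → s ∈ (eqv y' x).1 → s ∈ (eqv y y').1 := fun h1 h2 =>
    htr (htr h1 (hsym hx)) (hsym h2)
  have hb' : s ∈ (eqv y' x).1 ∨ s ∈ (eqv y' y).1 := by
    rcases hB' with h | h
    · have h1 := eqv_upr_le_left _ _ _ _ h
      rcases h1 with h1 | h1 <;> exact Or.inl h1
    · exact eqv_upr_le_left _ _ _ _ h
  have hb : s ∈ (eqv y x').1 ∨ s ∈ (eqv y y').1 := by
    rcases hB with h | h
    · have h1 := eqv_upr_le_left _ _ _ _ h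
      rcases h1 with h1 | h1 <;> exact Or.inl h1
    · exact eqv_upr_le_left _ _ _ _ h
  rcases hb with h | h
  · rcases hb' with h' | h'
    · exact hyx h h'
    · exact hsym h'
  · exact h

theorem eqv_opr (x y x' y' : HS) : eqv (opr x y) (opr x' y') = eqv x x' ⊓ eqv y y' := by
  apply le_antisymm (eqv_opr_le x y x' y')
  refine le_trans (le_inf ?_ ?_) (eqv_upr_ge _ _ _ _)
  · exact le_trans (le_inf inf_le_left inf_le_left) (eqv_upr_ge _ _ _ _)
  · exact eqv_upr_ge _ _ _ _

end HS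

theorem eqv_le_vIff (z w u : HS) : z.eqv w ≤ vIff (u.memv z) (u.memv w) := by
  refine le_inf ?_ ?_
  · rw [le_himp_iff]
    exact HS.memv_congr_right _ _ _
  · rw [le_himp_iff, HS.eqv_symm]
    exact HS.memv_congr_right _ _ _

theorem iInf_vIff_le (c c' : HS) (F : HS → BB) (h : ∀ u : HS, u.memv c' = F u) :
    (⨅ u : HS, vIff (u.memv c) (F u)) ≤ c.eqv c' := by
  refine le_trans (le_iInf fun u => ?_) (HS.extv c c')
  rw [h]
  exact iInf_le _ u

theorem vOPair_eq (z x y : HS) : vOPair z x y = z.eqv (HS.opr x y) := by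
  apply le_antisymm
  · refine iSup_le fun c => iSup_le fun d => ?_
    have h1 : (⨅ u : HS, vIff (u.memv c) (u.eqv x)) ≤ c.eqv (HS.upr x x) :=
      iInf_vIff_le _ _ _ (fun u => by rw [HS.memv_upr, sup_idem])
    have h2 : (⨅ u : HS, vIff (u.memv d) (u.eqv x ⊔ u.eqv y)) ≤ d.eqv (HS.upr x y) :=
      iInf_vIff_le _ _ _ (fun u => HS.memv_upr _ _ _)
    have h3 : (⨅ u : HS, vIff (u.memv z) (u.eqv c ⊔ u.eqv d)) ≤ z.eqv (HS.upr c d) :=
      iInf_vIff_le _ _ _ (fun u => HS.memv_upr _ _ _)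
    calc _ ≤ c.eqv (HS.upr x x) ⊓ (d.eqv (HS.upr x y) ⊓ z.eqv (HS.upr c d)) :=
          inf_le_inf h1 (inf_le_inf h2 h3)
      _ = z.eqv (HS.upr c d) ⊓ (c.eqv (HS.upr x x) ⊓ d.eqv (HS.upr x y)) := by ac_rfl
      _ ≤ z.eqv (HS.upr c d) ⊓ (HS.upr c d).eqv (HS.opr x y) :=
          inf_le_inf_left _ (HS.eqv_upr_ge _ _ _ _)
      _ ≤ z.eqv (HS.opr x y) := HS.eqv_trans _ _ _
  · refine le_iSup_of_le (HS.upr x x) (le_iSup_of_le (HS.upr x y) ?_)
    refine le_inf (le_iInf fun u => ?_) (le_inf (le_iInf fun u => ?_) (le_iInf fun u => ?_))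
    · rw [HS.memv_upr, sup_idem, vIff, himp_self, inf_top_eq]
      exact le_top
    · rw [HS.memv_upr, vIff, himp_self, inf_top_eq]
      exact le_top
    · have h := eqv_le_vIff z (HS.opr x y) u
      have e : u.memv (HS.opr x y) = u.eqv (HS.upr x x) ⊔ u.eqv (HS.upr x y) :=
        HS.memv_upr _ _ _
      rwa [e] at h

theorem vApp_eq (x y f : HS) : vApp x y f = (HS.opr x y).memv f := by
  rw [vApp]
  simp only [vOPair_eq]
  apply le_antisymm
  · exact iSup_le fun z => HS.memv_congr_left _ _ _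
  · refine le_iSup_of_le (HS.opr x y) ?_
    rw [HS.eqv_refl, top_inf_eq]

end BC
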