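import Pool.Agent.Work.MP_51da30_lc.Preds2
import Pool.Agent.Work.MP_51da30_lc.Model
import Pool.Agent.Work.MP_51da30_lc.BAuf

/-!
# MP_51da30_lc, module PointUF : an ultrafilter at a point `s`

`a`, `r` are names, `s : Gm` a point with `s ∈ vBA a r`, and `X k` (`k : K`) a family of names. An
index set `e ⊆ K` is an *ultrafilter at `s`* (`PtUF`) if it has the properties below, which only
mention relations whose truth value contains `s`.

Proof of `exists_ptUF`. For a finite set `J : Finset K` let `c_J` be the (finite) infimum of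
`vBA a r` and of all the following elements of `BB` which contain `s`:
`(X k).memv a`, `(X k).eqv (X l)`, `vApp (X k) (X l) r`, `vInf a r (X j) (X k) (X l)`,
`vBot a r (X k)`, `vCompl a r (X k) (X l)` for `j, k, l ∈ J`. (For instance: `c_J` is the infimum of a
finite set `F : Finset BB`, with `s ∈ b.1` for all `b ∈ F`, so that `s ∈ c_J.1` and `c_J ≠ ⊥` by
`BB.ne_bot_iff`.) Let `M_J, E, C, p, G` be a model (`exists_model`) with `c_J ∈ G` and
`a, r, X k ∈ C` for `k ∈ J`. By `los` (with `Sat_fBA`, `val_fBA`, …) `IsBA E (p a) (p r)` holds, so there is an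
external ultrafilter `U_J` by `exists_ext_uf`. Let `e_J = {k ∈ J : s ∈ (X k).memv a, p (X k) ∈ U_J}`. It has
all the properties of `PtUF` for indices in `J`: e.g. if `k ∈ e_J`, `l ∈ J`, `s ∈ ((X l).memv a)` and
`s ∈ vApp (X k) (X l) r` then both values are `≥ c_J`, hence in `G`, so `E (p (X l)) (p a)` and
`App E (p (X k)) (p (X l)) (p r)`, so `p (X l) ∈ U_J`.
Let `D` be an ultrafilter on `Finset K` with `{J : k ∈ J} ∈ D` for all `k` (`Ultrafilter.of Filter.atTop`),
and `e = {k | ∀ᶠ J in D, k ∈ e_J}`. Every property of `PtUF` involves finitely many indices and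
passes to `e` (the last one by `Ultrafilter.eventually_or`).
-/

namespace BC

/-- `e` is an ultrafilter at the point `s`, on the names `X k`. -/
structure PtUF (a r : HS) {K : Type} (X : K → HS) (s : Gm) (e : Set K) : Prop where
  sub : ∀ k ∈ e, s ∈ ((X k).memv a).1
  eq : ∀ k ∈ e, ∀ l, s ∈ ((X k).eqv (X l)).1 → l ∈ e
  up : ∀ k ∈ e, ∀ l, s ∈ ((X l).memv a).1 → s ∈ (vApp (X k) (X l) r).1 → l ∈ e
  inf : ∀ k ∈ e, ∀ l ∈ e, ∀ j, s ∈ ((X j).memv a).1 → s ∈ (vInf a r (X j) (X k) (X l)).1 → j ∈ e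
  bot : ∀ k ∈ e, s ∉ (vBot a r (X k)).1
  ultra : ∀ k l, s ∈ ((X k).memv a).1 → s ∈ ((X l).memv a).1 →
    s ∈ (vCompl a r (X k) (X l)).1 → k ∈ e ∨ l ∈ e

private theorem mem_finf {K : Type} (s : Gm) (J : Finset K) (f : K → BB)
    (h : ∀ k ∈ J, s ∈ (f k).1) : s ∈ (J.inf f).1 := by
  classical
  induction J using Finset.induction with
  | empty => exact Set.mem_univ s
  | insert k J hk ih =>
    rw [Finset.inf_insert, BB.mem_inf]
    exact ⟨h k (Finset.mem_insert_self _ _), ih fun l hl => h l (Finset.mem_insert_of_mem hl)⟩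

open Classical in
/-- `b` if it contains `s`, and `⊤` otherwise -/
private noncomputable def cut (s : Gm) (b : BB) : BB := if s ∈ b.1 then b else ⊤

private theorem mem_cut (s : Gm) (b : BB) : s ∈ (cut s b).1 := by
  unfold cut
  split_ifs with h
  · exact h
  · exact Set.mem_univ s

private theorem cut_eq {s : Gm} {b : BB} (h : s ∈ b.1) : cut s b = b := if_pos h

/-- `PtUF` for the indices in `J` -/
private structure PtOn (a r : HS) {K : Type} (X : K → HS) (s : Gm) (J : Finset K) (e : Set K) :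
    Prop where
  sub : ∀ k ∈ e, s ∈ ((X k).memv a).1
  eq : ∀ k ∈ e, ∀ l ∈ J, s ∈ ((X k).eqv (X l)).1 → l ∈ e
  up : ∀ k ∈ e, ∀ l ∈ J, s ∈ ((X l).memv a).1 → s ∈ (vApp (X k) (X l) r).1 → l ∈ e
  inf : ∀ k ∈ e, ∀ l ∈ e, ∀ j ∈ J, s ∈ ((X j).memv a).1 → s ∈ (vInf a r (X j) (X k) (X l)).1 → j ∈ e
  bot : ∀ k ∈ e, s ∉ (vBot a r (X k)).1
  ultra : ∀ k ∈ J, ∀ l ∈ J, s ∈ ((X k).memv a).1 → s ∈ ((X l).memv a).1 →
    s ∈ (vCompl a r (X k) (X l)).1 → k ∈ e ∨ l ∈ e

private theorem exists_ptOn (a r : HS) {K : Type} (X : K → HS) (s : Gm) (hs : s ∈ (vBA a r).1)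
    (J : Finset K) : ∃ e : Set K, PtOn a r X s J e := by
  classical
  set c : BB := vBA a r ⊓ ((J.inf fun k => cut s ((X k).memv a)) ⊓
    ((J.inf fun k => J.inf fun l => cut s ((X k).eqv (X l))) ⊓
    ((J.inf fun k => J.inf fun l => cut s (vApp (X k) (X l) r)) ⊓
    ((J.inf fun j => J.inf fun k => J.inf fun l => cut s (vInf a r (X j) (X k) (X l))) ⊓
    ((J.inf fun k => cut s (vBot a r (X k))) ⊓
    (J.inf fun k => J.inf fun l => cut s (vCompl a r (X k) (X l)))))))) with hc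
  have hsc : s ∈ c.1 := by
    refine ⟨hs, mem_finf _ _ _ fun k _ => mem_cut _ _,
      mem_finf _ _ _ fun k _ => mem_finf _ _ _ fun l _ => mem_cut _ _,
      mem_finf _ _ _ fun k _ => mem_finf _ _ _ fun l _ => mem_cut _ _,
      mem_finf _ _ _ fun j _ => mem_finf _ _ _ fun k _ => mem_finf _ _ _ fun l _ => mem_cut _ _,
      mem_finf _ _ _ fun k _ => mem_cut _ _,
      mem_finf _ _ _ fun k _ => mem_finf _ _ _ fun l _ => mem_cut _ _⟩
  have hc0 : c ≠ ⊥ := BB.ne_bot_iff.2 ⟨s, hsc⟩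
  obtain ⟨M, E, C, p, G, hM, hP, hcG⟩ := exists_model c hc0 (insert a (insert r (X '' J)))
    (((J.countable_toSet.image X).insert r).insert a)
  have haC : a ∈ C := hP (Set.mem_insert _ _)
  have hrC : r ∈ C := hP (Set.mem_insert_of_mem _ (Set.mem_insert _ _))
  have hXC : ∀ k ∈ J, X k ∈ C := fun k hk => hP (Set.mem_insert_of_mem _
    (Set.mem_insert_of_mem _ ⟨k, hk, rfl⟩))
  have c1 : ∀ k ∈ J, s ∈ ((X k).memv a).1 → (X k).memv a ∈ G := by
    intro k hk h
    refine hM.up _ hcG _ ?_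
    refine le_trans inf_le_right (le_trans inf_le_left (le_trans (Finset.inf_le hk) ?_))
    rw [cut_eq h]
  have c2 : ∀ k ∈ J, ∀ l ∈ J, s ∈ ((X k).eqv (X l)).1 → (X k).eqv (X l) ∈ G := by
    intro k hk l hl h
    refine hM.up _ hcG _ ?_
    refine le_trans inf_le_right (le_trans inf_le_right (le_trans inf_le_left
      (le_trans (Finset.inf_le hk) (le_trans (Finset.inf_le hl) ?_))))
    rw [cut_eq h]
  have c3 : ∀ k ∈ J, ∀ l ∈ J, s ∈ (vApp (X k) (X l) r).1 → vApp (X k) (X l) r ∈ G := by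
    intro k hk l hl h
    refine hM.up _ hcG _ ?_
    refine le_trans inf_le_right (le_trans inf_le_right (le_trans inf_le_right
      (le_trans inf_le_left (le_trans (Finset.inf_le hk) (le_trans (Finset.inf_le hl) ?_)))))
    rw [cut_eq h]
  have c4 : ∀ j ∈ J, ∀ k ∈ J, ∀ l ∈ J, s ∈ (vInf a r (X j) (X k) (X l)).1 →
      vInf a r (X j) (X k) (X l) ∈ G := by
    intro j hj k hk l hl h
    refine hM.up _ hcG _ ?_
    refine le_trans inf_le_right (le_trans inf_le_right (le_trans inf_le_right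
      (le_trans inf_le_right (le_trans inf_le_left (le_trans (Finset.inf_le hj)
        (le_trans (Finset.inf_le hk) (le_trans (Finset.inf_le hl) ?_)))))))
    rw [cut_eq h]
  have c5 : ∀ k ∈ J, s ∈ (vBot a r (X k)).1 → vBot a r (X k) ∈ G := by
    intro k hk h
    refine hM.up _ hcG _ ?_
    refine le_trans inf_le_right (le_trans inf_le_right (le_trans inf_le_right
      (le_trans inf_le_right (le_trans inf_le_right (le_trans inf_le_left
        (le_trans (Finset.inf_le hk) ?_))))))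
    rw [cut_eq h]
  have c6 : ∀ k ∈ J, ∀ l ∈ J, s ∈ (vCompl a r (X k) (X l)).1 → vCompl a r (X k) (X l) ∈ G := by
    intro k hk l hl h
    refine hM.up _ hcG _ ?_
    refine le_trans inf_le_right (le_trans inf_le_right (le_trans inf_le_right
      (le_trans inf_le_right (le_trans inf_le_right (le_trans inf_le_right
        (le_trans (Finset.inf_le hk) (le_trans (Finset.inf_le hl) ?_)))))))
    rw [cut_eq h]
  -- the truth lemma for the predicates
  have m1 : ∀ x ∈ C, ∀ y ∈ C, (E (p x) (p y) ↔ x.memv y ∈ G) := by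
    intro x hx y hy
    exact hM.los (.mem 0 1) (cons x (fun _ => y)) (fun n => by
      match n with
      | 0 => exact hx
      | n + 1 => exact hy)
  have m2 : ∀ x ∈ C, ∀ y ∈ C, (p x = p y ↔ x.eqv y ∈ G) := by
    intro x hx y hy
    exact hM.los (.eq 0 1) (cons x (fun _ => y)) (fun n => by
      match n with
      | 0 => exact hx
      | n + 1 => exact hy)
  have m3 : ∀ x ∈ C, ∀ y ∈ C, (App E (p x) (p y) (p r) ↔ vApp x y r ∈ G) := by
    intro x hx y hy
    have h := hM.los (fApp 0 1 2) (cons x (cons y (fun _ => r))) (fun n => by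
      match n with
      | 0 => exact hx
      | 1 => exact hy
      | n + 2 => exact hrC)
    rw [Sat_fApp, val_fApp] at h
    exact h
  have m4 : ∀ z ∈ C, ∀ x ∈ C, ∀ y ∈ C,
      (IsInf E (p a) (p r) (p z) (p x) (p y) ↔ vInf a r z x y ∈ G) := by
    intro z hz x hx y hy
    have h := hM.los (fInf 0 1 2 3 4) (cons a (cons r (cons z (cons x (fun _ => y))))) (fun n => by
      match n with
      | 0 => exact haC
      | 1 => exact hrC
      | 2 => exact hz
      | 3 => exact hx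
      | n + 4 => exact hy)
    rw [Sat_fInf, val_fInf] at h
    exact h
  have m5 : ∀ x ∈ C, (IsBot E (p a) (p r) (p x) ↔ vBot a r x ∈ G) := by
    intro x hx
    have h := hM.los (fBot 0 1 2) (cons a (cons r (fun _ => x))) (fun n => by
      match n with
      | 0 => exact haC
      | 1 => exact hrC
      | n + 2 => exact hx)
    rw [Sat_fBot, val_fBot] at h
    exact h
  have m6 : ∀ x ∈ C, ∀ y ∈ C, (IsCompl E (p a) (p r) (p x) (p y) ↔ vCompl a r x y ∈ G) := by
    intro x hx y hy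
    have h := hM.los (fCompl 0 1 2 3) (cons a (cons r (cons x (fun _ => y)))) (fun n => by
      match n with
      | 0 => exact haC
      | 1 => exact hrC
      | 2 => exact hx
      | n + 3 => exact hy)
    rw [Sat_fCompl, val_fCompl] at h
    exact h
  have m7 : IsBA E (p a) (p r) := by
    have h := hM.los (fBA 0 1) (cons a (fun _ => r)) (fun n => by
      match n with
      | 0 => exact haC
      | n + 1 => exact hrC)
    rw [Sat_fBA, val_fBA] at h
    exact h.2 (hM.up _ hcG _ inf_le_left)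
  obtain ⟨U, u1, u2, u3, u4, u5⟩ := exists_ext_uf E (p a) (p r) m7
  refine ⟨{k | k ∈ J ∧ s ∈ ((X k).memv a).1 ∧ p (X k) ∈ U}, ?_⟩
  constructor
  · rintro k ⟨hk, h1, h2⟩
    exact h1
  · rintro k ⟨hk, h1, h2⟩ l hl h
    have hpe : p (X k) = p (X l) := (m2 _ (hXC k hk) _ (hXC l hl)).2 (c2 k hk l hl h)
    refine ⟨hl, ?_, ?_⟩
    · exact (HS.memv_congr_left (X k) (X l) a) ⟨h, h1⟩
    · rw [← hpe]; exact h2
  · rintro k ⟨hk, h1, h2⟩ l hl h h'
    exact ⟨hl, h, u2 _ h2 _ ((m1 _ (hXC l hl) _ haC).2 (c1 l hl h))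
      ((m3 _ (hXC k hk) _ (hXC l hl)).2 (c3 k hk l hl h'))⟩
  · rintro k ⟨hk, h1, h2⟩ l ⟨hl, h3, h4⟩ j hj h h'
    exact ⟨hj, h, u3 _ h2 _ h4 _ ((m1 _ (hXC j hj) _ haC).2 (c1 j hj h))
      ((m4 _ (hXC j hj) _ (hXC k hk) _ (hXC l hl)).2 (c4 j hj k hk l hl h'))⟩
  · rintro k ⟨hk, h1, h2⟩ h
    exact u4 _ h2 ((m5 _ (hXC k hk)).2 (c5 k hk h))
  · rintro k hk l hl h1 h2 h
    rcases u5 _ ((m1 _ (hXC k hk) _ haC).2 (c1 k hk h1)) _ ((m1 _ (hXC l hl) _ haC).2 (c1 l hl h2))
      ((m6 _ (hXC k hk) _ (hXC l hl)).2 (c6 k hk l hl h)) with h3 | h3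
    · exact Or.inl ⟨hk, h1, h3⟩
    · exact Or.inr ⟨hl, h2, h3⟩

theorem exists_ptUF (a r : HS) {K : Type} (X : K → HS) (s : Gm) (hs : s ∈ (vBA a r).1) :
    ∃ e : Set K, PtUF a r X s e := by
  classical
  choose e he using exists_ptOn a r X s hs
  set D : Ultrafilter (Finset K) := Ultrafilter.of Filter.atTop with hD
  have hJ : ∀ k : K, ∀ᶠ J in (D : Filter (Finset K)), k ∈ J := by
    intro k
    have h1 : ∀ᶠ J in (Filter.atTop : Filter (Finset K)), {k} ≤ J := Filter.eventually_ge_atTop _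
    have h2 : (D : Filter (Finset K)) ≤ Filter.atTop := Ultrafilter.of_le _
    exact (h1.filter_mono h2).mono fun J hJ => hJ (Finset.mem_singleton_self k)
  refine ⟨{k | ∀ᶠ J in (D : Filter (Finset K)), k ∈ e J}, ?_⟩
  constructor
  · intro k hk
    obtain ⟨J, hJ'⟩ := hk.exists
    exact (he J).sub k hJ'
  · intro k hk l h
    filter_upwards [hk, hJ l] with J h1 h2
    exact (he J).eq k h1 l h2 h
  · intro k hk l h h'
    filter_upwards [hk, hJ l] with J h1 h2
    exact (he J).up k h1 l h2 h h'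
  · intro k hk l hl j h h'
    filter_upwards [hk, hl, hJ j] with J h1 h2 h3
    exact (he J).inf k h1 l h2 j h3 h h'
  · intro k hk
    obtain ⟨J, hJ'⟩ := hk.exists
    exact (he J).bot k hJ'
  · intro k l h1 h2 h
    change (∀ᶠ J in (D : Filter (Finset K)), k ∈ e J) ∨ (∀ᶠ J in (D : Filter (Finset K)), l ∈ e J)
    rw [← Ultrafilter.eventually_or]
    filter_upwards [hJ k, hJ l] with J h3 h4
    exact (he J).ultra k h3 l h4 h1 h2 h

end BC
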