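import Pool.Agent.Work.MP_51da30_lc.HS

/-!
# MP_51da30_lc, file Preds : formulas for the notions of the statement, and their truth values

For every notion `X` of `Defs.lean` there are: the formula `fX`, the truth value `vX` of names,
and the lemmas `Sat_fX : Sat E (fX i j …) v ↔ X E (v i) (v j) …` and
`val_fX : val (fX i j …) v = vX (v i) (v j) …`.
-/

namespace BC

/-- `φ ↔ ψ` -/
def fIff (φ ψ : Fml) : Fml := .and (.imp φ ψ) (.imp ψ φ)

/-- `a ↔ b` in `BB` -/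
noncomputable def vIff (a b : BB) : BB := (a ⇨ b) ⊓ (b ⇨ a)

/-- `v z = (v a, v b)` -/
def fOPair (z a b : ℕ) : Fml :=
  .ex (.ex (.and (.all (fIff (.mem 0 2) (.eq 0 (a + 3))))
    (.and (.all (fIff (.mem 0 1) (.or (.eq 0 (a + 3)) (.eq 0 (b + 3)))))
      (.all (fIff (.mem 0 (z + 3)) (.or (.eq 0 2) (.eq 0 1)))))))

noncomputable def vOPair (z a b : HS) : BB :=
  ⨆ c : HS, ⨆ d : HS, (⨅ x : HS, vIff (x.memv c) (x.eqv a)) ⊓
    ((⨅ x : HS, vIff (x.memv d) (x.eqv a ⊔ x.eqv b)) ⊓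
      ⨅ x : HS, vIff (x.memv z) (x.eqv c ⊔ x.eqv d))

def fApp (a b f : ℕ) : Fml := .ex (.and (fOPair 0 (a + 1) (b + 1)) (.mem 0 (f + 1)))

noncomputable def vApp (a b f : HS) : BB := ⨆ z : HS, vOPair z a b ⊓ z.memv f

def fInf (a r z x y : ℕ) : Fml :=
  .and (.and (fApp z x r) (fApp z y r)) (.all (.imp (.mem 0 (a + 1))
    (.imp (fApp 0 (x + 1) (r + 1)) (.imp (fApp 0 (y + 1) (r + 1)) (fApp 0 (z + 1) (r + 1))))))

noncomputable def vInf (a r z x y : HS) : BB :=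
  (vApp z x r ⊓ vApp z y r) ⊓ ⨅ t : HS, t.memv a ⇨ (vApp t x r ⇨ (vApp t y r ⇨ vApp t z r))

def fSup (a r z x y : ℕ) : Fml :=
  .and (.and (fApp x z r) (fApp y z r)) (.all (.imp (.mem 0 (a + 1))
    (.imp (fApp (x + 1) 0 (r + 1)) (.imp (fApp (y + 1) 0 (r + 1)) (fApp (z + 1) 0 (r + 1))))))

noncomputable def vSup (a r z x y : HS) : BB :=
  (vApp x z r ⊓ vApp y z r) ⊓ ⨅ t : HS, t.memv a ⇨ (vApp x t r ⇨ (vApp y t r ⇨ vApp z t r))

def fBot (a r x : ℕ) : Fml := .all (.imp (.mem 0 (a + 1)) (fApp (x + 1) 0 (r + 1)))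

noncomputable def vBot (a r x : HS) : BB := ⨅ t : HS, t.memv a ⇨ vApp x t r

def fTop (a r x : ℕ) : Fml := .all (.imp (.mem 0 (a + 1)) (fApp 0 (x + 1) (r + 1)))

noncomputable def vTop (a r x : HS) : BB := ⨅ t : HS, t.memv a ⇨ vApp t x r

def fCompl (a r x y : ℕ) : Fml :=
  .and (.all (.imp (.mem 0 (a + 1)) (.imp (fInf (a + 1) (r + 1) 0 (x + 1) (y + 1))
      (fBot (a + 1) (r + 1) 0))))
    (.all (.imp (.mem 0 (a + 1)) (.imp (fSup (a + 1) (r + 1) 0 (x + 1) (y + 1))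
      (fTop (a + 1) (r + 1) 0))))

noncomputable def vCompl (a r x y : HS) : BB :=
  (⨅ z : HS, z.memv a ⇨ (vInf a r z x y ⇨ vBot a r z)) ⊓
    ⨅ z : HS, z.memv a ⇨ (vSup a r z x y ⇨ vTop a r z)

def fBA1 (a r : ℕ) : Fml := .all (.imp (.mem 0 (a + 1)) (fApp 0 0 (r + 1)))

def fBA2 (a r : ℕ) : Fml := .all (.imp (.mem 0 (a + 1)) (.all (.imp (.mem 0 (a + 2))
    (.imp (fApp 1 0 (r + 2)) (.imp (fApp 0 1 (r + 2)) (.eq 1 0))))))

def fBA3 (a r : ℕ) : Fml :=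
  .all (.imp (.mem 0 (a + 1)) (.all (.imp (.mem 0 (a + 2)) (.all (.imp (.mem 0 (a + 3))
    (.imp (fApp 2 1 (r + 3)) (.imp (fApp 1 0 (r + 3)) (fApp 2 0 (r + 3)))))))))

def fBA4 (a r : ℕ) : Fml := .all (.imp (.mem 0 (a + 1)) (.all (.imp (.mem 0 (a + 2))
    (.ex (.and (.mem 0 (a + 3)) (fInf (a + 3) (r + 3) 0 2 1))))))

def fBA5 (a r : ℕ) : Fml := .all (.imp (.mem 0 (a + 1)) (.all (.imp (.mem 0 (a + 2))
    (.ex (.and (.mem 0 (a + 3)) (fSup (a + 3) (r + 3) 0 2 1))))))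

def fBA6 (a r : ℕ) : Fml := .ex (.and (.mem 0 (a + 1)) (fBot (a + 1) (r + 1) 0))

def fBA7 (a r : ℕ) : Fml := .ex (.and (.mem 0 (a + 1)) (fTop (a + 1) (r + 1) 0))

def fBA8 (a r : ℕ) : Fml :=
  .all (.imp (.mem 0 (a + 1)) (.ex (.and (.mem 0 (a + 2)) (fCompl (a + 2) (r + 2) 1 0))))

def fBA9 (a r : ℕ) : Fml :=
  .all (.imp (.mem 0 (a + 1)) (.all (.imp (.mem 0 (a + 2)) (.all (.imp (.mem 0 (a + 3))
    (.all (.imp (.mem 0 (a + 4)) (.imp (fSup (a + 4) (r + 4) 0 2 1)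
    (.all (.imp (.mem 0 (a + 5)) (.imp (fInf (a + 5) (r + 5) 0 4 1)
    (.all (.imp (.mem 0 (a + 6)) (.imp (fInf (a + 6) (r + 6) 0 5 4)
    (.all (.imp (.mem 0 (a + 7)) (.imp (fInf (a + 7) (r + 7) 0 6 4)
      (fSup (a + 7) (r + 7) 2 1 0))))))))))))))))))

def fBA10 (a : ℕ) : Fml :=
  .ex (.ex (.and (.mem 1 (a + 2)) (.and (.mem 0 (a + 2)) (.neg (.eq 1 0)))))

/-- the formula `(v a, v r)` is a Boolean algebra with `0 ≠ 1` -/
def fBA (a r : ℕ) : Fml :=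
  .and (fBA1 a r) (.and (fBA2 a r) (.and (fBA3 a r) (.and (fBA4 a r) (.and (fBA5 a r)
    (.and (fBA6 a r) (.and (fBA7 a r) (.and (fBA8 a r) (.and (fBA9 a r) (fBA10 a)))))))))

/-- truth value of `(a, r)` is a Boolean algebra with `0 ≠ 1` -/
noncomputable def vBA (a r : HS) : BB := val (fBA 0 1) (cons a (fun _ => r))

/-- the formula `v u` is an ultrafilter on `(v a, v r)` -/
def fUF (a r u : ℕ) : Fml :=
  .and (.all (.imp (.mem 0 (u + 1)) (.mem 0 (a + 1))))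
  (.and (.all (.imp (.mem 0 (u + 1)) (.all (.imp (.mem 0 (a + 2))
    (.imp (fApp 1 0 (r + 2)) (.mem 0 (u + 2)))))))
  (.and (.all (.imp (.mem 0 (u + 1)) (.all (.imp (.mem 0 (u + 2)) (.all (.imp (.mem 0 (a + 3))
    (.imp (fInf (a + 3) (r + 3) 0 2 1) (.mem 0 (u + 3)))))))))
  (.and (.all (.imp (.mem 0 (u + 1)) (.neg (fBot (a + 1) (r + 1) 0))))
    (.all (.imp (.mem 0 (a + 1)) (.all (.imp (.mem 0 (a + 2))
      (.imp (fCompl (a + 2) (r + 2) 1 0) (.or (.mem 1 (u + 2)) (.mem 0 (u + 2)))))))))))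

noncomputable def vUF (a r u : HS) : BB :=
  (⨅ x : HS, x.memv u ⇨ x.memv a) ⊓
  ((⨅ x : HS, x.memv u ⇨ ⨅ y : HS, y.memv a ⇨ (vApp x y r ⇨ y.memv u)) ⊓
  ((⨅ x : HS, x.memv u ⇨ ⨅ y : HS, y.memv u ⇨ ⨅ z : HS, z.memv a ⇨
    (vInf a r z x y ⇨ z.memv u)) ⊓
  ((⨅ x : HS, x.memv u ⇨ (vBot a r x)ᶜ) ⊓
    (⨅ x : HS, x.memv a ⇨ ⨅ y : HS, y.memv a ⇨ (vCompl a r x y ⇨ (x.memv u ⊔ y.memv u))))))

section Sat

variable {M : Type*} (E : M → M → Prop)

theorem Sat_fIff (φ ψ : Fml) (v : ℕ → M) :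
    Sat E (fIff φ ψ) v ↔ (Sat E φ v ↔ Sat E ψ v) := by
  simp only [fIff, Sat]
  exact iff_def.symm

theorem Sat_fOPair (z a b : ℕ) (v : ℕ → M) :
    Sat E (fOPair z a b) v ↔ IsOPair E (v z) (v a) (v b) := by
  simp only [fOPair, Sat, Sat_fIff, IsOPair, cons]

theorem Sat_fApp (a b f : ℕ) (v : ℕ → M) :
    Sat E (fApp a b f) v ↔ App E (v a) (v b) (v f) := by
  simp only [fApp, Sat, Sat_fOPair, App, cons]

theorem Sat_fInf (a r z x y : ℕ) (v : ℕ → M) :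
    Sat E (fInf a r z x y) v ↔ IsInf E (v a) (v r) (v z) (v x) (v y) := by
  simp only [fInf, Sat, Sat_fApp, IsInf, cons]

theorem Sat_fSup (a r z x y : ℕ) (v : ℕ → M) :
    Sat E (fSup a r z x y) v ↔ IsSup E (v a) (v r) (v z) (v x) (v y) := by
  simp only [fSup, Sat, Sat_fApp, IsSup, cons]

theorem Sat_fBot (a r x : ℕ) (v : ℕ → M) :
    Sat E (fBot a r x) v ↔ IsBot E (v a) (v r) (v x) := by
  simp only [fBot, Sat, Sat_fApp, IsBot, cons]

theorem Sat_fTop (a r x : ℕ) (v : ℕ → M) :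
    Sat E (fTop a r x) v ↔ IsTop E (v a) (v r) (v x) := by
  simp only [fTop, Sat, Sat_fApp, IsTop, cons]

theorem Sat_fCompl (a r x y : ℕ) (v : ℕ → M) :
    Sat E (fCompl a r x y) v ↔ IsCompl E (v a) (v r) (v x) (v y) := by
  simp only [fCompl, Sat, Sat_fInf, Sat_fSup, Sat_fBot, Sat_fTop, IsCompl, cons]

theorem Sat_fBA (a r : ℕ) (v : ℕ → M) :
    Sat E (fBA a r) v ↔ IsBA E (v a) (v r) := by
  have e1 : Sat E (fBA1 a r) v ↔ ∀ x, E x (v a) → App E x x (v r) := by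
    simp only [fBA1, Sat, Sat_fApp, cons]
  have e2 : Sat E (fBA2 a r) v ↔ ∀ x, E x (v a) → ∀ y, E y (v a) → App E x y (v r) →
      App E y x (v r) → x = y := by
    simp only [fBA2, Sat, Sat_fApp, cons]
  have e3 : Sat E (fBA3 a r) v ↔ ∀ x, E x (v a) → ∀ y, E y (v a) → ∀ z, E z (v a) →
      App E x y (v r) → App E y z (v r) → App E x z (v r) := by
    simp only [fBA3, Sat, Sat_fApp, cons]
  have e4 : Sat E (fBA4 a r) v ↔ ∀ x, E x (v a) → ∀ y, E y (v a) →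
      ∃ z, E z (v a) ∧ IsInf E (v a) (v r) z x y := by
    simp only [fBA4, Sat, Sat_fInf, cons]
  have e5 : Sat E (fBA5 a r) v ↔ ∀ x, E x (v a) → ∀ y, E y (v a) →
      ∃ z, E z (v a) ∧ IsSup E (v a) (v r) z x y := by
    simp only [fBA5, Sat, Sat_fSup, cons]
  have e6 : Sat E (fBA6 a r) v ↔ ∃ x, E x (v a) ∧ IsBot E (v a) (v r) x := by
    simp only [fBA6, Sat, Sat_fBot, cons]
  have e7 : Sat E (fBA7 a r) v ↔ ∃ x, E x (v a) ∧ IsTop E (v a) (v r) x := by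
    simp only [fBA7, Sat, Sat_fTop, cons]
  have e8 : Sat E (fBA8 a r) v ↔ ∀ x, E x (v a) → ∃ y, E y (v a) ∧
      IsCompl E (v a) (v r) x y := by
    simp only [fBA8, Sat, Sat_fCompl, cons]
  have e9 : Sat E (fBA9 a r) v ↔ ∀ x, E x (v a) → ∀ y, E y (v a) → ∀ z, E z (v a) →
      ∀ s, E s (v a) → IsSup E (v a) (v r) s y z → ∀ m, E m (v a) → IsInf E (v a) (v r) m x s →
        ∀ p, E p (v a) → IsInf E (v a) (v r) p x y → ∀ q, E q (v a) →
          IsInf E (v a) (v r) q x z → IsSup E (v a) (v r) m p q := by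
    simp only [fBA9, Sat, Sat_fInf, Sat_fSup, cons]
  have e10 : Sat E (fBA10 a) v ↔ ∃ x y, E x (v a) ∧ E y (v a) ∧ x ≠ y := by
    simp only [fBA10, Sat, cons, ne_eq]
  simp only [fBA, Sat, e1, e2, e3, e4, e5, e6, e7, e8, e9, e10]
  constructor
  · rintro ⟨h1, h2, h3, h4, h5, h6, h7, h8, h9, h10⟩
    exact ⟨h1, h2, h3, h4, h5, h6, h7, h8, h9, h10⟩
  · intro h
    exact ⟨h.refl, h.antisymm, h.trans, h.inf, h.sup, h.bot, h.top, h.compl, h.distrib,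
      h.nontrivial⟩

theorem Sat_fUF (a r u : ℕ) (v : ℕ → M) :
    Sat E (fUF a r u) v ↔ IsUF E (v a) (v r) (v u) := by
  constructor
  · intro h
    simp only [fUF, Sat, Sat_fApp, Sat_fInf, Sat_fBot, Sat_fCompl, cons] at h
    obtain ⟨h1, h2, h3, h4, h5⟩ := h
    exact ⟨h1, h2, h3, h4, h5⟩
  · intro h
    simp only [fUF, Sat, Sat_fApp, Sat_fInf, Sat_fBot, Sat_fCompl, cons]
    exact ⟨h.sub, h.up, h.inf, h.bot, h.ultra⟩

end Sat

theorem val_fIff (φ ψ : Fml) (v : ℕ → HS) : val (fIff φ ψ) v = vIff (val φ v) (val ψ v) := (rfl)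

theorem val_fOPair (z a b : ℕ) (v : ℕ → HS) :
    val (fOPair z a b) v = vOPair (v z) (v a) (v b) := by
  simp only [fOPair, val, val_fIff, vOPair, cons]

theorem val_fApp (a b f : ℕ) (v : ℕ → HS) :
    val (fApp a b f) v = vApp (v a) (v b) (v f) := by
  simp only [fApp, val, val_fOPair, vApp, cons]

theorem val_fInf (a r z x y : ℕ) (v : ℕ → HS) :
    val (fInf a r z x y) v = vInf (v a) (v r) (v z) (v x) (v y) := by
  simp only [fInf, val, val_fApp, vInf, cons]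

theorem val_fSup (a r z x y : ℕ) (v : ℕ → HS) :
    val (fSup a r z x y) v = vSup (v a) (v r) (v z) (v x) (v y) := by
  simp only [fSup, val, val_fApp, vSup, cons]

theorem val_fBot (a r x : ℕ) (v : ℕ → HS) :
    val (fBot a r x) v = vBot (v a) (v r) (v x) := by
  simp only [fBot, val, val_fApp, vBot, cons]

theorem val_fTop (a r x : ℕ) (v : ℕ → HS) :
    val (fTop a r x) v = vTop (v a) (v r) (v x) := by
  simp only [fTop, val, val_fApp, vTop, cons]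

theorem val_fCompl (a r x y : ℕ) (v : ℕ → HS) :
    val (fCompl a r x y) v = vCompl (v a) (v r) (v x) (v y) := by
  simp only [fCompl, val, val_fInf, val_fSup, val_fBot, val_fTop, vCompl, cons]

theorem val_fUF (a r u : ℕ) (v : ℕ → HS) :
    val (fUF a r u) v = vUF (v a) (v r) (v u) := by
  simp only [fUF, val, val_fApp, val_fInf, val_fBot, val_fCompl, vUF, cons]

theorem val_fBA (a r : ℕ) (v : ℕ → HS) : val (fBA a r) v = vBA (v a) (v r) := by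
  simp only [fBA, fBA1, fBA2, fBA3, fBA4, fBA5, fBA6, fBA7, fBA8, fBA9, fBA10, val, val_fApp,
    val_fInf, val_fSup, val_fBot, val_fTop, val_fCompl, vBA, cons]

end BC
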