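import Pool.Agent.Work.MP_51da30_lc.Preds

/-!
# MP_51da30_lc, file Preds2 : formulas and truth values for the notions used in CUC
-/

namespace BC

def fSucc (y x : ℕ) : Fml := .all (fIff (.mem 0 (y + 1)) (.or (.mem 0 (x + 1)) (.eq 0 (x + 1))))

noncomputable def vSucc (y x : HS) : BB := ⨅ z : HS, vIff (z.memv y) (z.memv x ⊔ z.eqv x)

def fInductive (u : ℕ) : Fml :=
  .and (.all (.imp (.all (.neg (.mem 0 1))) (.mem 0 (u + 1))))
    (.all (.imp (.mem 0 (u + 1)) (.all (.imp (fSucc 0 1) (.mem 0 (u + 2))))))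

noncomputable def vInductive (u : HS) : BB :=
  (⨅ x : HS, (⨅ y : HS, (y.memv x)ᶜ) ⇨ x.memv u) ⊓
    ⨅ x : HS, x.memv u ⇨ ⨅ y : HS, vSucc y x ⇨ y.memv u

def fOmega (w : ℕ) : Fml :=
  .and (fInductive w) (.all (.imp (fInductive 0) (.all (.imp (.mem 0 (w + 2)) (.mem 0 1)))))

noncomputable def vOmega (w : HS) : BB :=
  vInductive w ⊓ ⨅ u : HS, vInductive u ⇨ ⨅ x : HS, x.memv w ⇨ x.memv u

def fInj (f a b : ℕ) : Fml :=
  .and (.all (.imp (.mem 0 (a + 1)) (.ex (.and (.mem 0 (b + 2)) (fApp 1 0 (f + 2))))))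
  (.and (.all (.all (.all (.imp (fApp 2 1 (f + 3)) (.imp (fApp 2 0 (f + 3)) (.eq 1 0))))))
    (.all (.all (.all (.imp (fApp 2 0 (f + 3)) (.imp (fApp 1 0 (f + 3)) (.eq 2 1)))))))

noncomputable def vInj (f a b : HS) : BB :=
  (⨅ x : HS, x.memv a ⇨ ⨆ y : HS, y.memv b ⊓ vApp x y f) ⊓
  ((⨅ x : HS, ⨅ y : HS, ⨅ y' : HS, vApp x y f ⇨ (vApp x y' f ⇨ y.eqv y')) ⊓
    ⨅ x : HS, ⨅ x' : HS, ⨅ y : HS, vApp x y f ⇨ (vApp x' y f ⇨ x.eqv x'))

def fCountable (a : ℕ) : Fml := .ex (.ex (.and (fOmega 1) (fInj 0 (a + 2) 1)))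

noncomputable def vCountable (a : HS) : BB := ⨆ w : HS, ⨆ f : HS, vOmega w ⊓ vInj f a w

/-- `v g` is a function on `v w` -/
def fFun (w g : ℕ) : Fml :=
  .all (.imp (.mem 0 (w + 1)) (.ex (.and (fApp 1 0 (g + 2))
    (.all (.imp (fApp 2 0 (g + 3)) (.eq 0 1))))))

noncomputable def vFun (w g : HS) : BB :=
  ⨅ n : HS, n.memv w ⇨ ⨆ A : HS, vApp n A g ⊓ ⨅ B : HS, vApp n B g ⇨ B.eqv A

/-- all values of `v g` on `v w` are countable -/
def fCtb (w g : ℕ) : Fml :=
  .all (.imp (.mem 0 (w + 1)) (.all (.imp (fApp 1 0 (g + 2)) (fCountable 0))))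

noncomputable def vCtb (w g : HS) : BB :=
  ⨅ n : HS, n.memv w ⇨ ⨅ A : HS, vApp n A g ⇨ vCountable A

/-- `v u` is the union of the values of `v g` on `v w` -/
def fUn (w g u : ℕ) : Fml :=
  .all (fIff (.mem 0 (u + 1)) (.ex (.ex (.and (.mem 1 (w + 3))
    (.and (fApp 1 0 (g + 3)) (.mem 2 0))))))

noncomputable def vUn (w g u : HS) : BB :=
  ⨅ x : HS, vIff (x.memv u) (⨆ n : HS, ⨆ A : HS, n.memv w ⊓ (vApp n A g ⊓ x.memv A))

section Sat

variable {M : Type*} (E : M → M → Prop)

theorem Sat_fSucc (y x : ℕ) (v : ℕ → M) : Sat E (fSucc y x) v ↔ IsSucc E (v y) (v x) := by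
  simp only [fSucc, Sat, Sat_fIff, IsSucc, cons]

theorem Sat_fInductive (u : ℕ) (v : ℕ → M) :
    Sat E (fInductive u) v ↔ IsInductive E (v u) := by
  simp only [fInductive, Sat, Sat_fSucc, IsInductive, cons]

theorem Sat_fOmega (w : ℕ) (v : ℕ → M) : Sat E (fOmega w) v ↔ IsOmega E (v w) := by
  simp only [fOmega, Sat, Sat_fInductive, IsOmega, cons]

theorem Sat_fInj (f a b : ℕ) (v : ℕ → M) :
    Sat E (fInj f a b) v ↔ IsInj E (v f) (v a) (v b) := by
  simp only [fInj, Sat, Sat_fApp, cons]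
  constructor
  · rintro ⟨h1, h2, h3⟩
    exact ⟨h1, h2, h3⟩
  · intro h
    exact ⟨h.dom, h.fn, h.inj⟩

theorem Sat_fCountable (a : ℕ) (v : ℕ → M) :
    Sat E (fCountable a) v ↔ IsCountable E (v a) := by
  simp only [fCountable, Sat, Sat_fOmega, Sat_fInj, IsCountable, cons]

theorem Sat_fFun (w g : ℕ) (v : ℕ → M) :
    Sat E (fFun w g) v ↔ ∀ n, E n (v w) → ∃! A, App E n A (v g) := by
  simp only [fFun, Sat, Sat_fApp, cons, ExistsUnique]

theorem Sat_fCtb (w g : ℕ) (v : ℕ → M) :
    Sat E (fCtb w g) v ↔ ∀ n, E n (v w) → ∀ A, App E n A (v g) → IsCountable E A := by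
  simp only [fCtb, Sat, Sat_fApp, Sat_fCountable, cons]

theorem Sat_fUn (w g u : ℕ) (v : ℕ → M) :
    Sat E (fUn w g u) v ↔
      ∀ x, E x (v u) ↔ ∃ n A, E n (v w) ∧ App E n A (v g) ∧ E x A := by
  simp only [fUn, Sat, Sat_fIff, Sat_fApp, cons]

end Sat

theorem val_fSucc (y x : ℕ) (v : ℕ → HS) : val (fSucc y x) v = vSucc (v y) (v x) := by
  simp only [fSucc, val, val_fIff, vSucc, cons]

theorem val_fInductive (u : ℕ) (v : ℕ → HS) : val (fInductive u) v = vInductive (v u) := by
  simp only [fInductive, val, val_fSucc, vInductive, cons]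

theorem val_fOmega (w : ℕ) (v : ℕ → HS) : val (fOmega w) v = vOmega (v w) := by
  simp only [fOmega, val, val_fInductive, vOmega, cons]

theorem val_fInj (f a b : ℕ) (v : ℕ → HS) :
    val (fInj f a b) v = vInj (v f) (v a) (v b) := by
  simp only [fInj, val, val_fApp, vInj, cons]

theorem val_fCountable (a : ℕ) (v : ℕ → HS) : val (fCountable a) v = vCountable (v a) := by
  simp only [fCountable, val, val_fOmega, val_fInj, vCountable, cons]

theorem val_fFun (w g : ℕ) (v : ℕ → HS) : val (fFun w g) v = vFun (v w) (v g) := by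
  simp only [fFun, val, val_fApp, vFun, cons]

theorem val_fCtb (w g : ℕ) (v : ℕ → HS) : val (fCtb w g) v = vCtb (v w) (v g) := by
  simp only [fCtb, val, val_fApp, val_fCountable, vCtb, cons]

theorem val_fUn (w g u : ℕ) (v : ℕ → HS) :
    val (fUn w g u) v = vUn (v w) (v g) (v u) := by
  simp only [fUn, val, val_fIff, val_fApp, vUn, cons]

/-! ## Extensionality and equivariance of the truth values -/

theorem vApp_map (g : Gm) (x y f : HS) : vApp (x.map g) (y.map g) (f.map g) = tr g (vApp x y f) := by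
  have h := val_map g (fApp 0 1 2) (cons x (cons y (fun _ => f)))
  rw [val_fApp, val_fApp] at h
  exact h

theorem vInf_map (g : Gm) (a r z x y : HS) :
    vInf (a.map g) (r.map g) (z.map g) (x.map g) (y.map g) = tr g (vInf a r z x y) := by
  have h := val_map g (fInf 0 1 2 3 4) (cons a (cons r (cons z (cons x (fun _ => y)))))
  rw [val_fInf, val_fInf] at h
  exact h

theorem vBot_map (g : Gm) (a r x : HS) :
    vBot (a.map g) (r.map g) (x.map g) = tr g (vBot a r x) := by
  have h := val_map g (fBot 0 1 2) (cons a (cons r (fun _ => x)))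
  rw [val_fBot, val_fBot] at h
  exact h

theorem vCompl_map (g : Gm) (a r x y : HS) :
    vCompl (a.map g) (r.map g) (x.map g) (y.map g) = tr g (vCompl a r x y) := by
  have h := val_map g (fCompl 0 1 2 3) (cons a (cons r (cons x (fun _ => y))))
  rw [val_fCompl, val_fCompl] at h
  exact h

theorem vBA_map (g : Gm) (a r : HS) : vBA (a.map g) (r.map g) = tr g (vBA a r) := by
  have h := val_map g (fBA 0 1) (cons a (fun _ => r))
  rw [val_fBA, val_fBA] at h
  exact h

theorem vInj_map (g : Gm) (f a b : HS) :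
    vInj (f.map g) (a.map g) (b.map g) = tr g (vInj f a b) := by
  have h := val_map g (fInj 0 1 2) (cons f (cons a (fun _ => b)))
  rw [val_fInj, val_fInj] at h
  exact h

theorem vOmega_map (g : Gm) (w : HS) : vOmega (w.map g) = tr g (vOmega w) := by
  have h := val_map g (fOmega 0) (fun _ => w)
  rw [val_fOmega, val_fOmega] at h
  exact h

/-- agreement of three names -/
theorem vApp_congr (x y f x' y' f' : HS) :
    x.eqv x' ⊓ (y.eqv y' ⊓ f.eqv f') ⊓ vApp x y f ≤ vApp x' y' f' := by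
  have h := val_agr (fApp 0 1 2) (cons x (cons y (fun _ => f))) (cons x' (cons y' (fun _ => f')))
  rw [val_fApp, val_fApp] at h
  refine le_trans (inf_le_inf_right _ ?_) h
  refine le_iInf fun n => ?_
  match n with
  | 0 => exact inf_le_left
  | 1 => exact le_trans inf_le_right inf_le_left
  | n + 2 => exact le_trans inf_le_right inf_le_right

theorem vInf_congr (a r z x y a' r' z' x' y' : HS) :
    a.eqv a' ⊓ (r.eqv r' ⊓ (z.eqv z' ⊓ (x.eqv x' ⊓ y.eqv y'))) ⊓ vInf a r z x y
      ≤ vInf a' r' z' x' y' := by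
  have h := val_agr (fInf 0 1 2 3 4) (cons a (cons r (cons z (cons x (fun _ => y)))))
    (cons a' (cons r' (cons z' (cons x' (fun _ => y')))))
  rw [val_fInf, val_fInf] at h
  refine le_trans (inf_le_inf_right _ ?_) h
  refine le_iInf fun n => ?_
  match n with
  | 0 => exact inf_le_left
  | 1 => exact le_trans inf_le_right inf_le_left
  | 2 => exact le_trans inf_le_right (le_trans inf_le_right inf_le_left)
  | 3 => exact le_trans inf_le_right (le_trans inf_le_right (le_trans inf_le_right inf_le_left))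
  | n + 4 =>
    exact le_trans inf_le_right (le_trans inf_le_right (le_trans inf_le_right inf_le_right))

theorem vBot_congr (a r x a' r' x' : HS) :
    a.eqv a' ⊓ (r.eqv r' ⊓ x.eqv x') ⊓ vBot a r x ≤ vBot a' r' x' := by
  have h := val_agr (fBot 0 1 2) (cons a (cons r (fun _ => x))) (cons a' (cons r' (fun _ => x')))
  rw [val_fBot, val_fBot] at h
  refine le_trans (inf_le_inf_right _ ?_) h
  refine le_iInf fun n => ?_
  match n with
  | 0 => exact inf_le_left
  | 1 => exact le_trans inf_le_right inf_le_left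
  | n + 2 => exact le_trans inf_le_right inf_le_right

theorem vCompl_congr (a r x y a' r' x' y' : HS) :
    a.eqv a' ⊓ (r.eqv r' ⊓ (x.eqv x' ⊓ y.eqv y')) ⊓ vCompl a r x y ≤ vCompl a' r' x' y' := by
  have h := val_agr (fCompl 0 1 2 3) (cons a (cons r (cons x (fun _ => y))))
    (cons a' (cons r' (cons x' (fun _ => y'))))
  rw [val_fCompl, val_fCompl] at h
  refine le_trans (inf_le_inf_right _ ?_) h
  refine le_iInf fun n => ?_
  match n with
  | 0 => exact inf_le_left
  | 1 => exact le_trans inf_le_right inf_le_left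
  | 2 => exact le_trans inf_le_right (le_trans inf_le_right inf_le_left)
  | n + 3 => exact le_trans inf_le_right (le_trans inf_le_right inf_le_right)

theorem vBA_congr (a r a' r' : HS) : a.eqv a' ⊓ r.eqv r' ⊓ vBA a r ≤ vBA a' r' := by
  have h := val_agr (fBA 0 1) (cons a (fun _ => r)) (cons a' (fun _ => r'))
  rw [val_fBA, val_fBA] at h
  refine le_trans (inf_le_inf_right _ ?_) h
  refine le_iInf fun n => ?_
  match n with
  | 0 => exact inf_le_left
  | n + 1 => exact inf_le_right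

theorem vInj_congr (f a b f' a' b' : HS) :
    f.eqv f' ⊓ (a.eqv a' ⊓ b.eqv b') ⊓ vInj f a b ≤ vInj f' a' b' := by
  have h := val_agr (fInj 0 1 2) (cons f (cons a (fun _ => b))) (cons f' (cons a' (fun _ => b')))
  rw [val_fInj, val_fInj] at h
  refine le_trans (inf_le_inf_right _ ?_) h
  refine le_iInf fun n => ?_
  match n with
  | 0 => exact inf_le_left
  | 1 => exact le_trans inf_le_right inf_le_left
  | n + 2 => exact le_trans inf_le_right inf_le_right

theorem vCountable_congr (a a' : HS) : a.eqv a' ⊓ vCountable a ≤ vCountable a' := by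
  have h := val_agr (fCountable 0) (fun _ => a) (fun _ => a')
  rw [val_fCountable, val_fCountable] at h
  refine le_trans (inf_le_inf_right _ ?_) h
  exact le_iInf fun n => le_rfl

/-- If `a`, `r` are invariant under `g` then the truth values are equivariant in the other
arguments. -/
theorem vApp_map' {g : Gm} {r : HS} (hr : HS.eqv (r.map g) r = ⊤) (x y : HS) :
    vApp (x.map g) (y.map g) r = tr g (vApp x y r) := by
  rw [← vApp_map]
  apply le_antisymm
  · have h := vApp_congr (x.map g) (y.map g) r (x.map g) (y.map g) (r.map g)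
    rwa [HS.eqv_refl, HS.eqv_refl, HS.eqv_symm, hr, top_inf_eq, top_inf_eq, top_inf_eq] at h
  · have h := vApp_congr (x.map g) (y.map g) (r.map g) (x.map g) (y.map g) r
    rwa [HS.eqv_refl, HS.eqv_refl, hr, top_inf_eq, top_inf_eq, top_inf_eq] at h

theorem vInf_map' {g : Gm} {a r : HS} (ha : HS.eqv (a.map g) a = ⊤)
    (hr : HS.eqv (r.map g) r = ⊤) (z x y : HS) :
    vInf a r (z.map g) (x.map g) (y.map g) = tr g (vInf a r z x y) := by
  rw [← vInf_map]
  apply le_antisymm
  · have h := vInf_congr a r (z.map g) (x.map g) (y.map g) (a.map g) (r.map g) (z.map g)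
      (x.map g) (y.map g)
    rwa [HS.eqv_refl, HS.eqv_refl, HS.eqv_refl, HS.eqv_symm a, ha, HS.eqv_symm r, hr, top_inf_eq,
      top_inf_eq, top_inf_eq, top_inf_eq, top_inf_eq] at h
  · have h := vInf_congr (a.map g) (r.map g) (z.map g) (x.map g) (y.map g) a r (z.map g)
      (x.map g) (y.map g)
    rwa [HS.eqv_refl, HS.eqv_refl, HS.eqv_refl, ha, hr, top_inf_eq,
      top_inf_eq, top_inf_eq, top_inf_eq, top_inf_eq] at h

theorem vBot_map' {g : Gm} {a r : HS} (ha : HS.eqv (a.map g) a = ⊤)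
    (hr : HS.eqv (r.map g) r = ⊤) (x : HS) : vBot a r (x.map g) = tr g (vBot a r x) := by
  rw [← vBot_map]
  apply le_antisymm
  · have h := vBot_congr a r (x.map g) (a.map g) (r.map g) (x.map g)
    rwa [HS.eqv_refl, HS.eqv_symm a, ha, HS.eqv_symm r, hr, top_inf_eq, top_inf_eq,
      top_inf_eq] at h
  · have h := vBot_congr (a.map g) (r.map g) (x.map g) a r (x.map g)
    rwa [HS.eqv_refl, ha, hr, top_inf_eq, top_inf_eq, top_inf_eq] at h

theorem vCompl_map' {g : Gm} {a r : HS} (ha : HS.eqv (a.map g) a = ⊤)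
    (hr : HS.eqv (r.map g) r = ⊤) (x y : HS) :
    vCompl a r (x.map g) (y.map g) = tr g (vCompl a r x y) := by
  rw [← vCompl_map]
  apply le_antisymm
  · have h := vCompl_congr a r (x.map g) (y.map g) (a.map g) (r.map g) (x.map g) (y.map g)
    rwa [HS.eqv_refl, HS.eqv_refl, HS.eqv_symm a, ha, HS.eqv_symm r, hr, top_inf_eq,
      top_inf_eq, top_inf_eq, top_inf_eq] at h
  · have h := vCompl_congr (a.map g) (r.map g) (x.map g) (y.map g) a r (x.map g) (y.map g)
    rwa [HS.eqv_refl, HS.eqv_refl, ha, hr, top_inf_eq, top_inf_eq, top_inf_eq, top_inf_eq] at h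

theorem vBA_map' {g : Gm} {a r : HS} (ha : HS.eqv (a.map g) a = ⊤)
    (hr : HS.eqv (r.map g) r = ⊤) : tr g (vBA a r) = vBA a r := by
  rw [← vBA_map]
  apply le_antisymm
  · have h := vBA_congr (a.map g) (r.map g) a r
    rwa [ha, hr, top_inf_eq, top_inf_eq] at h
  · have h := vBA_congr a r (a.map g) (r.map g)
    rwa [HS.eqv_symm a, ha, HS.eqv_symm r, hr, top_inf_eq, top_inf_eq] at h

end BC
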