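import Pool.Agent.Work.MP_51da30_lc.Omega
import Pool.Agent.Work.MP_51da30_lc.Pair

/-!
# MP_51da30_lc, module Reals : the reals `x_n`, the sets `A_n` and their union

`rl n` is the name of `x_n`: it contains `num j` with truth value `bet n j`. `cls n` is the name of
the set `A_n` of all `(rl n).map g`, `g : Gm` (all finite modifications of `x_n`), `uni` the name of the union of
all `A_n`, `fam` the name of the family `(A_n : n ∈ ω)`.

Proofs. `map_rl_congr`: `(rl n).map g` has elements `(num j).map g = num j` and values `tr g (bet n j)`, which is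
`bet n j` or its complement, according to `g (n, j)` (`tr_bet_of_zero`, `tr_bet_of_ne_zero`). `rl_inv`: the case
`g ∈ Fi (n+1)`. `memv_rl`: `memv (num j) ((rl n).map g) = tr g (bet n j)` by `eqv_num`. `eqv_rl`: if `g (n, j) ≠ h (n, j)`
then `num j` belongs to exactly one of the two. `cls`: the family `g ↦ (rl n).map g` is permuted by
`map h` (`HS.map_map`), so `⨆ g, eqv (z.map h) ((rl n).map g) = ⨆ g, tr h (eqv z ((rl n).map (h + g)))` — reindex
(`HS.inv_of_memv` with `m = 0`); similarly `uni`; for `fam` use `eqv ((cls n).map g) (cls n) = ⊤`,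
`map_opr`, `map_num`, `eqv_opr`.
-/

namespace BC
namespace HS

private theorem map_aux (n : ℕ) (g : Gm) :
    Nm.map g (.mk ℕ (fun i => (num i).1) (bet n)) =
      .mk ℕ (fun i => (num i).1) (fun j => tr g (bet n j)) := by
  simp only [Nm.map]
  congr 1
  funext i
  exact congrArg Subtype.val (map_num g i)

theorem rl_inv (n : ℕ) : Inv (n + 1) (.mk ℕ (fun i => (num i).1) (bet n)) := by
  intro g hg
  rw [map_aux]
  have h : (fun j => tr g (bet n j)) = bet n := by
    funext j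
    exact tr_bet_of_zero (hg n j (Nat.lt_succ_self n))
  rw [h]
  exact BC.eqv_refl _

/-- the name of the real `x_n` -/
noncomputable def rl (n : ℕ) : HS := mk ℕ num (bet n) ⟨n + 1, rl_inv n⟩

private theorem map_rl_val (n : ℕ) (g : Gm) :
    ((rl n).map g).1 = .mk ℕ (fun i => (num i).1) (fun j => tr g (bet n j)) :=
  map_aux n g

theorem memv_rl (n j : ℕ) (g : Gm) : memv (num j) ((rl n).map g) = tr g (bet n j) := by
  have h : memv (num j) ((rl n).map g) = ⨆ i : ℕ, tr g (bet n i) ⊓ eqv (num j) (num i) := by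
    rw [memv, map_rl_val]
    rfl
  rw [h]
  apply le_antisymm
  · refine iSup_le fun i => ?_
    by_cases hi : j = i
    · subst hi
      exact inf_le_left
    · rw [eqv_num hi, inf_bot_eq]
      exact bot_le
  · refine le_iSup_of_le j ?_
    rw [eqv_refl, inf_top_eq]

theorem map_rl_congr {n : ℕ} {g h : Gm} (H : ∀ j, g (n, j) = h (n, j)) :
    (rl n).map g = (rl n).map h := by
  apply Subtype.ext
  rw [map_rl_val, map_rl_val]
  congr 1
  funext j
  by_cases hg : g (n, j) = 0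
  · rw [tr_bet_of_zero hg, tr_bet_of_zero ((H j).symm.trans hg)]
  · rw [tr_bet_of_ne_zero hg, tr_bet_of_ne_zero (fun h0 => hg ((H j).trans h0))]

theorem eqv_rl {n : ℕ} {g h : Gm} (H : ∃ j, g (n, j) ≠ h (n, j)) :
    eqv ((rl n).map g) ((rl n).map h) = ⊥ := by
  obtain ⟨j, hj⟩ := H
  have h1 := memv_congr_right (num j) ((rl n).map g) ((rl n).map h)
  have h2 := memv_congr_right (num j) ((rl n).map h) ((rl n).map g)
  rw [eqv_symm ((rl n).map h)] at h2
  rw [memv_rl, memv_rl] at h1 h2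
  have key : ∀ a b : BB, a ⊓ b ≤ bᶜ → a ⊓ bᶜ ≤ b → a = ⊥ := by
    intro a b h3 h4
    have h5 : a ⊓ b = ⊥ := by
      rw [← le_bot_iff, ← inf_compl_self b]
      exact le_inf inf_le_right h3
    have h6 : a ⊓ bᶜ = ⊥ := by
      rw [← le_bot_iff, ← inf_compl_self b]
      exact le_inf h4 inf_le_right
    have h7 : a = (a ⊓ b) ⊔ (a ⊓ bᶜ) := by
      rw [← inf_sup_left, sup_compl_eq_top, inf_top_eq]
    rw [h7, h5, h6, sup_bot_eq]
  have hz : ∀ x y : ZMod 2, x ≠ y → (x = 0 ∧ y ≠ 0) ∨ (x ≠ 0 ∧ y = 0) := by decide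
  rcases hz _ _ hj with ⟨hg, hh⟩ | ⟨hg, hh⟩
  · rw [tr_bet_of_zero hg, tr_bet_of_ne_zero hh] at h1 h2
    exact key _ _ h1 h2
  · rw [tr_bet_of_ne_zero hg, tr_bet_of_zero hh] at h1 h2
    exact key _ _ h2 h1

theorem cls_inv (n : ℕ) : Inv 0 (.mk Gm (fun g => ((rl n).map g).1) (fun _ => ⊤)) := by
  refine inv_of_memv Gm (fun g => (rl n).map g) (fun _ => ⊤) 0 fun g _ z => ?_
  simp only [top_inf_eq, tr_iSup, ← eqv_map, map_map]
  exact ((Equiv.addLeft g).iSup_comp (g := fun i => eqv (z.map g) ((rl n).map i))).symm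

/-- the name of `A_n` -/
noncomputable def cls (n : ℕ) : HS := mk Gm (fun g => (rl n).map g) (fun _ => ⊤) ⟨0, cls_inv n⟩

theorem memv_cls (z : HS) (n : ℕ) : memv z (cls n) = ⨆ g : Gm, eqv z ((rl n).map g) := by
  rw [cls, memv_mk]
  simp only [top_inf_eq]

theorem map_cls (n : ℕ) (g : Gm) : eqv ((cls n).map g) (cls n) = ⊤ :=
  cls_inv n g fun _ _ hi => absurd hi (Nat.not_lt_zero _)

theorem uni_inv : Inv 0 (.mk (ℕ × Gm) (fun p => ((rl p.1).map p.2).1) (fun _ => ⊤)) := by
  refine inv_of_memv (ℕ × Gm) (fun p => (rl p.1).map p.2) (fun _ => ⊤) 0 fun g _ z => ?_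
  simp only [top_inf_eq, tr_iSup, ← eqv_map, map_map]
  exact (((Equiv.refl ℕ).prodCongr (Equiv.addLeft g)).iSup_comp
    (g := fun p : ℕ × Gm => eqv (z.map g) ((rl p.1).map p.2))).symm

/-- the name of the union of all `A_n` -/
noncomputable def uni : HS :=
  mk (ℕ × Gm) (fun p => (rl p.1).map p.2) (fun _ => ⊤) ⟨0, uni_inv⟩

theorem memv_uni (z : HS) : memv z uni = ⨆ n : ℕ, ⨆ g : Gm, eqv z ((rl n).map g) := by
  rw [uni, memv_mk]
  simp only [top_inf_eq]
  rw [iSup_prod]

theorem fam_inv : Inv 0 (.mk ℕ (fun n => (opr (num n) (cls n)).1) (fun _ => ⊤)) := by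
  refine inv_of_memv ℕ (fun n => opr (num n) (cls n)) (fun _ => ⊤) 0 fun g _ z => ?_
  simp only [top_inf_eq, tr_iSup, ← eqv_map, map_opr, map_num]
  refine iSup_congr fun n => ?_
  have h : eqv (opr (num n) (cls n)) (opr (num n) ((cls n).map g)) = ⊤ := by
    rw [eqv_opr, eqv_refl, top_inf_eq, eqv_symm, map_cls]
  rw [eqv_symm, eqv_of_eqv_top_left h, eqv_symm]

/-- the name of the family `(A_n : n ∈ ω)` -/
noncomputable def fam : HS := mk ℕ (fun n => opr (num n) (cls n)) (fun _ => ⊤) ⟨0, fam_inv⟩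

theorem memv_fam (z : HS) : memv z fam = ⨆ n : ℕ, eqv z (opr (num n) (cls n)) := by
  rw [fam, memv_mk]
  simp only [top_inf_eq]

end HS
end BC
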