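import Pool.Agent.Work.MP_51da30_lc.Defs

/-!
# MP_51da30_lc, module Uf : the idempotent ultrafilter

`Gm` is the Boolean group of all finite subsets of `ℕ × ℕ`, written as `ℕ × ℕ →₀ ZMod 2`.

Proof of `exists_W`. For `m : ℕ` let `I m` be the class of all `T : Set Gm` such that for every
`t : Gm` the set of columns `{(fun j => w (m, j)) | w ∈ T, ∀ i j, i < m → w (i, j) = t (i, j)}` is
finite. `I m` is closed under subsets, finite unions, and translations (`T ∈ I m → {w | x + w ∈ T} ∈ I m`
for every `x : Gm`). Let `O k = {w | ∀ i j, i < k → j < k → w (i, j) = 0}`.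
Claim: `O k ⊄ T_0 ∪ … ∪ T_n` if `T_i ∈ I i` for `i ≤ n`: choose columns `c_0, c_1, …, c_n` (finitely supported,
vanishing below `k`) recursively, such that `c_i` is not one of the finitely many columns
`w (i, ·)` of the elements `w ∈ T_i` with `w (i', ·) = c_{i'}` for `i' < i`; the element `w` of `Gm` with the columns
`c_0, …, c_n` (and `0` further) is in `O k` and in no `T_i`. (Formally: by induction on `n` there is
`w ∈ O k`, with zero columns from `n` on, which lies in no `T_i`, `i < n`, whatever its columns `≥ n` are changed to; or: build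
a sequence.)
Hence the sets `O k` and the complements of the members of all `I m` generate a proper filter on `Gm`
(finite intersections: the members of one `I m` are closed under unions), so
`S = {p : Ultrafilter Gm | (∀ k, O k ∈ p) ∧ ∀ m, ∀ T ∈ I m, Tᶜ ∈ p}` is nonempty. It is closed in
`Ultrafilter Gm` (`ultrafilter_isClosed_basic`), so compact. It is a subsemigroup for the addition
`Ultrafilter.add` (see `Mathlib/Combinatorics/Hindman.lean`: `attribute [local instance] Ultrafilter.addSemigroup`,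
`Ultrafilter.eventually_add`, `Ultrafilter.continuous_add_left`): if `x ∈ O k` then
`{w | x + w ∈ O k} ⊇ O k`; and for `T ∈ I m` and every `x`, `{w | x + w ∈ T} ∈ I m`. By
`exists_idempotent_in_compact_add_subsemigroup` there is `W ∈ S` with `W + W = W`.
Third property: if `T ∈ W` then `T ∉ I m`, so for some `t` the set of columns is infinite; take two
elements `w, w' ∈ T` which agree with `t` below `m` and have different columns at `m`.
-/

namespace BC
open Filter

/-- The group `Γ`: finite subsets of `ℕ × ℕ`, with symmetric difference. -/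
abbrev Gm : Type := ℕ × ℕ →₀ ZMod 2

/-- the columns at `m` of the elements of `T` which agree with `t` below `m` -/
private def ufCol (m : ℕ) (T : Set Gm) (t : Gm) : Set (ℕ → ZMod 2) :=
  {c | ∃ w ∈ T, (∀ i j, i < m → w (i, j) = t (i, j)) ∧ c = fun j => w (m, j)}

/-- the ideal `I m` -/
private def UfI (m : ℕ) (T : Set Gm) : Prop := ∀ t : Gm, (ufCol m T t).Finite

/-- `O k` -/
private def ufO (k : ℕ) : Set Gm := {w | ∀ i j, i < k → j < k → w (i, j) = 0}

private theorem uf_empty (m : ℕ) : UfI m ∅ := by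
  intro t
  refine Set.Finite.subset Set.finite_empty ?_
  rintro c ⟨w, hw, _⟩
  exact absurd hw (Set.notMem_empty w)

private theorem uf_union {m : ℕ} {T T' : Set Gm} (h : UfI m T) (h' : UfI m T') :
    UfI m (T ∪ T') := by
  intro t
  refine ((h t).union (h' t)).subset ?_
  rintro c ⟨w, hw | hw, h1, h2⟩
  · exact Or.inl ⟨w, hw, h1, h2⟩
  · exact Or.inr ⟨w, hw, h1, h2⟩

private theorem uf_trans {m : ℕ} {T : Set Gm} (h : UfI m T) (x : Gm) :
    UfI m {w | x + w ∈ T} := by
  intro t
  refine ((h (x + t)).image fun c j => c j - x (m, j)).subset ?_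
  rintro c ⟨w, hw, h1, rfl⟩
  refine ⟨fun j => (x + w) (m, j), ⟨x + w, hw, fun i j hi => ?_, rfl⟩, ?_⟩
  · rw [Finsupp.add_apply, Finsupp.add_apply, h1 i j hi]
  · funext j
    simp only [Finsupp.add_apply, add_sub_cancel_left]

private theorem uf_claim (k : ℕ) (T : ℕ → Set Gm) (hT : ∀ i, UfI i (T i)) (n : ℕ) :
    ∃ w ∈ ufO k, (∀ i j, n ≤ i → w (i, j) = 0) ∧
      ∀ i < n, ∀ w' : Gm, (∀ i' j, i' ≤ i → w' (i', j) = w (i', j)) → w' ∉ T i := by
  induction n with
  | zero =>
    refine ⟨0, fun i j _ _ => rfl, fun i j _ => rfl, fun i hi => absurd hi (Nat.not_lt_zero i)⟩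
  | succ n ih =>
    obtain ⟨w, hwO, hw0, hw⟩ := ih
    -- a new column
    have hinf : (Set.range fun j : ℕ => (Pi.single (k + j) (1 : ZMod 2) : ℕ → ZMod 2)).Infinite := by
      refine Set.infinite_range_of_injective fun j j' hjj => ?_
      have h1 := congrFun hjj (k + j)
      simp only [Pi.single_eq_same] at h1
      by_contra hne
      rw [Pi.single_eq_of_ne (by omega)] at h1
      exact one_ne_zero h1
    obtain ⟨c, ⟨j0, rfl⟩, hc⟩ := (hinf.sdiff (hT n w)).nonempty
    refine ⟨w + Finsupp.single (n, k + j0) 1, ?_, ?_, ?_⟩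
    · intro i j hi hj
      rw [Finsupp.add_apply, hwO i j hi hj, Finsupp.single_eq_of_ne, add_zero]
      intro h
      have := (Prod.mk.inj h).2
      omega
    · intro i j hi
      rw [Finsupp.add_apply, hw0 i j (by omega), Finsupp.single_eq_of_ne, add_zero]
      intro h
      have := (Prod.mk.inj h).1
      omega
    · intro i hi w' hw' hmem
      rcases Nat.lt_succ_iff_lt_or_eq.1 hi with hlt | rfl
      · refine hw i hlt w' (fun i' j hi' => ?_) hmem
        rw [hw' i' j hi', Finsupp.add_apply, Finsupp.single_eq_of_ne, add_zero]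
        intro h
        have := (Prod.mk.inj h).1
        omega
      · apply hc
        refine ⟨w', hmem, fun i' j hi' => ?_, ?_⟩
        · rw [hw' i' j hi'.le, Finsupp.add_apply, Finsupp.single_eq_of_ne, add_zero]
          intro h
          have := (Prod.mk.inj h).1
          omega
        · funext j
          rw [hw' i j le_rfl, Finsupp.add_apply, hw0 i j le_rfl, zero_add]
          show (Pi.single (k + j0) (1 : ZMod 2) : ℕ → ZMod 2) j = _
          by_cases hj : j = k + j0
          · subst hj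
            rw [Pi.single_eq_same, Finsupp.single_eq_same]
          · rw [Pi.single_eq_of_ne hj, Finsupp.single_eq_of_ne]
            intro h
            exact hj (Prod.mk.inj h).2

/-- the filter generated by the `O k` and the complements of the members of the `I m` -/
private def ufF : Filter Gm where
  sets := {G | ∃ (k n : ℕ) (T : ℕ → Set Gm), (∀ i, UfI i (T i)) ∧
    ∀ w ∈ ufO k, (∀ i < n, w ∉ T i) → w ∈ G}
  univ_sets := ⟨0, 0, fun _ => ∅, fun i => uf_empty i, fun w _ _ => Set.mem_univ w⟩
  sets_of_superset := by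
    rintro G G' ⟨k, n, T, hT, h⟩ hGG
    exact ⟨k, n, T, hT, fun w hw hn => hGG (h w hw hn)⟩
  inter_sets := by
    rintro G G' ⟨k, n, T, hT, h⟩ ⟨k', n', T', hT', h'⟩
    refine ⟨max k k', max n n', fun i => T i ∪ T' i, fun i => uf_union (hT i) (hT' i),
      fun w hw hn => ⟨?_, ?_⟩⟩
    · exact h w (fun i j hi hj => hw i j (lt_of_lt_of_le hi (le_max_left _ _))
        (lt_of_lt_of_le hj (le_max_left _ _))) fun i hi hmem =>
        hn i (lt_of_lt_of_le hi (le_max_left _ _)) (Or.inl hmem)
    · exact h' w (fun i j hi hj => hw i j (lt_of_lt_of_le hi (le_max_right _ _))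
        (lt_of_lt_of_le hj (le_max_right _ _))) fun i hi hmem =>
        hn i (lt_of_lt_of_le hi (le_max_right _ _)) (Or.inr hmem)

private theorem uf_neBot : NeBot ufF := by
  refine ⟨fun hbot => ?_⟩
  obtain ⟨k, n, T, hT, h⟩ : (∅ : Set Gm) ∈ ufF := Filter.empty_mem_iff_bot.2 hbot
  obtain ⟨w, hw, _, hw2⟩ := uf_claim k T hT n
  exact h w hw fun i hi => hw2 i hi w fun _ _ _ => rfl

attribute [local instance] Ultrafilter.add Ultrafilter.addSemigroup

private def ufS : Set (Ultrafilter Gm) :=
  {p | (∀ k, ufO k ∈ p) ∧ ∀ m, ∀ T : Set Gm, UfI m T → Tᶜ ∈ p}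

private theorem ufS_nonempty : ufS.Nonempty := by
  have := uf_neBot
  refine ⟨Ultrafilter.of ufF, fun k => ?_, fun m T hT => ?_⟩
  · exact Ultrafilter.of_le ufF ⟨k, 0, fun _ => ∅, fun i => uf_empty i, fun w hw _ => hw⟩
  · refine Ultrafilter.of_le ufF ⟨0, m + 1, fun i => if i = m then T else ∅, fun i => ?_,
      fun w _ hw => ?_⟩
    · by_cases hi : i = m
      · subst hi
        simp only [if_true]
        exact hT
      · simp only [if_neg hi]
        exact uf_empty i
    · have h1 := hw m (Nat.lt_succ_self m)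
      simp only [if_true] at h1
      exact h1

private theorem ufS_compact : IsCompact ufS := by
  apply IsClosed.isCompact
  have h1 : ufS = (⋂ k, {p : Ultrafilter Gm | ufO k ∈ p}) ∩
      ⋂ m, ⋂ T : Set Gm, ⋂ _ : UfI m T, {p : Ultrafilter Gm | Tᶜ ∈ p} := by
    ext p
    simp only [ufS, Set.mem_ofPred_eq, Set.mem_inter_iff, Set.mem_iInter]
  rw [h1]
  exact (isClosed_iInter fun k => ultrafilter_isClosed_basic _).inter
    (isClosed_iInter fun m => isClosed_iInter fun T => isClosed_iInter fun _ =>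
      ultrafilter_isClosed_basic _)

private theorem ufS_add (p : Ultrafilter Gm) (hp : p ∈ ufS) (q : Ultrafilter Gm) (hq : q ∈ ufS) :
    p + q ∈ ufS := by
  refine ⟨fun k => ?_, fun m T hT => ?_⟩
  · have h1 : ∀ᶠ w in (p : Filter Gm), ∀ᶠ v in (q : Filter Gm), w + v ∈ ufO k := by
      filter_upwards [hp.1 k] with w hw
      filter_upwards [hq.1 k] with v hv
      intro i j hi hj
      rw [Finsupp.add_apply, hw i j hi hj, hv i j hi hj, add_zero]
    exact (Ultrafilter.eventually_add p q (fun w => w ∈ ufO k)).2 h1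
  · have h1 : ∀ᶠ w in (p : Filter Gm), ∀ᶠ v in (q : Filter Gm), w + v ∈ Tᶜ := by
      refine Filter.Eventually.of_forall fun w => ?_
      exact hq.2 m {v | w + v ∈ T} (uf_trans hT w)
    exact (Ultrafilter.eventually_add p q (fun w => w ∈ Tᶜ)).2 h1

theorem exists_W : ∃ W : Ultrafilter Gm,
    (∀ T : Set Gm, (∀ᶠ w in (W : Filter Gm), ∀ᶠ v in (W : Filter Gm), w + v ∈ T) ↔ T ∈ W) ∧
    (∀ i j : ℕ, {w : Gm | w (i, j) = 0} ∈ W) ∧
    ∀ m : ℕ, ∀ T ∈ W, ∃ w ∈ T, ∃ w' ∈ T, (∀ i j, i < m → w (i, j) = w' (i, j)) ∧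
      ∃ j, w (m, j) ≠ w' (m, j) := by
  obtain ⟨W, hW, hidem⟩ := exists_idempotent_in_compact_add_subsemigroup
    (M := Ultrafilter Gm) Ultrafilter.continuous_add_left ufS ufS_nonempty ufS_compact
    (fun p hp q hq => ufS_add p hp q hq)
  refine ⟨W, fun T => ?_, fun i j => ?_, fun m T hT => ?_⟩
  · have h1 := Ultrafilter.eventually_add W W (fun w => w ∈ T)
    rw [hidem] at h1
    exact h1.symm
  · filter_upwards [hW.1 (max i j + 1)] with w hw
    exact hw i j (by omega) (by omega)
  · have h1 : ¬ UfI m T := by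
      intro h
      exact (Ultrafilter.compl_notMem_iff.2 hT) (hW.2 m T h)
    unfold UfI at h1
    push Not at h1
    obtain ⟨t, ht⟩ := h1
    obtain ⟨c, ⟨w, hw, hw1, rfl⟩, c', ⟨w', hw', hw1', rfl⟩, hne⟩ := Set.Infinite.nontrivial ht
    refine ⟨w, hw, w', hw', fun i j hi => (hw1 i j hi).trans (hw1' i j hi).symm, ?_⟩
    by_contra hcon
    push Not at hcon
    exact hne (funext hcon)

/-- The idempotent ultrafilter `𝒲`. -/
noncomputable def W : Ultrafilter Gm := Classical.choose exists_W

theorem W_idem (T : Set Gm) :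
    (∀ᶠ w in (W : Filter Gm), ∀ᶠ v in (W : Filter Gm), w + v ∈ T) ↔ T ∈ W :=
  (Classical.choose_spec exists_W).1 T

theorem W_small (i j : ℕ) : {w : Gm | w (i, j) = 0} ∈ W :=
  (Classical.choose_spec exists_W).2.1 i j

theorem W_split (m : ℕ) (T : Set Gm) (hT : T ∈ W) :
    ∃ w ∈ T, ∃ w' ∈ T, (∀ i j, i < m → w (i, j) = w' (i, j)) ∧ ∃ j, w (m, j) ≠ w' (m, j) :=
  (Classical.choose_spec exists_W).2.2 m T hT

end BC
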