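import Pool.Agent.Work.MP_51da30_lc.Ax1
import Pool.Agent.Work.MP_51da30_lc.Ax2
import Pool.Agent.Work.MP_51da30_lc.Omega
import Pool.Agent.Work.MP_51da30_lc.Model
import Pool.Agent.Work.MP_51da30_lc.Preds

/-!
# MP_51da30_lc, module ZFM : the two-valued models satisfy ZF

Proof. Transfer principle: if `val φ v = ⊤` for all `v : ℕ → HS` then `Sat E φ w` for all `w : ℕ → M`: choose
`v n ∈ C` with `p (v n) = w n` (`surj`), then `los`; `⊤ ∈ G` by `ultra` and `bot`/`up`. More generally
for `w n = p (v n)`, `v n ∈ C`, one may just use `los` for the given `v`.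
Each axiom is expressed by a formula, with the parameters as free variables, e.g. pairing:
`.ex (.all (fIff (.mem 0 1) (.or (.eq 0 2) (.eq 0 3))))`, power set:
`.ex (.all (fIff (.mem 0 1) (.all (.imp (.mem 0 1) (.mem 0 3)))))`, separation for `φ`:
`.ex (.all (fIff (.mem 0 1) (.and (.mem 0 2) (φ.ren (fun n => if n = 0 then 0 else n + 2)))))` with
assignment `cons a v` (`Sat_ren`, `val_ren`); its value is `⊤` by `ax_sep` (`vIff a a = ⊤`).
Extensionality: `HS.extv`; foundation: `ax_found`; infinity: `omega`, with `num 0` and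
`memv_num_zero`, `memv_suc`, `memv_omega` (`y = suc x`, `num (n+1) = suc (num n)`).
Replacement: in `M`, from collection (`ax_coll`: the formula
`.ex (.all (.imp (.mem 0 2) (.imp (.ex φ') (.ex (.and (.mem 0 _) φ'')))))` with suitable renamings of `φ`)
and separation, the usual argument: if `c` is as in collection, the required set is
`{y ∈ c : ∃ x ∈ a, φ}` (`sep` of `M` applied to a suitable formula).
-/

namespace BC

section
variable {M : Type} {E : M → M → Prop} {C : Set HS} {p : HS → M} {G : Set BB}

theorem IsModel.top_mem (h : IsModel E C p G) : ⊤ ∈ G := by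
  rcases h.ultra ⊤ with h1 | h1
  · exact h1
  · rw [compl_top] at h1
    exact absurd h1 h.bot

theorem IsModel.valid (h : IsModel E C p G) (φ : Fml) (hφ : ∀ v, val φ v = ⊤) (w : ℕ → M) :
    Sat E φ w := by
  choose v hv1 hv2 using fun n => h.surj (w n)
  have h1 := (h.los φ v hv1).2 (by rw [hφ]; exact h.top_mem)
  have h2 : (fun n => p (v n)) = w := funext hv2
  rwa [h2] at h1

end

theorem vIff_self (a : BB) : vIff a a = ⊤ := by
  rw [vIff, himp_self, inf_top_eq]

/-- renaming used for separation -/
def rSep : ℕ → ℕ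
  | 0 => 0
  | n + 1 => n + 3

/-- renaming used for collection -/
def rColl : ℕ → ℕ
  | 0 => 1
  | 1 => 0
  | n + 2 => n + 4

/-- renaming used for replacement -/
def rRepl : ℕ → ℕ
  | 0 => 0
  | 1 => 1
  | n + 2 => n + 3

theorem rSep_spec {M : Type*} (x c a : M) (v : ℕ → M) :
    (fun n => cons x (cons c (cons a v)) (rSep n)) = cons x v := by
  funext n
  cases n <;> rfl

theorem rColl_spec {M : Type*} (x y c a : M) (v : ℕ → M) :
    (fun n => cons y (cons x (cons c (cons a v))) (rColl n)) = cons x (cons y v) := by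
  funext n
  match n with
  | 0 => rfl
  | 1 => rfl
  | n + 2 => rfl

theorem rRepl_spec {M : Type*} (x y a : M) (v : ℕ → M) :
    (fun n => cons x (cons y (cons a v)) (rRepl n)) = cons x (cons y v) := by
  funext n
  match n with
  | 0 => rfl
  | 1 => rfl
  | n + 2 => rfl

section
variable {M : Type} {E : M → M → Prop} {C : Set HS} {p : HS → M} {G : Set BB}

theorem IsModel.sep (h : IsModel E C p G) (φ : Fml) (v : ℕ → M) (a : M) :
    ∃ c, ∀ x, E x c ↔ (E x a ∧ Sat E φ (cons x v)) := by
  have h1 := h.valid (.ex (.all (fIff (.mem 0 1) (.and (.mem 0 2) (φ.ren rSep))))) (by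
    intro w
    simp only [val, val_fIff]
    rw [eq_top_iff]
    obtain ⟨c, hc⟩ := HS.ax_sep φ (fun n => w (n + 1)) (w 0)
    refine le_iSup_of_le c (le_iInf fun x => ?_)
    rw [val_ren]
    have h2 : (fun n => cons x (cons c w) (rSep n)) = cons x (fun n => w (n + 1)) := by
      funext n
      cases n <;> rfl
    rw [h2]
    change ⊤ ≤ vIff (HS.memv x c) (HS.memv x (w 0) ⊓ val φ (cons x fun n => w (n + 1)))
    rw [hc, vIff_self]) (cons a v)
  simp only [Sat, Sat_fIff, Sat_ren, rSep_spec] at h1
  exact h1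

theorem IsModel.coll (h : IsModel E C p G) (φ : Fml) (v : ℕ → M) (a : M) :
    ∃ c, ∀ x, E x a → (∃ y, Sat E φ (cons x (cons y v))) →
      ∃ y, E y c ∧ Sat E φ (cons x (cons y v)) := by
  have h1 := h.valid (.ex (.all (.imp (.mem 0 2) (.imp (.ex (φ.ren rColl))
    (.ex (.and (.mem 0 2) (φ.ren rColl))))))) (by
    intro w
    simp only [val]
    rw [eq_top_iff]
    obtain ⟨c, hc⟩ := HS.ax_coll φ (fun n => w (n + 1)) (w 0)
    refine le_iSup_of_le c (le_iInf fun x => ?_)
    have h2 : ∀ y, (fun n => cons y (cons x (cons c w)) (rColl n)) =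
        cons x (cons y (fun n => w (n + 1))) := by
      intro y
      funext n
      match n with
      | 0 => rfl
      | 1 => rfl
      | n + 2 => rfl
    simp only [val_ren, h2]
    rw [le_himp_iff, le_himp_iff, top_inf_eq]
    exact hc x) (cons a v)
  simp only [Sat, Sat_ren, rColl_spec] at h1
  exact h1

end

theorem isZF_of_isModel {M : Type} {E : M → M → Prop} {C : Set HS} {p : HS → M} {G : Set BB}
    (h : IsModel E C p G) : IsZF E where
  nonempty := ⟨p HS.omega⟩
  ext := by
    intro a b
    have h1 := h.valid (.imp (.all (fIff (.mem 0 1) (.mem 0 2))) (.eq 0 1)) (by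
      intro w
      simp only [val, val_fIff]
      rw [himp_eq_top_iff]
      exact HS.extv _ _) (cons a (fun _ => b))
    simp only [Sat, Sat_fIff] at h1
    exact h1
  found := by
    intro a
    have h1 := h.valid (.imp (.ex (.mem 0 1)) (.ex (.and (.mem 0 1)
      (.all (.imp (.mem 0 1) (.neg (.mem 0 2))))))) (by
      intro w
      simp only [val]
      rw [himp_eq_top_iff]
      exact HS.ax_found (w 0)) (fun _ => a)
    simp only [Sat] at h1
    exact h1
  pair := by
    intro a b
    have h1 := h.valid (.ex (.all (fIff (.mem 0 1) (.or (.eq 0 2) (.eq 0 3))))) (by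
      intro w
      simp only [val, val_fIff]
      rw [eq_top_iff]
      obtain ⟨c, hc⟩ := HS.ax_pair (w 0) (w 1)
      refine le_iSup_of_le c (le_iInf fun x => ?_)
      change ⊤ ≤ vIff (HS.memv x c) (HS.eqv x (w 0) ⊔ HS.eqv x (w 1))
      rw [hc, vIff_self]) (cons a (fun _ => b))
    simp only [Sat, Sat_fIff] at h1
    exact h1
  union := by
    intro a
    have h1 := h.valid (.ex (.all (fIff (.mem 0 1) (.ex (.and (.mem 0 3) (.mem 1 0)))))) (by
      intro w
      simp only [val, val_fIff]
      rw [eq_top_iff]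
      obtain ⟨c, hc⟩ := HS.ax_union (w 0)
      refine le_iSup_of_le c (le_iInf fun x => ?_)
      change ⊤ ≤ vIff (HS.memv x c) (⨆ y : HS, HS.memv y (w 0) ⊓ HS.memv x y)
      rw [hc, vIff_self]) (fun _ => a)
    simp only [Sat, Sat_fIff] at h1
    exact h1
  power := by
    intro a
    have h1 := h.valid (.ex (.all (fIff (.mem 0 1) (.all (.imp (.mem 0 1) (.mem 0 3)))))) (by
      intro w
      simp only [val, val_fIff]
      rw [eq_top_iff]
      obtain ⟨c, hc⟩ := HS.ax_power (w 0)
      refine le_iSup_of_le c (le_iInf fun x => ?_)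
      change ⊤ ≤ vIff (HS.memv x c) (⨅ y : HS, HS.memv y x ⇨ HS.memv y (w 0))
      rw [hc, vIff_self]) (fun _ => a)
    simp only [Sat, Sat_fIff] at h1
    exact h1
  infinity := by
    have h1 := h.valid (.ex (.and (.ex (.and (.mem 0 1) (.all (.neg (.mem 0 1)))))
      (.all (.imp (.mem 0 1) (.ex (.and (.mem 0 2)
        (.all (fIff (.mem 0 1) (.or (.mem 0 2) (.eq 0 2)))))))))) (by
      intro w
      simp only [val, val_fIff]
      rw [eq_top_iff]
      refine le_iSup_of_le HS.omega (le_inf ?_ ?_)
      · refine le_iSup_of_le (HS.num 0) (le_inf ?_ ?_)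
        · change ⊤ ≤ HS.memv (HS.num 0) HS.omega
          rw [HS.memv_omega]
          refine le_iSup_of_le 0 ?_
          rw [HS.eqv_refl]
        · refine le_iInf fun y => ?_
          change ⊤ ≤ (HS.memv y (HS.num 0))ᶜ
          rw [HS.memv_num_zero, compl_bot]
      · refine le_iInf fun x => ?_
        rw [le_himp_iff, top_inf_eq]
        change HS.memv x HS.omega ≤ _
        refine le_iSup_of_le (HS.suc x) (le_inf ?_ ?_)
        · change HS.memv x HS.omega ≤ HS.memv (HS.suc x) HS.omega
          rw [HS.memv_omega, HS.memv_omega]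
          refine iSup_le fun n => le_iSup_of_le (n + 1) ?_
          change _ ≤ HS.eqv (HS.suc x) (HS.suc (HS.num n))
          refine le_trans ?_ (HS.extv _ _)
          refine le_iInf fun z => ?_
          rw [HS.memv_suc, HS.memv_suc]
          refine le_inf ?_ ?_
          · rw [le_himp_iff, inf_sup_left]
            refine sup_le_sup (HS.memv_congr_right _ _ _) ?_
            rw [inf_comm]
            exact HS.eqv_trans _ _ _
          · rw [le_himp_iff, inf_sup_left, HS.eqv_symm x]
            refine sup_le_sup (HS.memv_congr_right _ _ _) ?_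
            rw [inf_comm]
            exact HS.eqv_trans _ _ _
        · refine le_iInf fun z => ?_
          change _ ≤ vIff (HS.memv z (HS.suc x)) (HS.memv z x ⊔ HS.eqv z x)
          rw [HS.memv_suc, vIff_self]
          exact le_top) (fun _ => p HS.omega)
    simp only [Sat, Sat_fIff] at h1
    exact h1
  sep := h.sep
  repl := by
    intro φ v a hf
    obtain ⟨c, hc⟩ := h.coll φ v a
    obtain ⟨d, hd⟩ := h.sep (.ex (.and (.mem 0 2) (φ.ren rRepl))) (cons a v) c
    refine ⟨d, fun y => ?_⟩
    rw [hd]
    simp only [Sat, Sat_ren, rRepl_spec]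
    constructor
    · rintro ⟨-, x, hx1, hx2⟩
      exact ⟨x, hx1, hx2⟩
    · rintro ⟨x, hx1, hx2⟩
      refine ⟨?_, x, hx1, hx2⟩
      obtain ⟨y', hy1, hy2⟩ := hc x hx1 ⟨y, hx2⟩
      have := (hf x hx1).unique hx2 hy2
      rw [this]
      exact hy1

end BC
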